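import Pool.Agent.Lit.BaseO

/-!
# BaseM: facts on the ring of integers of `M`
-/

open Matrix
open scoped QuadraticAlgebra Pointwise

namespace Lit

open SerreK

section field

private theorem BaseM_charO : CharZero O :=
  charZero_of_injective_algebraMap (R := ℤ) (A := O) (fun a b h => by
    have := congrArg QuadraticAlgebra.re h
    simpa using this)

variable {M : Type} [Field M] [Algebra K M] [Algebra O M] [IsScalarTower O K M]
  [FiniteDimensional K M] [IsGalois K M]

instance instFin : Module.Finite O (RI M) :=
  IsIntegralClosure.finite O K M (RI M)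

omit [FiniteDimensional K M] [IsGalois K M] in
private theorem BaseM_injM : Function.Injective (algebraMap O M) := by
  rw [IsScalarTower.algebraMap_eq O K M]
  exact (algebraMap K M).injective.comp (IsFractionRing.injective O K)

omit [FiniteDimensional K M] [IsGalois K M] in
private theorem BaseM_inj : Function.Injective (algebraMap O (RI M)) := by
  intro a b h
  apply BaseM_injM (M := M)
  have := congrArg (algebraMap (RI M) M) h
  rwa [← IsScalarTower.algebraMap_apply, ← IsScalarTower.algebraMap_apply] at this

instance instFaith : FaithfulSMul O (RI M) :=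
  (faithfulSMul_iff_algebraMap_injective O (RI M)).mpr BaseM_inj

instance instFlat : Module.Flat O (RI M) := by
  have : Module.IsTorsionFree O M := by
    exact Module.isTorsionFree_iff_algebraMap_injective.mpr BaseM_injM
  have : Module.Free O (RI M) := IsIntegralClosure.module_free O K M (RI M)
  infer_instance

instance instDed : IsDedekindDomain (RI M) :=
  integralClosure.isDedekindDomain O K (L := M)

instance instGG : IsGaloisGroup Gal(M/K) O (RI M) := by
  have : IsFractionRing (RI M) M := integralClosure.isFractionRing_of_finite_extension K M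
  exact IsGaloisGroup.of_isFractionRing Gal(M/K) O (RI M) K M

instance instCharZero : CharZero M := by
  have := BaseM_charO
  exact charZero_of_injective_algebraMap (BaseM_injM (M := M))

/-- the residue fields of `O` are finite (hence perfect). -/
theorem perfect_residue (p : Ideal O) [p.IsPrime] (hp : p ≠ ⊥) : PerfectField p.ResidueField := by
  have : p.IsMaximal := Ideal.IsPrime.isMaximal inferInstance hp
  have : Finite (O ⧸ p) := Ideal.finiteQuotientOfFreeOfNeBot p hp
  have : Finite p.ResidueField :=
    Finite.of_surjective _ (Ideal.bijective_algebraMap_quotient_residueField p).surjective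
  infer_instance

/-- the quotients of `RI M` by nonzero ideals are finite. -/
theorem finite_quot (P : Ideal (RI M)) (hP : P ≠ ⊥) : Finite (RI M ⧸ P) := by
  have h1 : P.under O ≠ ⊥ := by
    obtain ⟨x, hx, hx0⟩ := Submodule.exists_mem_ne_zero_of_ne_bot hP
    exact Ideal.comap_ne_bot_of_integral_mem hx0 hx (Algebra.IsIntegral.isIntegral x)
  have : Finite (O ⧸ P.under O) := Ideal.finiteQuotientOfFreeOfNeBot _ h1
  have : Module.Finite (O ⧸ P.under O) (RI M ⧸ P) := inferInstance
  exact Module.finite_of_finite (O ⧸ P.under O)

/-- `2 x = a`, `a` integral and `x` integral over `O`: if `a ∈ RI M` satisfies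
`a ^ 2 - 2 p a + 4 q = 0` with `p, q ∈ O`, then `a` is divisible by `2` in `RI M`. -/
theorem half_mem (a : RI M) (p q : O)
    (h : a ^ 2 - 2 * algebraMap O (RI M) p * a + 4 * algebraMap O (RI M) q = 0) :
    ∃ y : RI M, 2 * y = a := by
  have h2 : (2 : M) ≠ 0 := two_ne_zero
  have h' : (a : M) ^ 2 - 2 * algebraMap O M p * a + 4 * algebraMap O M q = 0 := by
    have h3 := congrArg (fun z : RI M => (z : M)) h
    simp only [Subalgebra.coe_add, Subalgebra.coe_sub, Subalgebra.coe_mul, Subalgebra.coe_pow,
      Subalgebra.coe_zero, Subalgebra.coe_algebraMap] at h3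
    have e2 : (((2 : RI M)) : M) = 2 := rfl
    have e4 : (((4 : RI M)) : M) = 4 := rfl
    rw [e2, e4] at h3
    exact h3
  have hy : IsIntegral O ((a : M) / 2) := by
    refine ⟨Polynomial.X ^ 2 - Polynomial.C p * Polynomial.X + Polynomial.C q, ?_, ?_⟩
    · monicity!
    · simp only [Polynomial.eval₂_add, Polynomial.eval₂_sub, Polynomial.eval₂_mul, Polynomial.eval₂_pow,
        Polynomial.eval₂_X, Polynomial.eval₂_C]
      field_simp
      linear_combination h'
  refine ⟨⟨(a : M) / 2, hy⟩, ?_⟩
  apply Subtype.ext
  have e2 : (((2 : RI M)) : M) = 2 := rfl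
  rw [Subalgebra.coe_mul, e2]
  show (2 : M) * ((a : M) / 2) = a
  field_simp

end field

end Lit
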