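import Pool.Agent.Lit.Defs
import Pool.Agent.SerreK.PIDM

/-!
# BaseO: facts on `O = ℤ[w]`, `w² = w - 3`
-/

open Matrix
open scoped QuadraticAlgebra Pointwise

namespace Lit

open SerreK

theorem w_sq : w ^ 2 = w - 3 := by
  ext <;> simp [w, pow_two]

theorem N_eq : N = 2 + 5 * w := by
  ext <;> simp [w, N]

/-- the norm `x² + xy + 3y²` of `x + y w` -/
def nrm (x : O) : ℤ := x.re ^ 2 + x.re * x.im + 3 * x.im ^ 2

theorem nrm_mul (x y : O) : nrm (x * y) = nrm x * nrm y := by
  simp only [nrm, QuadraticAlgebra.re_mul, QuadraticAlgebra.im_mul]; ring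

/-- the norm is `x · x̄`. -/
theorem nrm_eq (x : O) : (nrm x : O) = x * ⟨x.re + x.im, -x.im⟩ := by
  ext
  · simp
    unfold nrm
    ring
  · simp
    ring

private theorem BaseO_four (x : O) : 4 * nrm x = (2 * x.re + x.im) ^ 2 + 11 * x.im ^ 2 := by
  unfold nrm
  ring

private theorem BaseO_nonneg (x : O) : 0 ≤ nrm x := by
  have h := BaseO_four x
  nlinarith [sq_nonneg (2 * x.re + x.im), sq_nonneg x.im]

private theorem BaseO_one : nrm (1 : O) = 1 := by
  simp [nrm]

private theorem BaseO_unit {x : O} (h : nrm x = 1) : IsUnit x := by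
  have h1 := nrm_eq x
  rw [h, Int.cast_one] at h1
  exact IsUnit.of_mul_eq_one _ h1.symm

instance instPIR : IsPrincipalIdealRing O := pidm 2 (by decide)

private theorem BaseO_irr {x : O} {p : ℕ} (hp : p.Prime) (h : nrm x = p) : Irreducible x := by
  constructor
  · intro hu
    obtain ⟨y, hy⟩ := hu.exists_right_inv
    have h1 : nrm x * nrm y = 1 := by rw [← nrm_mul, hy, BaseO_one]
    rw [h] at h1
    have h2 : IsUnit (p : ℤ) := IsUnit.of_mul_eq_one _ h1
    rw [Int.isUnit_iff_natAbs_eq, Int.natAbs_natCast] at h2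
    exact hp.one_lt.ne' h2
  · intro a b hab
    have h1 : nrm a * nrm b = p := by rw [← nrm_mul, ← hab, h]
    have h2 : (nrm a).natAbs * (nrm b).natAbs = p := by
      rw [← Int.natAbs_mul, h1, Int.natAbs_natCast]
    have ha := BaseO_nonneg a
    have hb := BaseO_nonneg b
    rcases (Nat.prime_mul_iff.1 (by rw [h2]; exact hp : ((nrm a).natAbs * (nrm b).natAbs).Prime))
      with h3 | h3
    · right
      refine BaseO_unit ?_
      have := h3.2
      omega
    · left
      refine BaseO_unit ?_
      have := h3.2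
      omega

/-- `w` is a prime element (norm `3`). -/
theorem w_prime : Prime w :=
  (BaseO_irr Nat.prime_three (by simp [nrm, w])).prime

private theorem BaseO_N : nrm N = (89 : ℕ) := by
  simp [nrm, N]

/-- `N` is a prime element (norm `89`). -/
theorem N_prime : Prime N :=
  (BaseO_irr (by norm_num : Nat.Prime 89) BaseO_N).prime

/-- `w` is a prime not dividing `2N`. -/
theorem w_not_dvd : ¬ w ∣ 2 * N := by
  rintro ⟨y, hy⟩
  have h1 := congrArg nrm hy
  rw [nrm_mul, nrm_mul, BaseO_N] at h1
  have h2 : nrm (2 : O) = 4 := by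
    rw [show (2 : O) = ⟨2, 0⟩ from by ext <;> simp]
    simp [nrm]
  have h3 : nrm w = 3 := by simp [nrm, w]
  rw [h2, h3] at h1
  push_cast at h1
  omega

private def BaseO_f : O →+* ZMod 3 where
  toFun x := (x.re : ZMod 3)
  map_one' := by simp
  map_mul' x y := by
    rw [QuadraticAlgebra.re_mul]
    push_cast
    have h3 : (3 : ZMod 3) = 0 := by decide
    simp [h3]
  map_zero' := by simp
  map_add' x y := by simp

private theorem BaseO_ker : RingHom.ker BaseO_f = Ideal.span {w} := by
  ext x
  rw [RingHom.mem_ker, Ideal.mem_span_singleton]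
  constructor
  · intro h
    have h1 : ((x.re : ℤ) : ZMod 3) = 0 := h
    obtain ⟨k, hk⟩ := (ZMod.intCast_zmod_eq_zero_iff_dvd x.re 3).1 h1
    refine ⟨⟨k + x.im, -k⟩, ?_⟩
    push_cast at hk
    ext
    · simp [w]
      linarith
    · simp [w]
  · rintro ⟨y, rfl⟩
    rw [map_mul]
    have : BaseO_f w = 0 := by
      show (((w : O).re : ℤ) : ZMod 3) = 0
      simp [w]
    rw [this, zero_mul]

/-- `O/(w)` has `3` elements. -/
theorem card_quot_w : Nat.card (O ⧸ Ideal.span {w}) = 3 := by
  have hs : Function.Surjective BaseO_f := by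
    intro z
    obtain ⟨k, hk⟩ := ZMod.intCast_surjective z
    refine ⟨⟨k, 0⟩, ?_⟩
    exact hk
  rw [← BaseO_ker]
  rw [Nat.card_congr (RingHom.quotientKerEquivOfSurjective hs).toEquiv]
  simp

/-- no element of `O` has square `-4N`. -/
theorem not_sq (x : O) : x ^ 2 ≠ -4 * N := by
  intro h
  have h1 := congrArg nrm h
  rw [pow_two, nrm_mul, nrm_mul, BaseO_N] at h1
  have h2 : nrm (-4 : O) = 16 := by
    rw [show (-4 : O) = ⟨-4, 0⟩ from by ext <;> simp]
    simp [nrm]
  rw [h2] at h1
  push_cast at h1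
  have h3 := BaseO_nonneg x
  rcases le_or_gt (nrm x) 37 with h4 | h4
  · nlinarith
  · nlinarith

/-- a nonzero prime ideal containing `N` is `(N)`. -/
theorem under_N (p : Ideal O) (hp : p.IsPrime) (h : N ∈ p) : p = Ideal.span {N} := by
  have h1 : (Ideal.span {N}).IsMaximal :=
    PrincipalIdealRing.isMaximal_of_irreducible N_prime.irreducible
  have h2 : Ideal.span {N} ≤ p := by
    rw [Ideal.span_singleton_le_iff_mem]
    exact h
  exact (h1.eq_of_le hp.ne_top h2).symm

/-- the multiplicity of `(N)` in `(N)` is `1`. -/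
theorem mult_N : multiplicity (Ideal.span {N}) (Ideal.span {N}) = 1 := multiplicity_self

/-- the multiplicity of `p` in `(N)` is `0` if `N ∉ p`. -/
theorem mult_N' (p : Ideal O) (h : N ∉ p) : multiplicity p (Ideal.span {N}) = 0 := by
  rw [multiplicity_eq_zero]
  intro hd
  have h1 := Ideal.le_of_dvd hd
  rw [Ideal.span_singleton_le_iff_mem] at h1
  exact h h1

section prime

variable {S : Type} [CommRing S] [Algebra O S]

/-- if `x ∈ O` lies in the ideal `P` of `S`, so does the norm of `x`. -/
theorem nrm_mem (P : Ideal S) (x : O) (h : algebraMap O S x ∈ P) : ((nrm x : ℤ) : S) ∈ P := by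
  have h1 : ((nrm x : ℤ) : S) = algebraMap O S ((nrm x : ℤ) : O) := by
    rw [map_intCast]
  rw [h1, nrm_eq, map_mul]
  exact P.mul_mem_right _ h

/-- an ideal containing two coprime integers is the unit ideal. -/
theorem int_coprime (P : Ideal S) [hP : P.IsPrime] (m n : ℤ) (h : IsCoprime m n)
    (hm : (m : S) ∈ P) (hn : (n : S) ∈ P) : False := by
  obtain ⟨a, b, hab⟩ := h
  apply hP.ne_top
  rw [Ideal.eq_top_iff_one]
  have h1 : (1 : S) = (a : S) * (m : S) + (b : S) * (n : S) := by
    have := congrArg (fun z : ℤ => (z : S)) hab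
    push_cast at this
    exact this.symm
  rw [h1]
  exact P.add_mem (P.mul_mem_left _ hm) (P.mul_mem_left _ hn)

end prime

end Lit
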