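import Pool.Agent.Lit.Words

/-!
# Edge: a class `x ∈ H¹(Y₀(N), 𝔽̄₂)` as a function on the edges

PROOFS.  `phi : O →+* ZMod 89`, `w ↦ 53` (`53² = 53 - 3`), `N ∣ x ↔ phi x = 0` (`⇐`: `x N̄` is divisible by `89 = N N̄`,
`N̄ = 7 - 5w`).  `v1 t = t`, `v2 t = 1` for `t < 89`, `v1 89 = 1`, `v2 89 = 0` (in `ZMod 89`);
`Cl g t : phi (g 1 0) * v2 t = phi (g 1 1) * v1 t`.
* `Cl g t → Cl (g * lt l) (nxt l t)` for `t < 90`, `l < 6` (table facts for the `6 · 90` pairs by `decide`).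
* `Cl g t → Cl g' t → N ∣ (g * g'⁻¹) 1 0` (`(g g'⁻¹)₁₀ = (c d' - d c')/det g'`).
* `Cl g t → Cl g t' → t = t'` for `t, t' < 90` (`(phi c, phi d) ≠ (0,0)`).
* `R t = evW (tw t)`, `Cl (R t) t` (start with `Cl 1 0`; `(pm (tw t) 0 0).1 = t` by `decide +kernel`).
* `hh g = x ⟨g, _⟩` if `N ∣ g 1 0` and `0` otherwise; `hh (g g') = hh g + hh g'` if both are in `Γ₀(N)`.
* `E i = hh (R (i % 90) * lt (i / 90) * (R (nxt (i / 90) (i % 90)))⁻¹)`.
* `path_sum`: if `(t', m') = pm W t m` then `t' < 90` and `evm E m' = evm E m + hh (R t * evW W * (R t')⁻¹)`, by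
  induction on `W`; for the letters `4, 5` (`A⁻¹`, `U⁻¹`) use `nxt 0 (nxt 4 t) = t`, `nxt 1 (nxt 5 t) = t`
  (`decide +kernel`) and `hh g⁻¹ = hh g` (characteristic two).
* `edges_fin`: `R t * evW W * (R t)⁻¹` has finite order.  `edges_tree`: `R (nxt l p) = R p * lt l` since
  `tw (nxt l p) = tw p ++ [l]` (`decide +kernel` over `treeL`), so the value is `hh 1 = 0`.
  `edges_base`: `tw 0 = []`, `R 0 = 1`.
The three facts `∀ t < 90, (pm (tw t) 0 0).1 = t`, `∀ e ∈ treeL, tw (nxt e.2 e.1) = tw e.1 ++ [e.2]`,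
`∀ l < 6, ∀ t < 90, nxt l t < 90` were tested: `by decide +kernel` proves them in a second.
-/

open Matrix
open scoped QuadraticAlgebra

namespace Lit

open SerreE SerreK

theorem evm_xor (E : ℕ → FF) (m m' : ℕ) : evm E (m ^^^ m') = evm E m + evm E m' := by
  unfold evm
  rw [← Finset.sum_add_distrib]
  refine Finset.sum_congr rfl fun i _ => ?_
  rw [Nat.testBit_xor]
  rcases Bool.eq_false_or_eq_true (m.testBit i) with h | h <;>
    rcases Bool.eq_false_or_eq_true (m'.testBit i) with h' | h' <;>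
      simp [h, h', CharTwo.add_self_eq_zero]

theorem evm_zero (E : ℕ → FF) : evm E 0 = 0 := by
  unfold evm
  simp

theorem evm_bit (E : ℕ → FF) (i : ℕ) (hi : i < 360) : evm E (1 <<< i) = E i := by
  unfold evm
  rw [Finset.sum_eq_single i]
  · rw [Nat.one_shiftLeft, Nat.testBit_two_pow_self]; rfl
  · intro j _ hj
    rw [Nat.one_shiftLeft, Nat.testBit_two_pow_of_ne hj.symm]; rfl
  · intro h
    exact absurd (Finset.mem_range.2 hi) h

/-! ### the reduction map -/

/-- the reduction modulo `N`, `w ↦ 53` -/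
def phi : O →+* ZMod 89 where
  toFun x := (x.re : ZMod 89) + 53 * (x.im : ZMod 89)
  map_one' := by simp [QuadraticAlgebra.re_one, QuadraticAlgebra.im_one]
  map_zero' := by simp
  map_mul' x y := by
    simp only [QuadraticAlgebra.re_mul, QuadraticAlgebra.im_mul]
    push_cast
    have h : (2759 : ZMod 89) = 0 := by decide
    linear_combination (-(x.im * y.im : ZMod 89)) * h
  map_add' x y := by
    simp only [QuadraticAlgebra.re_add, QuadraticAlgebra.im_add]
    push_cast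
    ring

theorem phi_apply (x : O) : phi x = (x.re : ZMod 89) + 53 * (x.im : ZMod 89) := rfl

theorem phi_w : phi w = 53 := by
  rw [phi_apply]; simp [w]

theorem phi_N : phi N = 0 := by
  rw [phi_apply]; simp only [N]; decide

theorem dvd_iff (x : O) : N ∣ x ↔ phi x = 0 := by
  constructor
  · rintro ⟨y, rfl⟩
    rw [map_mul, phi_N, zero_mul]
  · intro h
    rw [phi_apply] at h
    have h1 : ((x.re + 53 * x.im : ℤ) : ZMod 89) = 0 := by push_cast; exact h
    rw [ZMod.intCast_zmod_eq_zero_iff_dvd] at h1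
    obtain ⟨k, hk⟩ := h1
    have hk' : x.re = 89 * k - 53 * x.im := by
      push_cast at hk; linarith
    refine ⟨⟨7 * k - 4 * x.im, 3 * x.im - 5 * k⟩, ?_⟩
    ext
    · simp only [N, QuadraticAlgebra.re_mul]
      rw [hk']; push_cast; ring
    · simp only [N, QuadraticAlgebra.im_mul]
      ring

/-! ### the projective line -/

/-- first homogeneous coordinate of a point -/
def w1 (t : ℕ) : ℕ := if t < 89 then t else 1

/-- second homogeneous coordinate of a point -/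
def w2 (t : ℕ) : ℕ := if t < 89 then 1 else 0

/-- the class of the bottom row of `g` is the point `t`. -/
def Cl (g : GL (Fin 2) O) (t : ℕ) : Prop :=
  phi (g.val 1 0) * (w2 t : ZMod 89) = phi (g.val 1 1) * (w1 t : ZMod 89)

/-- the letters modulo `N` -/
def mt : ℕ → ℕ × ℕ × ℕ × ℕ
  | 0 => (1, 1, 0, 1)
  | 1 => (1, 53, 0, 1)
  | 2 => (0, 1, 88, 0)
  | 3 => (88, 0, 0, 1)
  | 4 => (1, 88, 0, 1)
  | 5 => (1, 36, 0, 1)
  | _ => (1, 0, 0, 1)

theorem nxt_lt : ∀ l < 6, ∀ t < 90, nxt l t < 90 := by decide +kernel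

theorem nxt_04 : ∀ t < 90, nxt 0 (nxt 4 t) = t := by decide +kernel

theorem nxt_15 : ∀ t < 90, nxt 1 (nxt 5 t) = t := by decide +kernel

theorem tab : ∀ l < 6, ∀ t < 90,
    ((w1 t * (mt l).1 + w2 t * (mt l).2.2.1) * w2 (nxt l t)) % 89 =
      ((w1 t * (mt l).2.1 + w2 t * (mt l).2.2.2) * w1 (nxt l t)) % 89 := by decide +kernel

theorem wne : ∀ t < 90, ¬ (w1 t % 89 = 0 ∧ w2 t % 89 = 0) := by decide +kernel

theorem up_inv (x : O) : (up x)⁻¹ = up (-x) := by
  rw [inv_eq_iff_mul_eq_one]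
  apply Units.ext
  change !![(1 : O), x; 0, 1] * !![(1 : O), -x; 0, 1] = 1
  rw [Matrix.mul_fin_two, Matrix.one_fin_two]
  simp

theorem lt_mod : ∀ l < 6, phi ((lt l).val 0 0) = ((mt l).1 : ℕ) ∧ phi ((lt l).val 0 1) = ((mt l).2.1 : ℕ) ∧
    phi ((lt l).val 1 0) = ((mt l).2.2.1 : ℕ) ∧ phi ((lt l).val 1 1) = ((mt l).2.2.2 : ℕ) := by
  have e88 : ((88 : ℕ) : ZMod 89) = -1 := by decide
  have e36 : ((36 : ℕ) : ZMod 89) = -53 := by decide
  intro l hl
  interval_cases l
  · simp [lt, up, mt]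
  · simp [lt, up, mt, phi_w]
  · simp only [lt, gB, mt, mk2_00, mk2_01, mk2_10, mk2_11, map_neg, map_one, map_zero, e88]
    simp
  · simp only [lt, gD, mt, mk2_00, mk2_01, mk2_10, mk2_11, map_neg, map_one, map_zero, e88]
    simp
  · have e : lt 4 = up (-1) := up_inv 1
    rw [e]
    simp only [up, mt, mk2_00, mk2_01, mk2_10, mk2_11, map_neg, map_one, map_zero, e88]
    simp
  · have e : lt 5 = up (-w) := up_inv w
    rw [e]
    simp only [up, mt, mk2_00, mk2_01, mk2_10, mk2_11, map_neg, map_one, map_zero, e36, phi_w]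
    simp

theorem gl_mul (a b : GL (Fin 2) O) (i j : Fin 2) :
    (a * b).val i j = a.val i 0 * b.val 0 j + a.val i 1 * b.val 1 j := by
  rw [Units.val_mul, Matrix.mul_apply, Fin.sum_univ_two]

theorem gl_det (a : GL (Fin 2) O) :
    phi (a.val 0 0) * phi (a.val 1 1) - phi (a.val 0 1) * phi (a.val 1 0) ≠ 0 := by
  have h : IsUnit (a.val.det) := (Matrix.isUnit_iff_isUnit_det _).1 a.isUnit
  have h2 := h.map phi
  rw [Matrix.det_fin_two, map_sub, map_mul, map_mul] at h2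
  have : Fact (Nat.Prime 89) := ⟨by norm_num⟩
  exact h2.ne_zero

theorem Cl_mul {g : GL (Fin 2) O} {l t : ℕ} (hl : l < 6) (ht : t < 90) (h : Cl g t) :
    Cl (g * lt l) (nxt l t) := by
  have : Fact (Nat.Prime 89) := ⟨by norm_num⟩
  obtain ⟨a1, a2, a3, a4⟩ := lt_mod l hl
  have h1 := tab l hl t ht
  have h2 : ((((w1 t * (mt l).1 + w2 t * (mt l).2.2.1) * w2 (nxt l t)) : ℕ) : ZMod 89) =
      (((w1 t * (mt l).2.1 + w2 t * (mt l).2.2.2) * w1 (nxt l t) : ℕ) : ZMod 89) := by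
    rw [ZMod.natCast_eq_natCast_iff]; exact h1
  push_cast at h2
  unfold Cl at h ⊢
  rw [gl_mul, gl_mul, map_add, map_add, map_mul, map_mul, map_mul, map_mul, a1, a2, a3, a4]
  -- (c, d) is proportional to (w1, w2)
  set c := phi (g.val 1 0)
  set d := phi (g.val 1 1)
  have hw := wne t ht
  have h3 : (w1 t : ZMod 89) ≠ 0 ∨ (w2 t : ZMod 89) ≠ 0 := by
    by_contra hc
    push Not at hc
    apply hw
    have := (ZMod.natCast_eq_zero_iff (w1 t) 89).1 hc.1
    have := (ZMod.natCast_eq_zero_iff (w2 t) 89).1 hc.2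
    omega
  rcases h3 with h3 | h3
  · apply mul_left_cancel₀ h3
    linear_combination c * h2 + (((mt l).2.2.2 : ZMod 89) * (w1 (nxt l t) : ZMod 89) -
      ((mt l).2.2.1 : ZMod 89) * (w2 (nxt l t) : ZMod 89)) * h
  · apply mul_left_cancel₀ h3
    linear_combination d * h2 + (((mt l).1 : ZMod 89) * (w2 (nxt l t) : ZMod 89) -
      ((mt l).2.1 : ZMod 89) * (w1 (nxt l t) : ZMod 89)) * h

theorem Cl_dvd {g g' : GL (Fin 2) O} {t : ℕ} (ht : t < 90) (h : Cl g t) (h' : Cl g' t) :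
    N ∣ (g * g'⁻¹).val 1 0 := by
  have : Fact (Nat.Prime 89) := ⟨by norm_num⟩
  rw [dvd_iff]
  have e : g = (g * g'⁻¹) * g' := by group
  set k := g * g'⁻¹
  have e0 : phi (g.val 1 0) = phi (k.val 1 0) * phi (g'.val 0 0) + phi (k.val 1 1) * phi (g'.val 1 0) := by
    conv_lhs => rw [e, gl_mul, map_add, map_mul, map_mul]
  have e1 : phi (g.val 1 1) = phi (k.val 1 0) * phi (g'.val 0 1) + phi (k.val 1 1) * phi (g'.val 1 1) := by
    conv_lhs => rw [e, gl_mul, map_add, map_mul, map_mul]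
  have hd := gl_det g'
  unfold Cl at h h'
  have hw := wne t ht
  have h3 : (w1 t : ZMod 89) ≠ 0 ∨ (w2 t : ZMod 89) ≠ 0 := by
    by_contra hc
    push Not at hc
    apply hw
    have := (ZMod.natCast_eq_zero_iff (w1 t) 89).1 hc.1
    have := (ZMod.natCast_eq_zero_iff (w2 t) 89).1 hc.2
    omega
  rw [e0, e1] at h
  rcases h3 with h3 | h3
  · apply (mul_eq_zero.1 _).resolve_left (mul_ne_zero h3 hd)
    linear_combination (phi (g'.val 1 0)) * h - (phi (k.val 1 0) * phi (g'.val 0 0) +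
      phi (k.val 1 1) * phi (g'.val 1 0)) * h'
  · apply (mul_eq_zero.1 _).resolve_left (mul_ne_zero h3 hd)
    linear_combination (phi (g'.val 1 1)) * h - (phi (k.val 1 0) * phi (g'.val 0 1) +
      phi (k.val 1 1) * phi (g'.val 1 1)) * h'

theorem wuniq : ∀ t < 90, ∀ t' < 90, (w1 t * w2 t') % 89 = (w1 t' * w2 t) % 89 → t = t' := by
  decide +kernel

theorem Cl_uniq {g : GL (Fin 2) O} {t t' : ℕ} (ht : t < 90) (ht' : t' < 90) (h : Cl g t)
    (h' : Cl g t') : t = t' := by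
  have : Fact (Nat.Prime 89) := ⟨by norm_num⟩
  apply wuniq t ht t' ht'
  have key : ((w1 t * w2 t' : ℕ) : ZMod 89) = ((w1 t' * w2 t : ℕ) : ZMod 89) := by
    push_cast
    unfold Cl at h h'
    have h3 : phi (g.val 1 0) ≠ 0 ∨ phi (g.val 1 1) ≠ 0 := by
      by_contra hc
      push Not at hc
      apply gl_det g
      rw [hc.1, hc.2]; ring
    rcases h3 with h3 | h3
    · apply mul_left_cancel₀ h3
      linear_combination (w1 t : ZMod 89) * h' - (w1 t' : ZMod 89) * h
    · apply mul_left_cancel₀ h3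
      linear_combination (w2 t : ZMod 89) * h' - (w2 t' : ZMod 89) * h
  rw [ZMod.natCast_eq_natCast_iff] at key
  exact key

theorem Cl_one : Cl 1 0 := by
  unfold Cl
  simp [w1, w2]

theorem Cl_path : ∀ (W : List ℕ) (g : GL (Fin 2) O) (t m : ℕ), (∀ l ∈ W, l < 6) → t < 90 → Cl g t →
    (pm W t m).1 < 90 ∧ Cl (g * evW W) (pm W t m).1
  | [], g, t, m, _, ht, h => by
      simp only [pm]
      refine ⟨ht, ?_⟩
      simpa [evW] using h
  | l :: W, g, t, m, hW, ht, h => by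
      have hl : l < 6 := hW l (by simp)
      have := Cl_path W (g * lt l) (nxt l t) (m ^^^ (1 <<< edg l t))
        (fun l' hl' => hW l' (by simp [hl'])) (nxt_lt l hl t ht) (Cl_mul hl ht h)
      rw [evW_cons, ← mul_assoc]
      exact this

theorem pm_fst : ∀ (W : List ℕ) (t m m' : ℕ), (pm W t m).1 = (pm W t m').1
  | [], _, _, _ => rfl
  | _ :: W, _, _, _ => pm_fst W _ _ _

theorem tw_pm : ∀ t < 90, (pm (tw t) 0 0).1 = t := by decide +kernel

theorem tw_lt : ∀ t < 90, ∀ l ∈ tw t, l < 6 := by decide +kernel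

theorem tree_tw : ∀ e ∈ treeL, tw (nxt e.2 e.1) = tw e.1 ++ [e.2] := by decide +kernel

theorem tree_lt : ∀ e ∈ treeL, e.1 < 90 ∧ e.2 < 6 := by decide +kernel

/-- the representative of the point `t` -/
def R (t : ℕ) : GL (Fin 2) O := evW (tw t)

theorem Cl_R {t : ℕ} (ht : t < 90) : Cl (R t) t := by
  have h := (Cl_path (tw t) 1 0 0 (tw_lt t ht) (by norm_num) Cl_one).2
  rw [tw_pm t ht, one_mul] at h
  exact h

/-- an element of `Γ₀(N)` which is the value of a word closes the path at the base point. -/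
theorem edges_closed (γ : G N) (W : List ℕ) (hW : ∀ l ∈ W, l < 6) (h : evW W = γ.val) :
    (pm W 0 0).1 = 0 := by
  obtain ⟨h1, h2⟩ := Cl_path W 1 0 0 hW (by norm_num) Cl_one
  rw [one_mul] at h2
  have h3 : N ∣ (evW W).val 1 0 := by
    rw [h]
    exact γ.2
  have h4 : Cl (evW W) 0 := by
    unfold Cl
    rw [(dvd_iff _).1 h3]
    simp [w1]
  exact Cl_uniq h1 (by norm_num) h2 h4

/-- conversely the value of a closed path is in `Γ₀(N)`. -/
theorem edges_mem (W : List ℕ) (hW : ∀ l ∈ W, l < 6) (h : (pm W 0 0).1 = 0) :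
    N ∣ (evW W).val 1 0 := by
  have h2 := (Cl_path W 1 0 0 hW (by norm_num) Cl_one).2
  rw [one_mul, h] at h2
  rw [dvd_iff]
  unfold Cl at h2
  simpa [w1, w2] using h2

/-! ### the values of a class -/

open Classical in
/-- the class, extended by `0` to `GL₂(O)` -/
noncomputable def hh (x : HY N) (g : GL (Fin 2) O) : FF :=
  if h : N ∣ g.val 1 0 then x.val ⟨g, h⟩ else 0

theorem hh_mem (x : HY N) {g : GL (Fin 2) O} (h : N ∣ g.val 1 0) : hh x g = x.val ⟨g, h⟩ := by
  unfold hh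
  exact dif_pos h

theorem hh_mul (x : HY N) {g g' : GL (Fin 2) O} (h : N ∣ g.val 1 0) (h' : N ∣ g'.val 1 0) :
    hh x (g * g') = hh x g + hh x g' := by
  have hm : N ∣ (g * g').val 1 0 := Gam_mul N (a := g) (b := g') h h'
  rw [hh_mem x h, hh_mem x h', hh_mem x hm]
  exact x.mul ⟨g, h⟩ ⟨g', h'⟩

theorem hh_fin (x : HY N) {g : GL (Fin 2) O} (hg : IsOfFinOrder g) : hh x g = 0 := by
  by_cases h : N ∣ g.val 1 0
  · rw [hh_mem x h]
    apply x.fin
    rw [isOfFinOrder_iff_pow_eq_one] at hg ⊢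
    obtain ⟨n, hn, hn'⟩ := hg
    refine ⟨n, hn, Subtype.ext ?_⟩
    have e : ∀ (k : ℕ), ((⟨g, h⟩ : G N) ^ k).val = (g : GL (Fin 2) O) ^ k := by
      intro k
      induction k with
      | zero => rfl
      | succ k ih =>
        rw [pow_succ, pow_succ, ← ih]
        rfl
    exact (e n).trans hn'
  · unfold hh
    exact dif_neg h

theorem hh_one (x : HY N) : hh x 1 = 0 := hh_fin x IsOfFinOrder.one

theorem hh_inv (x : HY N) {g : GL (Fin 2) O} (h : N ∣ g.val 1 0) : hh x g⁻¹ = hh x g := by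
  have h' : N ∣ (g⁻¹).val 1 0 := Gam_inv N (a := g) h
  have e := hh_mul x h h'
  rw [mul_inv_cancel, hh_one] at e
  have : hh x g + hh x g = 0 := CharTwo.add_self_eq_zero _
  linear_combination -e - this

/-- the values on the edges -/
noncomputable def EE (x : HY N) (i : ℕ) : FF :=
  hh x (R (i % 90) * lt (i / 90) * (R (nxt (i / 90) (i % 90)))⁻¹)

theorem EE_low (x : HY N) {l t : ℕ} (ht : t < 90) :
    EE x (90 * l + t) = hh x (R t * lt l * (R (nxt l t))⁻¹) := by
  have e1 : (90 * l + t) % 90 = t := by omega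
  have e2 : (90 * l + t) / 90 = l := by omega
  unfold EE
  rw [e1, e2]

theorem edg_lt {l t : ℕ} (hl : l < 6) (ht : t < 90) : edg l t < 360 := by
  have := nxt_lt l hl t ht
  unfold edg
  split_ifs <;> omega

theorem step_mem {l t : ℕ} (hl : l < 6) (ht : t < 90) :
    N ∣ (R t * lt l * (R (nxt l t))⁻¹).val 1 0 :=
  Cl_dvd (nxt_lt l hl t ht) (Cl_mul hl ht (Cl_R ht)) (Cl_R (nxt_lt l hl t ht))

theorem EE_edg (x : HY N) {l t : ℕ} (hl : l < 6) (ht : t < 90) :
    EE x (edg l t) = hh x (R t * lt l * (R (nxt l t))⁻¹) := by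
  by_cases h4 : l < 4
  · unfold edg
    rw [if_pos h4]
    exact EE_low x ht
  · unfold edg
    rw [if_neg h4]
    have hn := nxt_lt l hl t ht
    rw [EE_low x hn, ← hh_inv x (step_mem hl ht)]
    congr 1
    have hl' : l = 4 ∨ l = 5 := by omega
    rcases hl' with rfl | rfl
    · rw [show 4 - 4 = 0 from rfl, nxt_04 t ht]
      simp only [lt]
      group
    · rw [show 5 - 4 = 1 from rfl, nxt_15 t ht]
      simp only [lt]
      group

theorem path_sum (x : HY N) : ∀ (W : List ℕ) (t m : ℕ), (∀ l ∈ W, l < 6) → t < 90 →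
    evm (EE x) (pm W t m).2 = evm (EE x) m + hh x (R t * evW W * (R (pm W t m).1)⁻¹)
  | [], t, m, _, ht => by
      simp only [pm]
      have : R t * evW [] * (R t)⁻¹ = 1 := by simp [evW]
      rw [this, hh_one, add_zero]
  | l :: W, t, m, hW, ht => by
      have hl : l < 6 := hW l (by simp)
      have hW' : ∀ l' ∈ W, l' < 6 := fun l' hl' => hW l' (by simp [hl'])
      have hn := nxt_lt l hl t ht
      have ih := path_sum x W (nxt l t) (m ^^^ (1 <<< edg l t)) hW' hn
      have hp := Cl_path W (R (nxt l t)) (nxt l t) (m ^^^ (1 <<< edg l t)) hW' hn (Cl_R hn)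
      change evm (EE x) (pm W (nxt l t) (m ^^^ (1 <<< edg l t))).2 = evm (EE x) m +
        hh x (R t * evW (l :: W) * (R (pm W (nxt l t) (m ^^^ (1 <<< edg l t))).1)⁻¹)
      rw [ih, evm_xor, evm_bit _ _ (edg_lt hl ht), EE_edg x hl ht, evW_cons]
      set t' := (pm W (nxt l t) (m ^^^ (1 <<< edg l t))).1
      have e : R t * (lt l * evW W) * (R t')⁻¹ =
          (R t * lt l * (R (nxt l t))⁻¹) * (R (nxt l t) * evW W * (R t')⁻¹) := by group
      rw [e, hh_mul x (step_mem hl ht) (Cl_dvd hp.1 hp.2 (Cl_R hp.1))]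
      ring

theorem edges (x : HY N) : ∃ E : ℕ → FF,
    (∀ (W : List ℕ) (t : ℕ), (∀ l ∈ W, l < 6) → t < 90 → (pm W t 0).1 = t →
      IsOfFinOrder (evW W) → evm E (pm W t 0).2 = 0) ∧
    (∀ e ∈ treeL, evm E (pm [e.2] e.1 0).2 = 0) ∧
    (∀ (W : List ℕ), (∀ l ∈ W, l < 6) → (pm W 0 0).1 = 0 → ∀ γ : G N, γ.val = evW W →
      x.val γ = evm E (pm W 0 0).2) := by
  refine ⟨EE x, ?_, ?_, ?_⟩
  · intro W t hW ht hc hf
    rw [path_sum x W t 0 hW ht, evm_zero, zero_add, hc]
    apply hh_fin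
    rw [isOfFinOrder_iff_pow_eq_one] at hf ⊢
    obtain ⟨n, hn, hn'⟩ := hf
    exact ⟨n, hn, by rw [conj_pow, hn', mul_one, mul_inv_cancel]⟩
  · intro e he
    obtain ⟨h1, h2⟩ := tree_lt e he
    rw [path_sum x [e.2] e.1 0 (by simpa using h2) h1, evm_zero, zero_add]
    have e1 : R (nxt e.2 e.1) = R e.1 * lt e.2 := by
      unfold R
      rw [tree_tw e he, evW_append]
      simp [evW]
    have e2 : (pm [e.2] e.1 0).1 = nxt e.2 e.1 := rfl
    rw [e2, e1]
    have e3 : evW [e.2] = lt e.2 := by simp [evW]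
    rw [e3, mul_inv_cancel, hh_one]
  · intro W hW hc γ hγ
    rw [path_sum x W 0 0 hW (by norm_num), evm_zero, zero_add, hc]
    have e1 : R 0 = 1 := rfl
    rw [e1, one_mul, inv_one, mul_one]
    have hm : N ∣ (evW W).val 1 0 := edges_mem W hW hc
    rw [hh_mem x hm]
    congr 1
    exact Subtype.ext hγ

end Lit
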