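import Pool.Agent.Lit.Words

/-!
# Gen: `GL₂(O)` is generated by `A, U, B, D`

PROOF.  Euclid.  `Γ` = set of values of words (letters `< 6`), closed under products (`evW_append`); it
contains `up q` for all `q = x + y w` (powers of `up 1`, `up w` and their inverses), `gB`, `gB⁻¹ = gB³`, `gD`,
`-1 = gB²`.  Strong induction on `nrm (g 1 0)` (as a natural number).  If `g 1 0 = c ≠ 0`, `a = g 0 0`: there is
`q ∈ O` with `nrm (a - q c) < nrm c` (`gen_euclid`); `gB⁻¹ * up (-q) * g` has lower left entry `a - q c` (up to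
sign).  If `g 1 0 = 0` then `g 0 0`, `g 1 1` are units, i.e. `±1` (norm one: `x² + xy + 3y² = 1` gives
`x = ±1, y = 0`), and `g = diag(±1, ±1) up q`.
`gen_euclid`: with `a c̄ = X + Y w`, `n = nrm c`, `y = round (Y/n)`, `x = round ((X + (Y - n y)/2)/n)`,
`q = x + y w`: `nrm (a - q c)/nrm c = (α + β/2)² + 11 β²/4 ≤ 1/4 + 11/16 < 1` with `|β| ≤ 1/2`.
(`PIDM_step 2 1` in `Pool.Agent.SerreK.PIDM` is exactly this statement with `s = 1`: `M = 1`, `4·2+3 < 3·(1+1)²`.)
-/

open Matrix
open scoped QuadraticAlgebra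

namespace Lit

open SerreE SerreK

private theorem Gen_pm (x : O) : PIDM_nm x = nrm x := by
  simp only [PIDM_nm, nrm]
  norm_num

theorem gen_euclid (a c : O) (hc : c ≠ 0) : ∃ q : O, nrm (a - q * c) < nrm c := by
  obtain ⟨s, hs0, hs1, t, ht⟩ := PIDM_step 2 1 one_pos (by norm_num) a c hc
  have hs : s = 1 := by omega
  subst hs
  refine ⟨t, ?_⟩
  rw [Nat.cast_one, one_mul, Gen_pm, Gen_pm] at ht
  exact ht

private theorem Gen_four (x : O) : 4 * nrm x = (2 * x.re + x.im) ^ 2 + 11 * x.im ^ 2 := by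
  simp only [nrm]; ring

private theorem Gen_nonneg (x : O) : 0 ≤ nrm x := by
  have h := Gen_four x
  have : 0 ≤ (2 * x.re + x.im) ^ 2 + 11 * x.im ^ 2 := by positivity
  linarith

private theorem Gen_neg (x : O) : nrm (-x) = nrm x := by
  simp only [nrm, QuadraticAlgebra.re_neg, QuadraticAlgebra.im_neg]; ring

private theorem Gen_unit (u : O) (hu : IsUnit u) : u = 1 ∨ u = -1 := by
  obtain ⟨v, hv⟩ := hu.exists_right_inv
  have h1 : nrm u * nrm v = 1 := by
    rw [← nrm_mul, hv]
    simp [nrm]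
  have h2 : nrm u = 1 := by
    rcases Int.isUnit_iff.1 (IsUnit.of_mul_eq_one _ h1) with h | h
    · exact h
    · have := Gen_nonneg u
      omega
  have h3 := Gen_four u
  rw [h2] at h3
  have h4 : u.im = 0 := by
    by_contra h
    have h5 : 1 ≤ u.im ^ 2 := by
      have := sq_nonneg u.im
      have h6 : u.im ^ 2 ≠ 0 := pow_ne_zero 2 h
      omega
    have h7 : 0 ≤ (2 * u.re + u.im) ^ 2 := sq_nonneg _
    omega
  rw [h4] at h3
  have h5 : u.re ^ 2 = 1 := by linarith [h3, (by ring : (2 * u.re + 0) ^ 2 = 4 * u.re ^ 2)]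
  rcases sq_eq_one_iff.1 h5 with h | h
  · left; ext <;> simp [h, h4]
  · right; ext <;> simp [h, h4]

private theorem Gen_congr {a b c d a' b' c' d' : O} {u u' : Oˣ} {h : a * d - b * c = u}
    {h' : a' * d' - b' * c' = u'} (ha : a = a') (hb : b = b') (hc : c = c') (hd : d = d') :
    mk2 a b c d u h = mk2 a' b' c' d' u' h' := by
  apply Units.ext
  change !![a, b; c, d] = !![a', b'; c', d']
  rw [ha, hb, hc, hd]

private theorem Gen_mul (a b c d a' b' c' d' : O) (u u' : Oˣ) (h : a * d - b * c = u)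
    (h' : a' * d' - b' * c' = u') : mk2 a b c d u h * mk2 a' b' c' d' u' h' =
      mk2 (a * a' + b * c') (a * b' + b * d') (c * a' + d * c') (c * b' + d * d') (u * u')
        (by rw [Units.val_mul, ← h, ← h']; ring) := by
  apply Units.ext
  change !![a, b; c, d] * !![a', b'; c', d'] = !![_, _; _, _]
  rw [Matrix.mul_fin_two]

private theorem Gen_eq (g : GL (Fin 2) O) : g = mk2 (g.val 0 0) (g.val 0 1) (g.val 1 0)
    (g.val 1 1) (Matrix.GeneralLinearGroup.det g) (by
      rw [Matrix.GeneralLinearGroup.val_det_apply, Matrix.det_fin_two]) := by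
  apply Units.ext
  change g.val = !![_, _; _, _]
  exact Matrix.eta_fin_two _

private theorem Gen_up_mul (x y : O) : (up x : GL (Fin 2) O) * up y = up (x + y) := by
  rw [up, up, up, Gen_mul]
  exact Gen_congr (by ring) (by ring) (by ring) (by ring)

private theorem Gen_up_zero : (up (0 : O) : GL (Fin 2) O) = 1 := by
  apply Units.ext
  change !![(1 : O), 0; 0, 1] = 1
  exact Matrix.one_fin_two.symm

private theorem Gen_B4 : gB * (gB * (gB * gB)) = 1 := by
  unfold gB
  rw [Gen_mul, Gen_mul, Gen_mul]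
  apply Units.ext
  change !![_, _; _, _] = (1 : Matrix (Fin 2) (Fin 2) O)
  rw [Matrix.one_fin_two]
  simp

private theorem Gen_D2 : gD * gD = 1 := by
  unfold gD
  rw [Gen_mul]
  apply Units.ext
  change !![_, _; _, _] = (1 : Matrix (Fin 2) (Fin 2) O)
  rw [Matrix.one_fin_two]
  simp

private def Gen_iw : ℕ → List ℕ
  | 0 => [4]
  | 1 => [5]
  | 2 => [2, 2, 2]
  | 3 => [3]
  | 4 => [0]
  | 5 => [1]
  | _ => []

private theorem Gen_iw_lt (l : ℕ) : ∀ m ∈ Gen_iw l, m < 6 := by
  match l with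
  | 0 => decide
  | 1 => decide
  | 2 => decide
  | 3 => decide
  | 4 => decide
  | 5 => decide
  | n + 6 =>
    intro m hm
    exact absurd hm (by simp [Gen_iw])

private theorem Gen_iw_ev (l : ℕ) (hl : l < 6) : evW (Gen_iw l) = (lt l)⁻¹ := by
  match l, hl with
  | 0, _ => simp [Gen_iw, evW, lt]
  | 1, _ => simp [Gen_iw, evW, lt]
  | 2, _ =>
    rw [eq_inv_iff_mul_eq_one]
    have h : evW (Gen_iw 2) * lt 2 = gB * (gB * (gB * gB)) := by
      simp [Gen_iw, evW, lt, mul_assoc]
    rw [h, Gen_B4]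
  | 3, _ =>
    rw [eq_inv_iff_mul_eq_one]
    have h : evW (Gen_iw 3) * lt 3 = gD * gD := by
      simp [Gen_iw, evW, lt]
    rw [h, Gen_D2]
  | 4, _ => simp [Gen_iw, evW, lt]
  | 5, _ => simp [Gen_iw, evW, lt]
  | n + 6, h => exact absurd h (by omega)

/-- the values of words -/
private def Gen_S : Subgroup (GL (Fin 2) O) where
  carrier := {g | ∃ W : List ℕ, (∀ l ∈ W, l < 6) ∧ evW W = g}
  mul_mem' := by
    rintro a b ⟨W, hW, rfl⟩ ⟨W', hW', rfl⟩
    refine ⟨W ++ W', ?_, evW_append W W'⟩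
    intro l hl
    rcases List.mem_append.1 hl with h | h
    · exact hW l h
    · exact hW' l h
  one_mem' := ⟨[], by simp, by simp [evW]⟩
  inv_mem' := by
    rintro a ⟨W, hW, rfl⟩
    induction W with
    | nil => exact ⟨[], by simp, by simp [evW]⟩
    | cons l W ih =>
      obtain ⟨W', hW', h'⟩ := ih (fun m hm => hW m (List.mem_cons_of_mem l hm))
      refine ⟨W' ++ Gen_iw l, ?_, ?_⟩
      · intro m hm
        rcases List.mem_append.1 hm with h | h
        · exact hW' m h
        · exact Gen_iw_lt l m h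
      · rw [evW_append, evW_cons, _root_.mul_inv_rev, h', Gen_iw_ev l (hW l List.mem_cons_self)]

private theorem Gen_lt_mem (l : ℕ) (hl : l < 6) : lt l ∈ Gen_S :=
  ⟨[l], by simpa using hl, by simp [evW]⟩

private theorem Gen_up_mem (q : O) : (up q : GL (Fin 2) O) ∈ Gen_S := by
  let T : AddSubgroup O :=
    { carrier := {x | (up x : GL (Fin 2) O) ∈ Gen_S}
      add_mem' := by
        intro x y hx hy
        change (up (x + y) : GL (Fin 2) O) ∈ Gen_S
        rw [← Gen_up_mul]
        exact Gen_S.mul_mem hx hy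
      zero_mem' := by
        change (up (0 : O) : GL (Fin 2) O) ∈ Gen_S
        rw [Gen_up_zero]
        exact Gen_S.one_mem
      neg_mem' := by
        intro x hx
        change (up (-x) : GL (Fin 2) O) ∈ Gen_S
        have h1 : (up (-x) : GL (Fin 2) O) = (up x)⁻¹ := by
          rw [eq_inv_iff_mul_eq_one, Gen_up_mul, neg_add_cancel, Gen_up_zero]
        rw [h1]
        exact Gen_S.inv_mem hx }
  have h1 : (1 : O) ∈ T := Gen_lt_mem 0 (by norm_num)
  have hw : w ∈ T := Gen_lt_mem 1 (by norm_num)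
  have h2 : q = q.re • (1 : O) + q.im • w := by
    ext <;> simp [w]
  have h3 : q ∈ T := by
    rw [h2]
    exact T.add_mem (T.zsmul_mem h1 _) (T.zsmul_mem hw _)
  exact h3

private theorem Gen_B_mem : gB ∈ Gen_S := Gen_lt_mem 2 (by norm_num)

private theorem Gen_D_mem : gD ∈ Gen_S := Gen_lt_mem 3 (by norm_num)

private theorem Gen_tri (g : GL (Fin 2) O) (h0 : g.val 1 0 = 0) : g ∈ Gen_S := by
  have hdet : g.val 0 0 * g.val 1 1 = (Matrix.GeneralLinearGroup.det g : O) := by
    rw [Matrix.GeneralLinearGroup.val_det_apply, Matrix.det_fin_two, h0]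
    ring
  have hu : IsUnit (g.val 0 0 * g.val 1 1) := by
    rw [hdet]
    exact Units.isUnit _
  have ha := Gen_unit _ (isUnit_of_mul_isUnit_left hu)
  have hd := Gen_unit _ (isUnit_of_mul_isUnit_right hu)
  have key : ∀ (s : GL (Fin 2) O) (t : O), s ∈ Gen_S → g.val = (s * up t).val → g ∈ Gen_S := by
    intro s t hs h
    rw [Units.ext h]
    exact Gen_S.mul_mem hs (Gen_up_mem t)
  have hg : g.val = !![g.val 0 0, g.val 0 1; 0, g.val 1 1] := by
    conv_lhs => rw [Matrix.eta_fin_two g.val]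
    rw [h0]
  rcases ha with ha | ha <;> rcases hd with hd | hd
  · refine key 1 (g.val 0 1) Gen_S.one_mem ?_
    rw [one_mul, hg, ha, hd]
    rfl
  · refine key (gB * gB * gD) (g.val 0 1) (Gen_S.mul_mem (Gen_S.mul_mem Gen_B_mem Gen_B_mem)
      Gen_D_mem) ?_
    rw [gB, gD, up, Gen_mul, Gen_mul, Gen_mul, hg, ha, hd]
    change !![_, _; _, _] = !![_, _; _, _]
    simp
  · refine key gD (-g.val 0 1) Gen_D_mem ?_
    rw [gD, up, Gen_mul, hg, ha, hd]
    change !![_, _; _, _] = !![_, _; _, _]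
    simp
  · refine key (gB * gB) (-g.val 0 1) (Gen_S.mul_mem Gen_B_mem Gen_B_mem) ?_
    rw [gB, up, Gen_mul, Gen_mul, hg, ha, hd]
    change !![_, _; _, _] = !![_, _; _, _]
    simp

private theorem Gen_all (n : ℕ) : ∀ g : GL (Fin 2) O, (nrm (g.val 1 0)).toNat = n → g ∈ Gen_S := by
  induction n using Nat.strong_induction_on with
  | _ n ih =>
    intro g hn
    by_cases hc : g.val 1 0 = 0
    · exact Gen_tri g hc
    · obtain ⟨q, hq⟩ := gen_euclid (g.val 0 0) (g.val 1 0) hc
      have h1 : (gB * (up (-q) * g)).val 1 0 = -(g.val 0 0 - q * g.val 1 0) := by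
        have h2 := Gen_eq g
        rw [h2, gB, up, Gen_mul, Gen_mul]
        simp only [mk2_10, mk2_00]
        ring
      have h3 := Gen_nonneg (g.val 0 0 - q * g.val 1 0)
      have h4 : gB * (up (-q) * g) ∈ Gen_S := by
        refine ih (nrm ((gB * (up (-q) * g)).val 1 0)).toNat ?_ _ rfl
        rw [h1, Gen_neg, ← hn]
        omega
      have h5 : g = (up (-q))⁻¹ * (gB⁻¹ * (gB * (up (-q) * g))) := by
        rw [inv_mul_cancel_left, inv_mul_cancel_left]
      rw [h5]
      exact Gen_S.mul_mem (Gen_S.inv_mem (Gen_up_mem _)) (Gen_S.mul_mem (Gen_S.inv_mem Gen_B_mem) h4)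

theorem gen_top (g : GL (Fin 2) O) : ∃ W : List ℕ, (∀ l ∈ W, l < 6) ∧ evW W = g :=
  Gen_all _ g rfl

end Lit
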