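import Pool.Agent.Lit.CertD
import Pool.Agent.Lit.Edge
import Pool.Agent.Lit.Gen

/-!
# Cert: checking the certificates
-/

open Matrix
open scoped QuadraticAlgebra

namespace Lit

open SerreE SerreK

/-! ### explicit integer matrices -/

/-- a matrix `[[a, b], [c, d]]` over `ℤ[w]` as eight integers -/
structure Mz where
  a0 : ℤ
  a1 : ℤ
  b0 : ℤ
  b1 : ℤ
  c0 : ℤ
  c1 : ℤ
  d0 : ℤ
  d1 : ℤ
  deriving DecidableEq

/-- multiplication by a letter -/
def Mz.app (m : Mz) : ℕ → Mz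
  | 0 => ⟨m.a0, m.a1, m.b0 + m.a0, m.b1 + m.a1, m.c0, m.c1, m.d0 + m.c0, m.d1 + m.c1⟩
  | 1 => ⟨m.a0, m.a1, m.b0 - 3 * m.a1, m.b1 + m.a0 + m.a1, m.c0, m.c1, m.d0 - 3 * m.c1,
      m.d1 + m.c0 + m.c1⟩
  | 2 => ⟨-m.b0, -m.b1, m.a0, m.a1, -m.d0, -m.d1, m.c0, m.c1⟩
  | 3 => ⟨-m.a0, -m.a1, m.b0, m.b1, -m.c0, -m.c1, m.d0, m.d1⟩
  | 4 => ⟨m.a0, m.a1, m.b0 - m.a0, m.b1 - m.a1, m.c0, m.c1, m.d0 - m.c0, m.d1 - m.c1⟩
  | 5 => ⟨m.a0, m.a1, m.b0 + 3 * m.a1, m.b1 - m.a0 - m.a1, m.c0, m.c1, m.d0 + 3 * m.c1,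
      m.d1 - m.c0 - m.c1⟩
  | _ => m

/-- the matrix over `O` -/
def Mz.mat (m : Mz) : Matrix (Fin 2) (Fin 2) O :=
  !![⟨m.a0, m.a1⟩, ⟨m.b0, m.b1⟩; ⟨m.c0, m.c1⟩, ⟨m.d0, m.d1⟩]

/-- the identity -/
def Mz.one : Mz := ⟨1, 0, 0, 0, 0, 0, 1, 0⟩

theorem Mz.mat_one : Mz.one.mat = 1 := by
  ext i j <;> fin_cases i <;> fin_cases j <;> rfl

theorem Mz.mat_app (m : Mz) (l : ℕ) : (m.app l).mat = m.mat * (lt l).val := by
  match l with
  | 0 =>
    have h : (lt 0).val = !![1, 1; 0, 1] := rfl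
    rw [h]
    ext i j <;> fin_cases i <;> fin_cases j <;>
      simp [Mz.mat, Mz.app, Matrix.mul_apply, Fin.sum_univ_two, add_comm]
  | 1 =>
    have h : (lt 1).val = !![1, w; 0, 1] := rfl
    rw [h]
    ext i j <;> fin_cases i <;> fin_cases j <;>
      simp [Mz.mat, Mz.app, w, Matrix.mul_apply, Fin.sum_univ_two] <;> ring
  | 2 =>
    have h : (lt 2).val = !![0, 1; -1, 0] := rfl
    rw [h]
    ext i j <;> fin_cases i <;> fin_cases j <;>
      simp [Mz.mat, Mz.app, Matrix.mul_apply, Fin.sum_univ_two]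
  | 3 =>
    have h : (lt 3).val = !![-1, 0; 0, 1] := rfl
    rw [h]
    ext i j <;> fin_cases i <;> fin_cases j <;>
      simp [Mz.mat, Mz.app, Matrix.mul_apply, Fin.sum_univ_two]
  | 4 =>
    have h : (lt 4).val = !![(↑(1 : Oˣ)⁻¹ : O) * 1, -((↑(1 : Oˣ)⁻¹ : O) * 1);
      -((↑(1 : Oˣ)⁻¹ : O) * 0), (↑(1 : Oˣ)⁻¹ : O) * 1] := rfl
    rw [h]
    ext i j <;> fin_cases i <;> fin_cases j <;>
      simp [Mz.mat, Mz.app, Matrix.mul_apply, Fin.sum_univ_two] <;> ring
  | 5 =>
    have h : (lt 5).val = !![(↑(1 : Oˣ)⁻¹ : O) * 1, -((↑(1 : Oˣ)⁻¹ : O) * w);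
      -((↑(1 : Oˣ)⁻¹ : O) * 0), (↑(1 : Oˣ)⁻¹ : O) * 1] := rfl
    rw [h]
    ext i j <;> fin_cases i <;> fin_cases j <;>
      simp [Mz.mat, Mz.app, w, Matrix.mul_apply, Fin.sum_univ_two] <;> ring
  | (n + 6) =>
    have h : (lt (n + 6)).val = 1 := rfl
    rw [h, mul_one]
    rfl

theorem Mz.mat_foldl (W : List ℕ) (m : Mz) : (W.foldl Mz.app m).mat = m.mat * (evW W).val := by
  induction W generalizing m with
  | nil => simp [evW]
  | cons l W ih =>
    rw [List.foldl_cons, ih, Mz.mat_app, evW_cons, Units.val_mul, Matrix.mul_assoc]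

/-- the explicit value of a word -/
def Mz.ev (W : List ℕ) : Mz := W.foldl Mz.app Mz.one

theorem Mz.ev_mat (W : List ℕ) : (evW W).val = (Mz.ev W).mat := by
  unfold Mz.ev
  rw [Mz.mat_foldl, Mz.mat_one, Matrix.one_mul]

/-! ### the relations -/

/-- the word number `i`, repeated `c` times -/
def bw (i c : ℕ) : List ℕ := (List.replicate c (BW.getD i [])).flatten

theorem evW_flatten (c : ℕ) (W : List ℕ) : evW (List.replicate c W).flatten = evW W ^ c := by
  induction c with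
  | zero => simp [evW]
  | succ c ih =>
    rw [List.replicate_succ, List.flatten_cons, evW_append, ih, pow_succ']

theorem bw_order : ∀ i < 16, Mz.ev (bw i 12) = Mz.one := by decide +kernel

theorem bw_letters : ∀ i < 16, ∀ l ∈ BW.getD i [], l < 6 := by decide +kernel

theorem bw_letters' (i c : ℕ) (hi : i < 16) : ∀ l ∈ bw i c, l < 6 := by
  intro l hl
  unfold bw at hl
  rw [List.mem_flatten] at hl
  obtain ⟨L, hL, hlL⟩ := hl
  rw [List.mem_replicate] at hL
  rw [hL.2] at hlL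
  exact bw_letters i hi l hlL

theorem bw_fin (i c : ℕ) (hi : i < 16) : IsOfFinOrder (evW (bw i c)) := by
  have h1 : evW (BW.getD i []) ^ 12 = 1 := by
    rw [← evW_flatten]
    apply Units.ext
    have := Mz.ev_mat (bw i 12)
    rw [bw_order i hi, Mz.mat_one] at this
    exact this
  have h2 : IsOfFinOrder (evW (BW.getD i [])) := isOfFinOrder_iff_pow_eq_one.2 ⟨12, by norm_num, h1⟩
  unfold bw
  rw [evW_flatten]
  exact h2.pow

/-- the mask of a relation -/
def mk (q : ℕ × ℕ × ℕ) : ℕ := (pm (bw q.1 q.2.1) q.2.2 0).2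

/-- the relation is a closed path -/
def okEq (q : ℕ × ℕ × ℕ) : Bool :=
  decide (q.1 < 16) && decide (q.2.2 < 90) && decide ((pm (bw q.1 q.2.1) q.2.2 0).1 = q.2.2)

/-- the sum of the masks -/
def xm : List (ℕ × ℕ × ℕ) → ℕ
  | [] => 0
  | q :: L => mk q ^^^ xm L

/-- `2^360 - 1` -/
def full : ℕ := 2 ^ 360 - 1

/-- the mask of the tree -/
def treeM : ℕ := treeL.foldl (fun m e => m ^^^ (pm [e.2] e.1 0).2) 0

/-- check of the steps -/
def run : List (List (ℕ × ℕ × ℕ) × ℕ) → ℕ → Bool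
  | [], k => k == full
  | (L, j) :: r, k => L.all okEq && (xm L).testBit j && decide (j < 360) &&
      ((xm L ||| k) == (k ||| (1 <<< j))) && run r (k ||| (1 <<< j))

theorem run_ok : run stepL (treeM ||| (1 <<< 244) ||| (1 <<< 253)) = true := by decide +kernel

/-! ### soundness -/

section sound

variable (E : ℕ → FF)

theorem evm_of_zero (m : ℕ) (h : ∀ i < 360, m.testBit i = true → E i = 0) : evm E m = 0 := by
  unfold evm
  apply Finset.sum_eq_zero
  intro i hi
  rw [Finset.mem_range] at hi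
  by_cases hb : m.testBit i = true
  · rw [if_pos hb, h i hi hb]
  · rw [if_neg hb]

theorem evm_single (m j : ℕ) (hj : j < 360) (hm : m.testBit j = true)
    (h : ∀ i < 360, i ≠ j → m.testBit i = true → E i = 0) : evm E m = E j := by
  unfold evm
  rw [Finset.sum_eq_single j]
  · rw [if_pos hm]
  · intro i hi hij
    rw [Finset.mem_range] at hi
    by_cases hb : m.testBit i = true
    · rw [if_pos hb, h i hi hij hb]
    · rw [if_neg hb]
  · intro h'
    exact (h' (Finset.mem_range.2 hj)).elim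

theorem xm_zero (hE : ∀ q, okEq q = true → evm E (mk q) = 0) (L : List (ℕ × ℕ × ℕ))
    (hL : L.all okEq = true) : evm E (xm L) = 0 := by
  induction L with
  | nil => exact evm_zero E
  | cons q L ih =>
    rw [List.all_cons, Bool.and_eq_true] at hL
    change evm E (mk q ^^^ xm L) = 0
    rw [evm_xor, hE q hL.1, ih hL.2, add_zero]

theorem shift_testBit (j i : ℕ) : (1 <<< j).testBit i = decide (i = j) := by
  rw [Nat.one_shiftLeft, Nat.testBit_two_pow]
  exact decide_eq_decide.2 eq_comm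

theorem run_sound (hE : ∀ q, okEq q = true → evm E (mk q) = 0)
    (S : List (List (ℕ × ℕ × ℕ) × ℕ)) (k : ℕ) (hr : run S k = true)
    (hk : ∀ i < 360, k.testBit i = true → E i = 0) : ∀ i < 360, E i = 0 := by
  induction S generalizing k with
  | nil =>
    have h1 : k = full := by simpa [run] using hr
    intro i hi
    apply hk i hi
    rw [h1]
    unfold full
    rw [Nat.testBit_two_pow_sub_one]
    exact decide_eq_true hi
  | cons a S ih =>
    obtain ⟨L, j⟩ := a
    simp only [run, Bool.and_eq_true, decide_eq_true_eq, beq_iff_eq] at hr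
    obtain ⟨⟨⟨⟨h1, h2⟩, h3⟩, h4⟩, h5⟩ := hr
    apply ih _ h5
    have hb : ∀ i, i ≠ j → (xm L).testBit i = true → k.testBit i = true := by
      intro i hij hi
      have := congrArg (fun n => n.testBit i) h4
      simp only [Nat.testBit_or, hi, shift_testBit, hij, decide_false, Bool.or_false,
        Bool.true_or] at this
      exact this.symm
    have hj : E j = 0 := by
      rw [← evm_single E (xm L) j h3 h2 (fun i hi hij hm => hk i hi (hb i hij hm))]
      exact xm_zero E hE L h1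
    intro i hi hki
    rw [Nat.testBit_or, shift_testBit, Bool.or_eq_true, decide_eq_true_eq] at hki
    rcases hki with h | h
    · exact hk i hi h
    · rw [h]; exact hj

end sound

/-- the properties of the function `E` of a class -/
structure Edg (x : HY N) (E : ℕ → FF) : Prop where
  rel : ∀ q, okEq q = true → evm E (mk q) = 0
  tree : ∀ i < 360, treeM.testBit i = true → E i = 0
  val : ∀ (W : List ℕ), (∀ l ∈ W, l < 6) → (pm W 0 0).1 = 0 → ∀ γ : G N, γ.val = evW W →
      x.val γ = evm E (pm W 0 0).2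

theorem tree_bits : ∀ i < 360, treeM.testBit i = true →
    ∃ e ∈ treeL, (pm [e.2] e.1 0).2 = 1 <<< i := by decide +kernel

theorem exists_edg (x : HY N) : ∃ E, Edg x E := by
  obtain ⟨E, h1, h2, h3⟩ := edges x
  refine ⟨E, ⟨fun q hq => ?_, fun i hi hb => ?_, h3⟩⟩
  · unfold okEq at hq
    simp only [Bool.and_eq_true, decide_eq_true_eq] at hq
    obtain ⟨⟨ha, hb⟩, hc⟩ := hq
    exact h1 _ _ (bw_letters' _ _ ha) hb hc (bw_fin _ _ ha)
  · obtain ⟨e, he, hm⟩ := tree_bits i hi hb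
    have := h2 e he
    rw [hm, evm_bit E i hi] at this
    exact this

theorem edg_zero {x : HY N} {E : ℕ → FF} (h : Edg x E) (ha : E 244 = 0) (hb : E 253 = 0) :
    ∀ i < 360, E i = 0 := by
  apply run_sound E h.rel stepL _ run_ok
  intro i hi hm
  rw [Nat.testBit_or, Nat.testBit_or, shift_testBit, shift_testBit, Bool.or_eq_true,
    Bool.or_eq_true, decide_eq_true_eq, decide_eq_true_eq] at hm
  rcases hm with (hm | hm) | hm
  · exact h.tree i hi hm
  · rw [hm]; exact ha
  · rw [hm]; exact hb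

theorem class_zero {x : HY N} {E : ℕ → FF} (h : Edg x E) (ha : E 244 = 0) (hb : E 253 = 0)
    (γ : G N) : x.val γ = 0 := by
  obtain ⟨W, hW, hv⟩ := gen_top γ.val
  rw [h.val W hW (edges_closed γ W hW hv) γ hv.symm]
  exact evm_of_zero E _ (fun i hi _ => edg_zero h ha hb i hi)

/-- check of the value of a word: `(word, p, q, certificate)` -/
def okVal (W : List ℕ) (p q : ℕ) (L : List (ℕ × ℕ × ℕ)) : Bool :=
  W.all (fun l => decide (l < 6)) && decide ((pm W 0 0).1 = 0) && L.all okEq &&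
    (((pm W 0 0).2 ^^^ xm L) &&& (full ^^^ treeM) == (p <<< 244) ^^^ (q <<< 253)) &&
    decide (p < 2) && decide (q < 2)

theorem evm_pq (E : ℕ → FF) (p q : ℕ) (hp : p < 2) (hq : q < 2) :
    evm E ((p <<< 244) ^^^ (q <<< 253)) = (p : FF) * E 244 + (q : FF) * E 253 := by
  rw [evm_xor]
  congr 1
  · interval_cases p
    · simp [evm_zero]
    · rw [evm_bit E 244 (by norm_num)]; simp
  · interval_cases q
    · simp [evm_zero]
    · rw [evm_bit E 253 (by norm_num)]; simp

theorem val_of_ok {x : HY N} {E : ℕ → FF} (h : Edg x E) (W : List ℕ) (p q : ℕ)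
    (L : List (ℕ × ℕ × ℕ)) (hok : okVal W p q L = true) (γ : G N) (hγ : γ.val = evW W) :
    x.val γ = (p : FF) * E 244 + (q : FF) * E 253 := by
  unfold okVal at hok
  simp only [Bool.and_eq_true, decide_eq_true_eq, beq_iff_eq] at hok
  obtain ⟨⟨⟨⟨⟨h1, h2⟩, h3⟩, h4⟩, h5⟩, h6⟩ := hok
  have hW : ∀ l ∈ W, l < 6 := fun l hl => of_decide_eq_true (List.all_eq_true.1 h1 l hl)
  rw [h.val W hW h2 γ hγ, ← evm_pq E p q h5 h6, ← h4]
  set m := (pm W 0 0).2 with hm
  have e1 : evm E (m ^^^ xm L) = evm E m := by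
    rw [evm_xor, xm_zero E h.rel L h3, add_zero]
  rw [← e1]
  set r := m ^^^ xm L with hr
  -- split into the tree part and the rest
  unfold evm
  apply Finset.sum_congr rfl
  intro i hi
  rw [Finset.mem_range] at hi
  have hf : full.testBit i = true := by
    unfold full
    rw [Nat.testBit_two_pow_sub_one]
    exact decide_eq_true hi
  rw [Nat.testBit_and, show (full ^^^ treeM).testBit i = (full.testBit i ^^ treeM.testBit i) from
    Nat.testBit_xor _ _ _, hf]
  by_cases ht : treeM.testBit i = true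
  · rw [ht, h.tree i hi ht]
    simp
  · rw [Bool.not_eq_true] at ht
    rw [ht]
    simp

theorem ok_Wa : okVal Wa 1 0 cWa = true := by decide +kernel
theorem ok_Wb : okVal Wb 0 1 cWb = true := by decide +kernel
theorem ok_hka : ∀ a ∈ hka, okVal a.2.1 a.2.2.1 a.2.2.2.1 a.2.2.2.2 = true := by decide +kernel
theorem ok_hkb : ∀ a ∈ hkb, okVal a.2.1 a.2.2.1 a.2.2.2.1 a.2.2.2.2 = true := by decide +kernel

end Lit
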