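import Pool.Agent.Lit.Words

/-!
# CertD: certificates (data)
-/

namespace Lit

/-- the relations and the words of finite order -/
def BW : List (List ℕ) := [
  [2, 2],
  [2, 0, 2, 0, 2, 0],
  [0, 1, 4, 5],
  [2, 0, 5, 2, 1, 2, 0, 5, 2, 1, 2, 0, 5, 2, 1],
  [3, 2, 3, 2],
  [3, 0, 3, 0],
  [3, 1, 3, 1],
  [3, 3],
  [2],
  [3],
  [3, 0],
  [3, 1],
  [3, 0, 1],
  [3, 2],
  [2, 0],
  [2, 0, 5, 2, 1]]

/-- each step: a list of relations (word, repetition, starting point) whose sum involves exactly one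
new edge -/
def stepL : List (List (ℕ × ℕ × ℕ) × ℕ) := [
  ([(0, 1, 0)], 269),
  ([(0, 1, 2)], 182),
  ([(0, 1, 3)], 183),
  ([(0, 1, 5)], 251),
  ([(0, 1, 7)], 218),
  ([(0, 1, 12)], 217),
  ([(0, 1, 14)], 199),
  ([(0, 1, 17)], 197),
  ([(0, 1, 18)], 198),
  ([(0, 1, 21)], 252),
  ([(0, 1, 28)], 234),
  ([(0, 1, 30)], 266),
  ([(0, 1, 35)], 215),
  ([(0, 1, 36)], 216),
  ([(0, 1, 45)], 267),
  ([(0, 1, 47)], 233),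
  ([(0, 1, 51)], 231),
  ([(0, 1, 52)], 232),
  ([(0, 1, 70)], 250),
  ([(2, 1, 1)], 61),
  ([(2, 1, 8)], 8),
  ([(2, 1, 27)], 27),
  ([(2, 1, 28)], 28),
  ([(2, 1, 44)], 7),
  ([(2, 1, 45)], 34),
  ([(2, 1, 47)], 47),
  ([(2, 1, 52)], 63),
  ([(2, 1, 55)], 55),
  ([(2, 1, 59)], 73),
  ([(2, 1, 60)], 9),
  ([(2, 1, 65)], 65),
  ([(2, 1, 68)], 68),
  ([(2, 1, 75)], 75),
  ([(2, 1, 77)], 77),
  ([(2, 1, 82)], 82),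
  ([(2, 1, 84)], 84),
  ([(2, 1, 88)], 12),
  ([(2, 1, 89)], 42),
  ([(8, 1, 34)], 214),
  ([(8, 1, 55)], 235),
  ([(9, 1, 0)], 270),
  ([(9, 1, 89)], 359),
  ([(10, 1, 0)], 0),
  ([(10, 2, 1)], 271),
  ([(11, 1, 0)], 90),
  ([(11, 2, 1)], 282),
  ([(11, 2, 42)], 312),
  ([(12, 2, 12)], 315),
  ([(12, 2, 61)], 331),
  ([(13, 1, 1)], 268),
  ([(13, 2, 2)], 272),
  ([(13, 2, 12)], 322),
  ([(13, 2, 42)], 323),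
  ([(13, 2, 54)], 324),
  ([(14, 3, 0)], 181),
  ([(14, 3, 2)], 87),
  ([(14, 3, 13)], 193),
  ([(14, 3, 28)], 236),
  ([(14, 3, 29)], 209),
  ([(14, 3, 34)], 242),
  ([(14, 3, 36)], 223),
  ([(14, 3, 48)], 228),
  ([(0, 1, 13)], 221),
  ([(0, 1, 27)], 207),
  ([(0, 1, 29)], 226),
  ([(0, 1, 33)], 213),
  ([(0, 1, 43)], 240),
  ([(0, 1, 48)], 256),
  ([(2, 1, 7)], 6),
  ([(2, 1, 12)], 39),
  ([(2, 1, 39)], 40),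
  ([(2, 1, 42)], 21),
  ([(2, 1, 50)], 50),
  ([(2, 1, 87)], 78),
  ([(5, 1, 12)], 352),
  ([(5, 1, 13)], 283),
  ([(5, 1, 42)], 347),
  ([(5, 1, 43)], 313),
  ([(5, 1, 45)], 358),
  ([(5, 1, 47)], 317),
  ([(6, 1, 6)], 276),
  ([(6, 1, 7)], 277),
  ([(6, 1, 21)], 291),
  ([(6, 1, 39)], 309),
  ([(6, 1, 53)], 351),
  ([(7, 1, 2)], 357),
  ([(7, 1, 6)], 353),
  ([(7, 1, 8)], 278),
  ([(7, 1, 13)], 346),
  ([(7, 1, 21)], 338),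
  ([(7, 1, 28)], 298),
  ([(7, 1, 35)], 305),
  ([(7, 1, 36)], 306),
  ([(7, 1, 37)], 307),
  ([(7, 1, 39)], 320),
  ([(7, 1, 43)], 316),
  ([(7, 1, 44)], 314),
  ([(10, 2, 5)], 275),
  ([(10, 2, 7)], 286),
  ([(10, 2, 20)], 290),
  ([(10, 2, 28)], 304),
  ([(10, 2, 29)], 299),
  ([(10, 2, 30)], 300),
  ([(10, 2, 35)], 326),
  ([(10, 2, 37)], 318),
  ([(10, 2, 80)], 350),
  ([(11, 2, 9)], 279),
  ([(11, 2, 10)], 280),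
  ([(11, 2, 14)], 284),
  ([(11, 2, 15)], 285),
  ([(11, 2, 30)], 343),
  ([(11, 2, 35)], 327),
  ([(11, 2, 37)], 333),
  ([(11, 2, 40)], 310),
  ([(12, 2, 44)], 332),
  ([(13, 2, 3)], 273),
  ([(13, 2, 5)], 288),
  ([(13, 2, 7)], 321),
  ([(13, 2, 14)], 340),
  ([(13, 2, 17)], 287),
  ([(13, 2, 34)], 325),
  ([(13, 2, 38)], 308),
  ([(13, 2, 41)], 311),
  ([(13, 2, 46)], 330),
  ([(13, 2, 68)], 342),
  ([(5, 1, 14)], 319),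
  ([(5, 1, 72)], 355),
  ([(6, 1, 17)], 334),
  ([(6, 1, 59)], 329),
  ([(7, 1, 3)], 356),
  ([(7, 1, 4)], 274),
  ([(7, 1, 5)], 354),
  ([(7, 1, 10)], 349),
  ([(7, 1, 14)], 345),
  ([(7, 1, 15)], 344),
  ([(7, 1, 18)], 341),
  ([(7, 1, 19)], 289),
  ([(7, 1, 20)], 339),
  ([(7, 1, 25)], 295),
  ([(7, 1, 26)], 296),
  ([(7, 1, 27)], 297),
  ([(7, 1, 32)], 302),
  ([(7, 1, 33)], 303),
  ([(10, 2, 59)], 337),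
  ([(11, 1, 84)], 95),
  ([(12, 1, 33)], 56),
  ([(12, 2, 68)], 5),
  ([(2, 1, 21)], 14),
  ([(2, 1, 56)], 146),
  ([(2, 1, 61)], 124),
  ([(5, 1, 33)], 335),
  ([(6, 1, 24)], 294),
  ([(6, 1, 55)], 104),
  ([(7, 1, 22)], 292),
  ([(10, 2, 24)], 57),
  ([(12, 2, 49)], 152),
  ([(2, 1, 40)], 130),
  ([(0, 1, 25), (0, 1, 39), (0, 1, 49), (0, 1, 78), (1, 1, 7), (1, 1, 21), (1, 1, 49), (2, 1, 37),
    (2, 1, 41), (3, 1, 7), (3, 1, 35), (3, 1, 40), (4, 1, 25), (5, 1, 8), (5, 1, 17), (6, 1, 52)],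
    163),
  ([(0, 1, 26), (0, 1, 49), (0, 1, 57), (0, 1, 67), (1, 1, 21), (1, 1, 24), (1, 1, 27), (1, 1,
    30), (1, 1, 31), (1, 1, 49), (2, 1, 22), (2, 1, 31), (2, 1, 46), (2, 1, 66), (2, 1, 72), (2,
    1, 86), (3, 1, 14), (4, 1, 20), (4, 1, 63), (5, 1, 18), (5, 1, 41), (12, 2, 18)], 29),
  ([(0, 1, 10), (0, 1, 26), (0, 1, 57), (1, 1, 10), (1, 1, 27), (2, 1, 6), (2, 1, 24), (2, 1, 46),
    (2, 1, 72), (2, 1, 78), (3, 1, 26), (4, 1, 9), (5, 1, 51), (6, 1, 56), (6, 1, 72), (12, 2,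
    32), (12, 2, 36)], 263),
  ([(0, 1, 15), (0, 1, 26), (0, 1, 31), (0, 1, 49), (0, 1, 57), (0, 1, 67), (0, 1, 78), (1, 1, 5),
    (1, 1, 15), (1, 1, 26), (1, 1, 27), (1, 1, 30), (1, 1, 31), (1, 1, 49), (1, 1, 52), (2, 1,
    22), (2, 1, 25), (2, 1, 29), (2, 1, 37), (2, 1, 46), (2, 1, 66), (2, 1, 73), (2, 1, 76), (2,
    1, 86), (3, 1, 7), (3, 1, 40), (4, 1, 4), (4, 1, 6), (4, 1, 20), (4, 1, 25), (5, 1, 6), (5, 1,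
    8), (12, 2, 18), (12, 2, 36)], 64),
  ([(0, 1, 15), (0, 1, 49), (0, 1, 78), (1, 1, 5), (1, 1, 15), (1, 1, 49), (1, 1, 52), (2, 1, 22),
    (2, 1, 29), (2, 1, 37), (2, 1, 73), (2, 1, 76), (3, 1, 7), (3, 1, 40), (4, 1, 6), (4, 1, 20),
    (5, 1, 6), (5, 1, 8), (12, 2, 18), (12, 2, 36)], 202),
  ([(0, 1, 10), (0, 1, 15), (0, 1, 39), (1, 1, 7), (1, 1, 10), (1, 1, 15), (2, 1, 18), (2, 1, 73),
    (2, 1, 80), (3, 1, 7), (4, 1, 6), (4, 1, 9), (5, 1, 6), (6, 1, 74)], 108),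
  ([(0, 1, 15), (1, 1, 15), (2, 1, 73), (2, 1, 76), (5, 1, 6)], 166),
  ([(0, 1, 8), (1, 1, 8), (2, 1, 24), (2, 1, 26), (2, 1, 31), (2, 1, 35), (2, 1, 46), (2, 1, 78),
    (2, 1, 80), (2, 1, 86), (3, 1, 30), (4, 1, 16), (6, 1, 2), (6, 1, 8), (6, 1, 11), (6, 1, 38),
    (6, 1, 56), (7, 1, 11), (12, 2, 32)], 121),
  ([(0, 1, 31), (0, 1, 67), (1, 1, 24), (1, 1, 26), (1, 1, 49), (2, 1, 25), (2, 1, 31), (3, 1,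
    14), (3, 1, 17), (4, 1, 63), (5, 1, 18), (5, 1, 41), (6, 1, 20), (12, 2, 18)], 85),
  ([(0, 1, 31), (0, 1, 49), (1, 1, 5), (1, 1, 24), (1, 1, 26), (1, 1, 49), (2, 1, 25), (2, 1, 31),
    (3, 1, 14), (4, 1, 4), (4, 1, 25), (4, 1, 63), (5, 1, 18), (5, 1, 41)], 249),
  ([(0, 1, 31), (0, 1, 67), (1, 1, 5), (1, 1, 24), (1, 1, 26), (1, 1, 31), (2, 1, 23), (2, 1, 25),
    (2, 1, 31), (2, 1, 64), (2, 1, 66), (4, 1, 4), (4, 1, 25), (4, 1, 63)], 238),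
  ([(0, 1, 31), (0, 1, 67), (1, 1, 26), (1, 1, 31), (2, 1, 25), (2, 1, 31), (2, 1, 66), (4, 1, 4),
    (4, 1, 25)], 206),
  ([(0, 1, 10), (0, 1, 39), (0, 1, 78), (1, 1, 7), (1, 1, 10), (1, 1, 52), (2, 1, 29), (2, 1, 37),
    (2, 1, 80), (4, 1, 6), (4, 1, 9), (5, 1, 8), (12, 2, 36)], 127),
  ([(0, 1, 10), (0, 1, 78), (1, 1, 10), (1, 1, 30), (1, 1, 52), (2, 1, 24), (2, 1, 26), (2, 1,
    31), (2, 1, 46), (2, 1, 78), (2, 1, 86), (4, 1, 9), (5, 1, 8), (6, 1, 8), (6, 1, 56), (12, 2,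
    32), (12, 2, 38)], 133),
  ([(1, 1, 30), (2, 1, 24), (2, 1, 26), (2, 1, 31), (2, 1, 37), (2, 1, 46), (2, 1, 78), (2, 1,
    80), (2, 1, 86), (6, 1, 8), (6, 1, 56), (12, 2, 32)], 168),
  ([(0, 1, 39), (2, 1, 72), (2, 1, 78), (3, 1, 21), (6, 1, 56)], 259),
  ([(2, 1, 24), (2, 1, 78), (2, 1, 80), (6, 1, 56), (12, 2, 32)], 171),
  ([(1, 1, 30), (2, 1, 31), (2, 1, 86)], 136),
  ([(0, 1, 39), (1, 1, 7), (4, 1, 6)], 38),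
  ([(0, 1, 31), (0, 1, 67), (1, 1, 31), (4, 1, 4)], 246),
  ([(1, 1, 5), (2, 1, 23), (2, 1, 64)], 23),
  ([(1, 1, 5), (12, 2, 18)], 112),
  ([(2, 1, 6), (2, 1, 70), (2, 1, 72), (2, 1, 73)], 160),
  ([(0, 1, 8), (1, 1, 8), (2, 1, 35), (2, 1, 37)], 191),
  ([(2, 1, 18), (2, 1, 76)], 105),
  ([(0, 1, 49), (1, 1, 49), (2, 1, 48)], 58),
  ([(0, 1, 49), (1, 1, 49), (5, 1, 41)], 19),
  ([(12, 2, 38)], 51),
  ([(0, 1, 10), (1, 1, 10), (2, 1, 80), (4, 1, 9)], 261),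
  ([(5, 1, 23), (6, 1, 66), (7, 1, 23)], 3),
  ([(6, 1, 3), (6, 1, 41), (7, 1, 31)], 148),
  ([(6, 1, 11), (7, 1, 11)], 348),
  ([(2, 1, 78), (6, 1, 56)], 123),
  ([(6, 1, 52)], 103),
  ([(2, 1, 37)], 37),
  ([(2, 1, 64)], 154),
  ([(4, 1, 6)], 254),
  ([(1, 1, 5), (5, 1, 18)], 67),
  ([(2, 1, 6), (2, 1, 72)], 96),
  ([(1, 1, 30)], 86),
  ([(2, 1, 80), (5, 1, 9)], 10),
  ([(5, 1, 41)], 48),
  ([(0, 1, 10), (4, 1, 9)], 190),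
  ([(2, 1, 46)], 26),
  ([(0, 1, 16), (4, 1, 16)], 196),
  ([(0, 1, 25), (4, 1, 25)], 205),
  ([(0, 1, 67), (4, 1, 4)], 247),
  ([(2, 1, 25), (2, 1, 66)], 25),
  ([(2, 1, 73)], 70),
  ([(4, 1, 63)], 204),
  ([(2, 1, 22)], 20),
  ([(5, 1, 3)], 43),
  ([(6, 1, 74)], 93),
  ([(6, 1, 38)], 141),
  ([(5, 1, 18)], 71),
  ([(6, 1, 13)], 161),
  ([(2, 1, 9)], 99),
  ([(12, 2, 32)], 114),
  ([(2, 1, 35)], 11),
  ([(5, 1, 51)], 15),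
  ([(5, 1, 8)], 81),
  ([(6, 1, 8)], 147),
  ([(12, 2, 36)], 119),
  ([(2, 1, 38)], 128),
  ([(2, 1, 4)], 94),
  ([(2, 1, 80)], 80),
  ([(5, 1, 60)], 2),
  ([(5, 1, 23)], 293),
  ([(2, 1, 13)], 110),
  ([(2, 1, 72)], 72),
  ([(6, 1, 4)], 175),
  ([(0, 1, 31)], 211),
  ([(2, 1, 41)], 131),
  ([(6, 1, 16)], 109),
  ([(6, 1, 22)], 157),
  ([(6, 1, 2)], 101),
  ([(5, 1, 25)], 62),
  ([(6, 1, 20)], 159),
  ([(6, 1, 3)], 301),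
  ([(0, 1, 78)], 258),
  ([(4, 1, 9)], 260),
  ([(0, 1, 49)], 229),
  ([(4, 1, 25)], 212),
  ([(4, 1, 16)], 230),
  ([(6, 1, 66)], 336),
  ([(4, 1, 20)], 220),
  ([(2, 1, 78)], 100),
  ([(5, 1, 17)], 49),
  ([(2, 1, 31)], 31),
  ([(0, 1, 8)], 188),
  ([(6, 1, 72)], 107),
  ([(6, 1, 11)], 281),
  ([(0, 1, 39)], 219),
  ([(5, 1, 6)], 83),
  ([(0, 1, 9)], 189),
  ([(1, 1, 14)], 200),
  ([(5, 1, 69)], 16),
  ([(4, 1, 4)], 265),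
  ([(6, 1, 26)], 153),
  ([(0, 1, 6)], 186),
  ([(0, 1, 4)], 184),
  ([(2, 1, 66)], 156),
  ([(0, 1, 26)], 245),
  ([(5, 1, 57)], 32),
  ([(0, 1, 57)], 237),
  ([(0, 1, 23)], 203),
  ([(0, 1, 15)], 195),
  ([(2, 1, 76)], 18),
  ([(0, 1, 24)], 243),
  ([(2, 1, 33)], 79),
  ([(2, 1, 74)], 74),
  ([(6, 1, 41)], 328)]

/-- the word of the first test element -/
def Wa : List ℕ := [2, 1, 1, 2, 1, 2, 5, 2, 2, 2, 1, 0, 2, 2, 2]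

/-- the word of the second test element -/
def Wb : List ℕ := [2, 4, 4, 4, 1, 2, 5, 5, 0, 2, 2, 2]

/-- certificate: the value at `Wa` is the edge `244` -/
def cWa : List (ℕ × ℕ × ℕ) := []

/-- certificate: the value at `Wb` is the edge `253` -/
def cWb : List (ℕ × ℕ × ℕ) := []

/-- the elements in the formula for `T_w` at the test element `Wa`: `(y, word, p, q,
    certificate)` -/
def hka : List (ℕ × List ℕ × ℕ × ℕ × List (ℕ × ℕ × ℕ)) := [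
  (3, [2, 0, 0, 0, 1, 1, 1, 1, 1, 2, 0, 0, 0, 2, 4, 4, 1, 2, 4, 4, 1, 1, 2, 2, 2], 1, 1,
    [(0, 1, 15), (0, 1, 10), (1, 1, 10), (2, 1, 6), (2, 1, 24), (2, 1, 78), (3, 1, 26), (4, 1, 9),
    (5, 1, 51), (6, 1, 56), (6, 1, 72), (12, 2, 32), (12, 2, 36), (0, 1, 49), (0, 1, 67), (1, 1,
    21), (1, 1, 24), (1, 1, 30), (1, 1, 31), (1, 1, 49), (2, 1, 22), (2, 1, 31), (2, 1, 66), (2,
    1, 86), (3, 1, 14), (4, 1, 20), (4, 1, 63), (5, 1, 18), (5, 1, 41), (12, 2, 18), (12, 2, 49),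
    (7, 1, 22), (6, 1, 55), (5, 1, 33), (2, 1, 61), (12, 2, 68), (12, 1, 33), (11, 1, 84), (10, 2,
    59), (7, 1, 32), (7, 1, 15), (7, 1, 14), (7, 1, 10), (6, 1, 59), (13, 2, 68), (13, 2, 41),
    (13, 2, 14), (12, 2, 44), (11, 2, 37), (11, 2, 35), (11, 2, 15), (11, 2, 9), (10, 2, 80), (10,
    2, 35), (10, 2, 29), (7, 1, 44), (7, 1, 37), (7, 1, 36), (7, 1, 13), (7, 1, 6), (6, 1, 53),
    (6, 1, 6), (5, 1, 13), (5, 1, 12), (2, 1, 50), (2, 1, 42), (2, 1, 39), (2, 1, 7), (0, 1, 29),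
    (14, 3, 48), (14, 3, 13), (14, 3, 0), (13, 2, 42), (13, 2, 12), (12, 2, 12), (11, 2, 42), (11,
    2, 1), (10, 2, 1), (10, 1, 0), (9, 1, 0), (2, 1, 89), (2, 1, 88), (2, 1, 77), (2, 1, 75), (2,
    1, 65), (2, 1, 60), (2, 1, 52), (2, 1, 47), (2, 1, 45), (2, 1, 28), (2, 1, 27), (2, 1, 8), (2,
    1, 1), (0, 1, 70), (0, 1, 47), (0, 1, 45), (0, 1, 36), (0, 1, 30), (0, 1, 28), (0, 1, 21), (0,
    1, 17), (0, 1, 14), (0, 1, 0)]),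
  (0, [2, 4, 4, 4, 4, 4, 4, 4, 1, 1, 2, 0, 5, 2, 4, 5, 2], 1, 0,
    [(2, 1, 74), (2, 1, 33), (0, 1, 9), (2, 1, 38), (6, 1, 13), (5, 1, 18), (1, 1, 5), (2, 1, 78),
    (6, 1, 56), (0, 1, 39), (2, 1, 72), (3, 1, 21), (0, 1, 15), (1, 1, 15), (2, 1, 73), (2, 1,
    76), (5, 1, 6), (0, 1, 49), (1, 1, 49), (2, 1, 22), (4, 1, 20), (12, 2, 18), (12, 2, 36), (0,
    1, 26), (0, 1, 31), (0, 1, 57), (1, 1, 26), (1, 1, 27), (2, 1, 25), (2, 1, 46), (4, 1, 4), (4,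
    1, 25), (0, 1, 10), (1, 1, 10), (2, 1, 6), (2, 1, 24), (3, 1, 26), (4, 1, 9), (5, 1, 51), (6,
    1, 72), (12, 2, 32), (1, 1, 21), (1, 1, 24), (2, 1, 31), (3, 1, 14), (4, 1, 63), (5, 1, 41),
    (2, 1, 40), (12, 2, 49), (7, 1, 22), (5, 1, 33), (2, 1, 21), (11, 1, 84), (7, 1, 33), (7, 1,
    32), (7, 1, 25), (7, 1, 19), (7, 1, 15), (7, 1, 10), (7, 1, 5), (7, 1, 4), (6, 1, 17), (5, 1,
    72), (13, 2, 41), (13, 2, 34), (13, 2, 17), (13, 2, 5), (11, 2, 37), (11, 2, 15), (11, 2, 9),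
    (10, 2, 80), (10, 2, 29), (10, 2, 28), (7, 1, 37), (7, 1, 36), (7, 1, 28), (7, 1, 13), (7, 1,
    6), (6, 1, 53), (6, 1, 21), (5, 1, 47), (2, 1, 12), (2, 1, 7), (0, 1, 27), (14, 3, 48), (14,
    3, 34), (14, 3, 29), (14, 3, 28), (14, 3, 13), (13, 2, 12), (11, 2, 1), (10, 2, 1), (9, 1,
    89), (2, 1, 59), (2, 1, 52), (2, 1, 47), (2, 1, 44), (2, 1, 28), (2, 1, 8), (0, 1, 47), (0, 1,
    36), (0, 1, 21), (0, 1, 14), (0, 1, 5), (0, 1, 0)]),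
  (2, [4, 1, 2, 5, 2, 0, 0, 1, 2, 0, 5, 2, 4, 1, 2, 4, 4, 5, 2, 4, 1, 2, 5, 2, 2, 2], 1, 1,
    [(2, 1, 74), (6, 1, 16), (6, 1, 13), (0, 1, 16), (4, 1, 16), (0, 1, 10), (1, 1, 10), (2, 1,
    80), (4, 1, 9), (0, 1, 49), (1, 1, 49), (0, 1, 31), (1, 1, 5), (1, 1, 24), (1, 1, 26), (2, 1,
    25), (2, 1, 31), (3, 1, 14), (4, 1, 4), (4, 1, 63), (5, 1, 18), (0, 1, 25), (0, 1, 39), (1, 1,
    7), (1, 1, 21), (2, 1, 41), (3, 1, 7), (3, 1, 35), (3, 1, 40), (5, 1, 17), (10, 2, 24), (7, 1,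
    22), (6, 1, 24), (5, 1, 33), (2, 1, 56), (11, 1, 84), (7, 1, 32), (7, 1, 5), (7, 1, 4), (5, 1,
    72), (13, 2, 68), (13, 2, 17), (13, 2, 14), (11, 2, 40), (11, 2, 37), (11, 2, 35), (11, 2,
    14), (11, 2, 10), (11, 2, 9), (10, 2, 29), (10, 2, 5), (7, 1, 39), (7, 1, 37), (7, 1, 36), (7,
    1, 35), (7, 1, 21), (7, 1, 2), (5, 1, 13), (0, 1, 48), (14, 3, 48), (13, 2, 54), (13, 2, 12),
    (13, 2, 2), (12, 2, 61), (12, 2, 12), (11, 1, 0), (10, 1, 0), (9, 1, 89), (2, 1, 77), (2, 1,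
    75), (2, 1, 60), (2, 1, 59), (2, 1, 52), (2, 1, 47), (2, 1, 28), (2, 1, 1), (0, 1, 70), (0, 1,
    47), (0, 1, 45), (0, 1, 36), (0, 1, 21), (0, 1, 17), (0, 1, 14), (0, 1, 12), (0, 1, 3), (0, 1,
    2)]),
  (1, [2, 1, 2, 0, 0, 2, 4, 5, 2, 1, 2, 4, 4, 5, 5, 5, 5, 5, 5, 2], 1, 0,
    [(0, 1, 6), (1, 1, 14), (2, 1, 6), (4, 1, 6), (0, 1, 49), (1, 1, 49), (0, 1, 31), (1, 1, 5),
    (1, 1, 24), (1, 1, 26), (2, 1, 25), (2, 1, 31), (3, 1, 14), (4, 1, 4), (4, 1, 63), (5, 1, 18),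
    (0, 1, 15), (1, 1, 15), (2, 1, 73), (2, 1, 76), (5, 1, 6), (0, 1, 25), (0, 1, 39), (0, 1, 78),
    (1, 1, 7), (1, 1, 21), (2, 1, 37), (2, 1, 41), (3, 1, 7), (3, 1, 35), (3, 1, 40), (5, 1, 8),
    (5, 1, 17), (6, 1, 52), (10, 2, 24), (7, 1, 22), (6, 1, 55), (6, 1, 24), (5, 1, 33), (2, 1,
    61), (2, 1, 56), (2, 1, 21), (12, 2, 68), (7, 1, 32), (7, 1, 19), (7, 1, 14), (7, 1, 5), (7,
    1, 4), (5, 1, 72), (13, 2, 68), (13, 2, 34), (13, 2, 17), (13, 2, 14), (13, 2, 5), (11, 2,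
    40), (11, 2, 37), (11, 2, 35), (11, 2, 15), (10, 2, 28), (7, 1, 39), (7, 1, 37), (7, 1, 36),
    (7, 1, 35), (7, 1, 28), (7, 1, 13), (7, 1, 8), (6, 1, 53), (6, 1, 39), (6, 1, 21), (5, 1, 47),
    (5, 1, 42), (5, 1, 13), (2, 1, 87), (2, 1, 42), (2, 1, 39), (2, 1, 12), (2, 1, 7), (0, 1, 48),
    (0, 1, 13), (14, 3, 48), (14, 3, 2), (13, 2, 54), (13, 2, 42), (13, 2, 12), (13, 1, 1), (12,
    2, 61), (11, 2, 1), (9, 1, 89), (8, 1, 55), (8, 1, 34), (2, 1, 88), (2, 1, 75), (2, 1, 68),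
    (2, 1, 55), (2, 1, 52), (2, 1, 47), (2, 1, 1), (0, 1, 70), (0, 1, 47), (0, 1, 21), (0, 1, 17),
    (0, 1, 12), (0, 1, 5), (0, 1, 3), (0, 1, 0)])]

/-- the elements in the formula for `T_w` at the test element `Wb`: `(y, word, p, q,
    certificate)` -/
def hkb : List (ℕ × List ℕ × ℕ × ℕ × List (ℕ × ℕ × ℕ)) := [
  (3, [2, 0, 0, 0, 1, 1, 1, 1, 1, 2, 0, 1, 2, 0, 0, 0, 0, 0, 0, 5, 2], 0, 1,
    [(2, 1, 22), (12, 2, 18), (0, 1, 49), (1, 1, 49), (1, 1, 52), (2, 1, 29), (4, 1, 6), (0, 1,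
    10), (1, 1, 10), (2, 1, 6), (2, 1, 24), (2, 1, 78), (3, 1, 26), (4, 1, 9), (5, 1, 51), (6, 1,
    56), (6, 1, 72), (12, 2, 32), (0, 1, 67), (1, 1, 24), (1, 1, 30), (1, 1, 31), (2, 1, 31), (2,
    1, 66), (2, 1, 86), (3, 1, 14), (4, 1, 63), (5, 1, 18), (5, 1, 41), (0, 1, 25), (0, 1, 39),
    (1, 1, 7), (2, 1, 41), (3, 1, 35), (4, 1, 25), (5, 1, 17), (6, 1, 52), (12, 2, 49), (7, 1,
    22), (6, 1, 55), (5, 1, 33), (2, 1, 61), (12, 2, 68), (12, 1, 33), (11, 1, 84), (10, 2, 59),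
    (7, 1, 32), (7, 1, 25), (7, 1, 15), (7, 1, 14), (7, 1, 10), (6, 1, 59), (6, 1, 17), (5, 1,
    14), (13, 2, 68), (13, 2, 41), (13, 2, 14), (13, 2, 7), (12, 2, 44), (11, 2, 40), (11, 2, 37),
    (11, 2, 14), (11, 2, 9), (10, 2, 80), (10, 2, 35), (10, 2, 29), (10, 2, 20), (7, 1, 44), (7,
    1, 39), (7, 1, 37), (7, 1, 36), (7, 1, 35), (7, 1, 21), (7, 1, 13), (7, 1, 6), (6, 1, 53), (6,
    1, 39), (6, 1, 21), (6, 1, 7), (5, 1, 47), (5, 1, 42), (5, 1, 13), (2, 1, 42), (0, 1, 29),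
    (14, 3, 48), (14, 3, 0), (13, 2, 54), (13, 2, 42), (10, 1, 0), (9, 1, 0), (2, 1, 77), (2, 1,
    65), (2, 1, 60), (2, 1, 52), (2, 1, 45), (2, 1, 44), (2, 1, 27), (2, 1, 8), (0, 1, 70), (0, 1,
    52), (0, 1, 47), (0, 1, 45), (0, 1, 36), (0, 1, 30), (0, 1, 28), (0, 1, 21), (0, 1, 17), (0,
    1, 14), (0, 1, 7)]),
  (0, [2, 4, 4, 4, 5, 5, 2, 4, 4, 2, 5, 2, 2, 2], 0, 0,
    [(4, 1, 20), (0, 1, 31), (1, 1, 5), (1, 1, 24), (1, 1, 26), (2, 1, 25), (2, 1, 31), (3, 1,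
    14), (4, 1, 4), (4, 1, 63), (5, 1, 18), (5, 1, 41), (0, 1, 15), (1, 1, 15), (2, 1, 73), (2, 1,
    76), (5, 1, 6), (0, 1, 10), (0, 1, 26), (0, 1, 57), (1, 1, 10), (1, 1, 27), (2, 1, 6), (2, 1,
    24), (2, 1, 46), (2, 1, 72), (2, 1, 78), (3, 1, 26), (4, 1, 9), (5, 1, 51), (6, 1, 56), (6, 1,
    72), (12, 2, 32), (12, 2, 36), (0, 1, 25), (0, 1, 39), (0, 1, 78), (1, 1, 7), (1, 1, 21), (2,
    1, 37), (2, 1, 41), (3, 1, 7), (3, 1, 35), (3, 1, 40), (5, 1, 8), (5, 1, 17), (6, 1, 52), (7,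
    1, 22), (5, 1, 33), (2, 1, 21), (11, 1, 84), (7, 1, 33), (7, 1, 32), (7, 1, 19), (7, 1, 15),
    (7, 1, 10), (7, 1, 5), (7, 1, 4), (5, 1, 72), (5, 1, 14), (13, 2, 41), (13, 2, 17), (13, 2,
    5), (11, 2, 40), (11, 2, 37), (11, 2, 35), (11, 2, 15), (11, 2, 14), (11, 2, 9), (10, 2, 80),
    (10, 2, 29), (10, 2, 20), (7, 1, 39), (7, 1, 37), (7, 1, 36), (7, 1, 35), (7, 1, 21), (7, 1,
    13), (7, 1, 8), (7, 1, 6), (6, 1, 39), (5, 1, 42), (5, 1, 13), (2, 1, 87), (2, 1, 39), (2, 1,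
    12), (2, 1, 7), (0, 1, 27), (14, 3, 48), (14, 3, 29), (14, 3, 28), (14, 3, 2), (13, 2, 54),
    (13, 2, 12), (13, 1, 1), (12, 2, 61), (11, 2, 42), (11, 2, 1), (8, 1, 55), (2, 1, 75), (2, 1,
    68), (2, 1, 60), (2, 1, 55), (2, 1, 52), (2, 1, 47), (2, 1, 44), (2, 1, 28), (2, 1, 27), (2,
    1, 8), (2, 1, 1), (0, 1, 47), (0, 1, 36), (0, 1, 21), (0, 1, 14), (0, 1, 12), (0, 1, 5), (0,
    1, 3)]),
  (2, [4, 1, 2, 5, 2, 1, 2, 1, 2, 4, 5, 2, 1, 2, 0, 5, 2, 2], 0, 1,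
    [(0, 1, 15), (5, 1, 51), (0, 1, 39), (1, 1, 7), (4, 1, 6), (7, 1, 15), (13, 2, 7), (6, 1, 7),
    (6, 1, 6), (5, 1, 12), (2, 1, 7), (12, 2, 12), (2, 1, 59), (0, 1, 47), (0, 1, 7)]),
  (1, [2, 1, 2, 1, 2, 5, 2, 4, 4, 4, 2, 4, 4, 4, 5, 5, 5, 5, 5, 2], 0, 1,
    [(0, 1, 10), (1, 1, 10), (2, 1, 80), (4, 1, 9), (0, 1, 26), (0, 1, 49), (0, 1, 57), (0, 1,
    67), (1, 1, 21), (1, 1, 24), (1, 1, 27), (1, 1, 30), (1, 1, 31), (1, 1, 49), (2, 1, 22), (2,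
    1, 31), (2, 1, 46), (2, 1, 66), (2, 1, 72), (2, 1, 86), (3, 1, 14), (4, 1, 20), (4, 1, 63),
    (5, 1, 18), (5, 1, 41), (12, 2, 18), (2, 1, 40), (10, 2, 24), (7, 1, 22), (6, 1, 24), (5, 1,
    33), (2, 1, 56), (12, 1, 33), (10, 2, 59), (7, 1, 33), (7, 1, 32), (6, 1, 59), (5, 1, 14),
    (13, 2, 41), (13, 2, 14), (12, 2, 44), (11, 2, 37), (11, 2, 35), (11, 2, 10), (11, 2, 9), (10,
    2, 35), (10, 2, 29), (7, 1, 44), (7, 1, 37), (7, 1, 36), (7, 1, 13), (7, 1, 2), (5, 1, 13),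
    (2, 1, 87), (2, 1, 12), (0, 1, 29), (0, 1, 27), (14, 3, 48), (14, 3, 29), (14, 3, 28), (14, 3,
    13), (14, 3, 2), (13, 2, 12), (13, 2, 2), (11, 2, 1), (10, 2, 1), (9, 1, 89), (8, 1, 55), (2,
    1, 65), (2, 1, 60), (2, 1, 55), (2, 1, 52), (2, 1, 47), (2, 1, 28), (2, 1, 27), (0, 1, 70),
    (0, 1, 47), (0, 1, 45), (0, 1, 30), (0, 1, 28), (0, 1, 21), (0, 1, 14), (0, 1, 2), (0, 1, 0)])]

end Lit
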