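import Pool.Agent.Lit.Unr

/-!
# Dec: the decomposition group at a prime above `2`

PROOFS. `S` any domain with an action of `G`, `P` prime, `2 ∈ P`, `σ P = P`.
`dec_z`: `(z - w)(z + w + 1) = z² + z - w² - w = -1 - (2w - 3) = 2 (1 - w) ∈ P`, so `z ≡ a mod P` with
`a = w` or `a = -w-1` in `O`, so `σ z ≡ a` too.  `(σz)² + σz + 1 = 0`, so `(σ z - z)(σ z + z + 1) = 0`; if
`σ z = -1 - z` then `2 z + 1 ∈ P`, `1 ∈ P`.
`dec_even`: `(y-1)(y-w) = y² - (1+w) y + w = 3(w-1) y + (w+4) - (1+w) y + w = 2 ((w-2) y + w + 2) ∈ P`, so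
`y ≡ a mod P` with `a = 1` or `w`, and `σ y ≡ a`.  If `π σ` is odd then `2 σ y = 2 y'` (`hy`, `hy'`; check
the three transpositions), so `σ y = y' = 3(w-1) - y ≡ 3(w-1) - a`; so `3(w-1) - 2a ∈ P`, `3 (w-1) ∈ P`,
norm `27`, contradiction (`nrm_mem`, `int_coprime`).  So `π σ` is even, hence a rotation (`decide`).
`dec_t1` ...: `σ t1 = ∑ z^i s_{i+k} = z^{-k} t1` etc.
`dec_u1`: `u₁ + u₁' = -(2w+3) ∉ P` (norm `27`), `u₁ u₁' ∈ P`.  The same for `u₂` (`27 (w-1)`: norm `27² · 3`).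
`odd_unit`: `2w+3` (norm `27`), `27 (4w+7)` (norm `27² · 125`) are not in `P`.
-/

open Matrix
open scoped QuadraticAlgebra Pointwise

namespace Lit

open SerreK

variable {S : Type} [CommRing S] [Algebra O S] {D : Dat S} [IsDomain S] [FaithfulSMul O S]
  {G : Type} [Group G] [MulSemiringAction G S] [SMulCommClass G O S] {ρ : G →* GL (Fin 2) FF}

private theorem Dec_two (P : Ideal S) (h2 : (2 : S) ∈ P) : (((2 : ℤ) : ℤ) : S) ∈ P := by
  simpa using h2

private theorem Dec_norm (P : Ideal S) [P.IsPrime] (h2 : (2 : S) ∈ P) (x : O) (m : ℤ)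
    (hm : nrm x = m) (hc : IsCoprime m 2) : algebraMap O S x ∉ P := by
  intro h
  have h1 := nrm_mem P x h
  rw [hm] at h1
  exact int_coprime P m 2 hc h1 (Dec_two P h2)

private theorem Dec_smul (P : Ideal S) (σ : G) (hσ : σ ∈ MulAction.stabilizer G P) {x : S}
    (hx : x ∈ P) : σ • x ∈ P := by
  have h1 : σ • P = P := hσ
  rw [← h1]
  exact Ideal.smul_mem_pointwise_smul σ x P hx

private theorem Dec_fix (σ : G) (x : O) : σ • algebraMap O S x = algebraMap O S x :=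
  smul_algebraMap σ x

private theorem Dec_w : (algebraMap O S w) ^ 2 = algebraMap O S w - 3 := by
  have h := congrArg (algebraMap O S) w_sq
  have h3 : algebraMap O S 3 = 3 := map_ofNat (algebraMap O S) 3
  rw [map_pow, map_sub, h3] at h
  exact h

theorem dec_z (D : Dat S) (P : Ideal S) [P.IsPrime] (h2 : (2 : S) ∈ P) (σ : G)
    (hσ : σ ∈ MulAction.stabilizer G P) : σ • D.z = D.z := by
  have hw := Dec_w (S := S)
  have hz := D.hz
  have hprod : (D.z - algebraMap O S w) * (D.z - algebraMap O S (-w - 1)) ∈ P := by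
    have h1 : (D.z - algebraMap O S w) * (D.z - algebraMap O S (-w - 1))
        = 2 * (1 - algebraMap O S w) := by
      rw [map_sub, map_neg, map_one]
      linear_combination hz - hw
    rw [h1]
    exact P.mul_mem_right _ h2
  have hex : ∃ a : O, D.z - algebraMap O S a ∈ P := by
    rcases Ideal.IsPrime.mem_or_mem ‹P.IsPrime› hprod with h | h
    · exact ⟨_, h⟩
    · exact ⟨_, h⟩
  obtain ⟨a, ha⟩ := hex
  have h3 : σ • D.z - algebraMap O S a ∈ P := by
    have h4 := Dec_smul P σ hσ ha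
    rwa [smul_sub, Dec_fix] at h4
  have h5 : σ • D.z - D.z ∈ P := by
    have h6 : σ • D.z - D.z = (σ • D.z - algebraMap O S a) - (D.z - algebraMap O S a) := by ring
    rw [h6]
    exact P.sub_mem h3 ha
  have h7 : (σ • D.z) ^ 2 + σ • D.z + 1 = 0 := by
    have h8 := congrArg (fun x => σ • x) hz
    simpa [smul_add, smul_pow'] using h8
  have h9 : (σ • D.z - D.z) * (σ • D.z + D.z + 1) = 0 := by
    linear_combination h7 - hz
  rcases mul_eq_zero.1 h9 with h | h
  · exact sub_eq_zero.1 h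
  · exfalso
    have h10 : (1 : S) ∈ P := by
      have h11 : (1 : S) = -(σ • D.z - D.z) - 2 * D.z := by
        linear_combination h
      rw [h11]
      exact P.sub_mem (P.neg_mem h5) (P.mul_mem_right _ h2)
    exact (Ideal.ne_top_iff_one P).1 (Ideal.IsPrime.ne_top ‹_›) h10

private theorem Dec_perm : ∀ π : Equiv.Perm (Fin 3), (∀ i, π i = i + π 0) ∨
    (π 0 = 0 ∧ π 1 = 2 ∧ π 2 = 1) ∨ (π 0 = 1 ∧ π 1 = 0 ∧ π 2 = 2) ∨
    (π 0 = 2 ∧ π 1 = 1 ∧ π 2 = 0) := by decide

/-- `π σ` is the rotation by `π σ 0`. -/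
theorem dec_even (A : Act D G ρ) (P : Ideal S) [P.IsPrime] (h2 : (2 : S) ∈ P) (σ : G)
    (hσ : σ ∈ MulAction.stabilizer G P) (i : Fin 3) : A.π σ i = i + A.π σ 0 := by
  rcases Dec_perm (A.π σ) with h | h
  · exact h i
  · exfalso
    have hy1 : 2 * (σ • D.y) = (σ • D.r 0) ^ 2 * σ • D.r 1 + (σ • D.r 1) ^ 2 * σ • D.r 2
        + (σ • D.r 2) ^ 2 * σ • D.r 0 := by
      have h3 := congrArg (fun x => σ • x) D.hy
      simp only [smul_add, smul_mul', smul_pow'] at h3
      have h4 : σ • (2 : S) = 2 := by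
        rw [← one_add_one_eq_two, smul_add, smul_one]
      rw [h4] at h3
      exact h3
    have hy2 : 2 * (σ • D.y) = 2 * D.y' := by
      rw [hy1, D.hy', A.hπ, A.hπ, A.hπ]
      rcases h with ⟨h0, h1, h2'⟩ | ⟨h0, h1, h2'⟩ | ⟨h0, h1, h2'⟩ <;> rw [h0, h1, h2'] <;> ring
    have hy3 : σ • D.y = D.y' := mul_left_cancel₀ two_ne hy2
    have hw := Dec_w (S := S)
    have hy := D.y_eq
    have hprod : (D.y - algebraMap O S 1) * (D.y - algebraMap O S w) ∈ P := by
      have h3 : (D.y - algebraMap O S 1) * (D.y - algebraMap O S w)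
          = 2 * ((algebraMap O S w - 2) * D.y + algebraMap O S w + 2) := by
        have h4 : D.y ^ 2 - 3 * (algebraMap O S w - 1) * D.y - (algebraMap O S w + 4) = 0 := by
          have e3 : algebraMap O S 3 = 3 := map_ofNat (algebraMap O S) 3
          have e4 : algebraMap O S 4 = 4 := map_ofNat (algebraMap O S) 4
          rw [map_mul, map_sub, map_add, map_one, e3, e4] at hy
          exact hy
        rw [map_one]
        linear_combination h4
      rw [h3]
      exact P.mul_mem_right _ h2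
    have hex : ∃ a : O, D.y - algebraMap O S a ∈ P := by
      rcases Ideal.IsPrime.mem_or_mem ‹P.IsPrime› hprod with h | h
      · exact ⟨_, h⟩
      · exact ⟨_, h⟩
    obtain ⟨a, ha⟩ := hex
    have h3 : D.y' - algebraMap O S a ∈ P := by
      have h4 := Dec_smul P σ hσ ha
      rwa [smul_sub, Dec_fix, hy3] at h4
    have h5 : algebraMap O S (3 * (w - 1)) ∈ P := by
      have h6 : algebraMap O S (3 * (w - 1))
          = (D.y' - algebraMap O S a) + (D.y - algebraMap O S a) + 2 * algebraMap O S a := by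
        unfold Dat.y'
        ring
      rw [h6]
      exact P.add_mem (P.add_mem h3 ha) (P.mul_mem_right _ h2)
    exact Dec_norm P h2 (3 * (w - 1)) 27 (by decide) (by norm_num) h5

private theorem Dec_rot (σ : G) (z : S) (hz : z ^ 2 + z + 1 = 0) (hσ : σ • z = z)
    (f : Fin 3 → S) (k : Fin 3) (hf : ∀ i, σ • f i = f (i + k)) :
    σ • (f 0 + z * f 1 + z ^ 2 * f 2) = z ^ (2 * (k : ℕ)) * (f 0 + z * f 1 + z ^ 2 * f 2) ∧
    σ • (f 0 + z ^ 2 * f 1 + z * f 2) = z ^ (k : ℕ) * (f 0 + z ^ 2 * f 1 + z * f 2) := by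
  have h3 : z ^ 3 = 1 := by linear_combination (z - 1) * hz
  have h0 := hf 0
  have h1 := hf 1
  have h2 := hf 2
  simp only [smul_add, smul_mul', smul_pow', hσ, h0, h1, h2]
  fin_cases k
  · simp
  · have e0 : (0 : Fin 3) + 1 = 1 := rfl
    have e1 : (1 : Fin 3) + 1 = 2 := rfl
    have e2 : (2 : Fin 3) + 1 = 0 := rfl
    simp only [Fin.mk_one, e0, e1, e2]
    constructor
    · linear_combination (-(f 1) - z * f 2) * h3
    · linear_combination (-(f 1)) * h3
  · have e0 : (0 : Fin 3) + 2 = 2 := rfl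
    have e1 : (1 : Fin 3) + 2 = 0 := rfl
    have e2 : (2 : Fin 3) + 2 = 1 := rfl
    simp only [Fin.reduceFinMk, e0, e1, e2]
    constructor
    · linear_combination (-(f 2) - z * f 0 - z ^ 2 * f 1 - z ^ 3 * f 2) * h3
    · linear_combination (-(f 2) - z * f 1) * h3

theorem dec_t1 (A : Act D G ρ) (σ : G) (hz : σ • D.z = D.z) :
    σ • D.t1 = D.z ^ (2 * (A.k σ : ℕ)) * D.t1 ∧ σ • D.t1' = D.z ^ (A.k σ : ℕ) * D.t1' :=
  Dec_rot σ D.z D.hz hz D.s (A.k σ) (A.hk σ)

theorem dec_t2 (A : Act D G ρ) (σ : G) (hz : σ • D.z = D.z) (h : ∀ i, A.π σ i = i + A.π σ 0) :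
    σ • D.t2 = D.z ^ (2 * (A.π σ 0 : ℕ)) * D.t2 ∧ σ • D.t2' = D.z ^ (A.π σ 0 : ℕ) * D.t2' :=
  Dec_rot σ D.z D.hz hz D.r (A.π σ 0) fun i => by rw [A.hπ, h i]

theorem dec_units (P : Ideal S) [P.IsPrime] (h2 : (2 : S) ∈ P) :
    algebraMap O S (2 * w + 3) ∉ P ∧ algebraMap O S (27 * (4 * w + 7)) ∉ P ∧ (3 : S) ∉ P := by
  refine ⟨Dec_norm P h2 _ 27 (by decide) (by norm_num),
    Dec_norm P h2 _ 91125 (by decide) (by norm_num), fun h => ?_⟩
  exact int_coprime P 3 2 (by norm_num) (by simpa using h) (Dec_two P h2)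

/-- exactly one of `u₁`, `u₁'` is in `P`. -/
theorem dec_u1 (D : Dat S) (P : Ideal S) [P.IsPrime] (h2 : (2 : S) ∈ P) :
    (D.u1 ∈ P ∧ D.u1' ∉ P) ∨ (D.u1 ∉ P ∧ D.u1' ∈ P) := by
  have hn := (dec_units P h2).1
  have hm : D.u1 * D.u1' ∈ P := by
    rw [D.u1_mul]
    exact P.mul_mem_right _ h2
  have hs : D.u1 ∈ P → D.u1' ∈ P → False := by
    intro h h'
    apply hn
    have h3 := P.neg_mem (P.add_mem h h')
    rwa [D.u1_add, neg_neg] at h3
  rcases Ideal.IsPrime.mem_or_mem ‹P.IsPrime› hm with h | h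
  · exact Or.inl ⟨h, fun h' => hs h h'⟩
  · exact Or.inr ⟨fun h' => hs h' h, h⟩

theorem dec_u2 (D : Dat S) (P : Ideal S) [P.IsPrime] (h2 : (2 : S) ∈ P) :
    (D.u2 ∈ P ∧ D.u2' ∉ P) ∨ (D.u2 ∉ P ∧ D.u2' ∈ P) := by
  have hn : algebraMap O S (27 * (w - 1)) ∉ P :=
    Dec_norm P h2 _ 2187 (by decide) (by norm_num)
  have hm : D.u2 * D.u2' ∈ P := by
    rw [D.u2_mul]
    have h3 : (-54 : S) * algebraMap O S (4 * w + 7) = 2 * (-27 * algebraMap O S (4 * w + 7)) := by
      ring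
    rw [h3]
    exact P.mul_mem_right _ h2
  have hs : D.u2 ∈ P → D.u2' ∈ P → False := by
    intro h h'
    apply hn
    have h3 := P.neg_mem (P.add_mem h h')
    rw [D.u2_add] at h3
    have h4 : algebraMap O S (27 * (w - 1)) = -(-27 * algebraMap O S (w - 1)) := by
      have e27 : algebraMap O S 27 = 27 := map_ofNat (algebraMap O S) 27
      rw [map_mul, e27]
      ring
    rw [h4]
    exact h3
  rcases Ideal.IsPrime.mem_or_mem ‹P.IsPrime› hm with h | h
  · exact Or.inl ⟨h, fun h' => hs h h'⟩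
  · exact Or.inr ⟨fun h' => hs h' h, h⟩

end Lit
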