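import Pool.Agent.SerreK.PELL

/-!
# Definitions for the counterexample to Q1 of MP_94f623_nt as worded

`O = ℤ[w]`, `w² = w - 3`, is the ring of integers of `K = ℚ(√-11)` (class number one, `2` inert),
`N = 2 + 5w` (a prime of norm `89`).  A representation of `G_K` with finite image is given as a
homomorphism `ρ : Gal(M/K) → GL₂(𝔽̄₂)`, `M/K` a finite Galois extension.  `S` is the ring of integers
of `M`.
-/

open Matrix
open scoped QuadraticAlgebra Pointwise TensorProduct

namespace Lit

open SerreK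

/-- the ring of integers `ℤ[w]`, `w² = w - 3`, of `ℚ(√-11)` -/
abbrev O : Type := OK 2

/-- `K = ℚ(√-11)` -/
abbrev K : Type := FractionRing O

/-- `w`, a root of `w² = w - 3` -/
def w : O := ⟨0, 1⟩

/-- the level `N = 2 + 5w`, of norm `89` -/
def N : O := ⟨2, 5⟩

section gal

variable {M : Type} [Field M] [Algebra K M] [Algebra O M] [IsScalarTower O K M]

/-- `ρ : Gal(M/K) → GL₂(𝔽̄₂)` is irreducible. -/
def Irred (ρ : Gal(M/K) →* GL (Fin 2) FF) : Prop :=
  ∀ v : Fin 2 → FF, v ≠ 0 → ¬ ∀ σ, ∃ c : FF, (ρ σ).val.mulVec v = c • v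

/-- the subspace of vectors fixed by a subgroup -/
def fixedSpace (ρ : Gal(M/K) →* GL (Fin 2) FF) (H : Subgroup Gal(M/K)) :
    Submodule FF (Fin 2 → FF) where
  carrier := {v | ∀ σ ∈ H, (ρ σ).val.mulVec v = v}
  add_mem' := fun ha hb σ hσ => by rw [Matrix.mulVec_add, ha σ hσ, hb σ hσ]
  zero_mem' := fun σ _ => Matrix.mulVec_zero _
  smul_mem' := fun c v hv σ hσ => by rw [Matrix.mulVec_smul, hv σ hσ]

/-- the ring of integers of `M` -/
abbrev RI (M : Type) [Field M] [Algebra O M] : Type := integralClosure O M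

/-- the `i`-th ramification group (lower numbering) at the prime `P` of `M`:
all `σ` with `σ x ≡ x mod P^(i+1)` for all integers `x` of `M`. -/
def ramGroup (P : Ideal (RI M)) (i : ℕ) : Subgroup Gal(M/K) := (P ^ (i + 1)).inertia Gal(M/K)

/-- the exponent of the Artin conductor of `ρ` at the prime of `K` below `P`:
`∑ᵢ |Gᵢ| / |G₀| · codim V^{Gᵢ}`. -/
noncomputable def artinExp (ρ : Gal(M/K) →* GL (Fin 2) FF) (P : Ideal (RI M)) : ℚ :=
  ∑ᶠ i : ℕ, (Nat.card (ramGroup P i) : ℚ) / Nat.card (ramGroup P 0) *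
    (2 - Module.finrank FF (fixedSpace ρ (ramGroup P i)))

/-- the Serre conductor of `ρ`, the prime-to-`2` part of the Artin conductor, is `(n)`. -/
def SerreConductor (ρ : Gal(M/K) →* GL (Fin 2) FF) (n : O) : Prop :=
  ∀ P : Ideal (RI M), P.IsPrime → P ≠ ⊥ → (2 : RI M) ∉ P →
    artinExp ρ P = multiplicity (P.under O) (Ideal.span {n})

/-- the prime-to-`2` part of `det ρ` is trivial: `det ρ` is unramified at all primes which do not
divide `2`. -/
def TrivialCharacter (ρ : Gal(M/K) →* GL (Fin 2) FF) : Prop :=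
  ∀ P : Ideal (RI M), P.IsPrime → P ≠ ⊥ → (2 : RI M) ∉ P →
    ∀ σ ∈ P.inertia Gal(M/K), (ρ σ).val.det = 1

/-- the valuation ring at `P` of the decomposition field of `P`; its completion is the ring of
integers of the completion of `K` at the prime below `P`. -/
def decompRing (P : Ideal (RI M)) [hP : P.IsPrime] : Subring M where
  carrier := {x | (∀ σ ∈ MulAction.stabilizer Gal(M/K) P, σ x = x) ∧
    ∃ s t : RI M, s ∉ P ∧ (s : M) * x = t}
  mul_mem' := by
    rintro a b ⟨ha, s, t, hs, hst⟩ ⟨hb, s', t', hs', hst'⟩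
    refine ⟨fun σ hσ => by rw [map_mul, ha σ hσ, hb σ hσ], s * s', t * t', ?_, ?_⟩
    · exact fun h => (hP.mem_or_mem h).elim hs hs'
    · push_cast
      rw [← hst, ← hst']; ring
  one_mem' := ⟨fun σ _ => map_one σ, 1, 1, fun h => hP.ne_top ((Ideal.eq_top_iff_one P).2 h),
    by simp⟩
  add_mem' := by
    rintro a b ⟨ha, s, t, hs, hst⟩ ⟨hb, s', t', hs', hst'⟩
    refine ⟨fun σ hσ => by rw [map_add, ha σ hσ, hb σ hσ], s * s', s' * t + s * t', ?_, ?_⟩
    · exact fun h => (hP.mem_or_mem h).elim hs hs'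
    · push_cast
      rw [← hst, ← hst']; ring
  zero_mem' := ⟨fun σ _ => map_zero σ, 1, 0, fun h => hP.ne_top ((Ideal.eq_top_iff_one P).2 h),
    by simp⟩
  neg_mem' := by
    rintro a ⟨ha, s, t, hs, hst⟩
    refine ⟨fun σ hσ => by rw [map_neg, ha σ hσ], s, -t, hs, ?_⟩
    push_cast
    rw [← hst]; ring

/-- the sum of two `M`-valued points of the group scheme `Spec A` -/
noncomputable def addPt {R A M : Type} [CommRing R] [CommRing A] [HopfAlgebra R A] [Field M]
    [Algebra R M] (φ ψ : A →ₐ[R] M) : A →ₐ[R] M :=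
  (Algebra.TensorProduct.lift φ ψ (fun _ _ => Commute.all _ _)).comp (Bialgebra.comulAlgHom R A)

/-- `ρ` is finite flat at the prime below `P`: the restriction of `ρ` to the decomposition group of
`P` is defined over a finite field `k`, and this `k`-form is the group of `M`-valued points of a
finite flat commutative group scheme `Spec A` over `decompRing P` all of whose geometric points are
defined over `M`. -/
def FiniteFlatAt (ρ : Gal(M/K) →* GL (Fin 2) FF) (P : Ideal (RI M)) [P.IsPrime] : Prop :=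
  ∃ (A : Type) (_ : CommRing A) (_ : HopfAlgebra (decompRing P) A)
    (_ : Coalgebra.IsCocomm (decompRing P) A) (_ : Module.Finite (decompRing P) A)
    (_ : Module.Free (decompRing P) A)
    (k : Subfield FF) (_ : Finite k) (b : Module.Basis (Fin 2) FF (Fin 2 → FF))
    (ι : (A →ₐ[decompRing P] M) → (Fin 2 → FF)),
    Module.finrank (decompRing P) A = Nat.card (A →ₐ[decompRing P] M) ∧
    Function.Injective ι ∧
    Set.range ι = (Submodule.span k (Set.range b) : Set (Fin 2 → FF)) ∧
    (∀ φ ψ, ι (addPt φ ψ) = ι φ + ι ψ) ∧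
    (∀ σ ∈ MulAction.stabilizer Gal(M/K) P, ∀ φ ψ : A →ₐ[decompRing P] M,
      (∀ a, ψ a = σ (φ a)) → ι ψ = (ρ σ).val.mulVec (ι φ))

/-- the ring generated by the Hecke operators `T_π` (`π` a prime not dividing `2n`) on
`H¹(Y₀(n), 𝔽̄₂)` -/
noncomputable def heckeRing (n : O) : Subring (EndH n) := Subring.closure (Set.range (TE n))

/-- `T_π` as an element of the Hecke ring -/
noncomputable def heckeOp {n : O} (π : GP n) : heckeRing n :=
  ⟨TE n π, Subring.subset_closure ⟨π, rfl⟩⟩

/-- the trace identity: `Tr ρ(Frob_π) = Φ(T_π)` for all primes `π` not dividing `2n` (and all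
Frobenius elements at all primes of `M` above `π`), where `Φ` is a ring homomorphism from the Hecke
ring to `𝔽̄₂`. -/
def Attached {n : O} (ρ : Gal(M/K) →* GL (Fin 2) FF) (Φ : heckeRing n →+* FF) : Prop :=
  ∀ (π : GP n) (P : Ideal (RI M)), P.IsPrime → algebraMap O (RI M) π.el ∈ P →
    ∀ σ : Gal(M/K), IsArithFrobAt O σ P → (ρ σ).val.trace = Φ (heckeOp π)

end gal

end Lit
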