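import Mathlib

/-!
# Hopf1: the group scheme `X⁴ = a X` of order four (Raynaud, `p = 2`, residue field `𝔽₄`)

`R` a commutative ring, `a b = 2`, `3 t = 1`.  `A = R[X]/(X⁴ - a X)`, comultiplication
`X ↦ glaw b t (X ⊗ 1) (1 ⊗ X)`, counit `X ↦ 0`, antipode the identity.

PROOFS.  Put `α = b t`, `F = glaw b t X Y = X + Y + α X²Y² - 2α (X³Y + X Y³)`.  Modulo `X⁴ = aX`, `Y⁴ = aY`,
`ab = 2`, `3t = 1`:
`F² = X² + Y² + 2t XY - 2α (X³Y² + X²Y³)`   (`glaw_sq`),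
`F³ = X³ + Y³ - t (X²Y + XY²) - 2α X³Y³`   (`glaw_cube`),
`F⁴ = a F`   (`glaw_four`),
and `glaw b t (glaw b t X Y) Z = glaw b t X (glaw b t Y Z)`   (`glaw_assoc`: replace `F²`, `F³` on both sides by
the normal forms, the two sides then agree as polynomials), `glaw b t X X = 0`, `glaw b t X 0 = X`.
Useful: `a α = 2 t`, `(a α)² = 4 t²`, `9 t² = 1`.
The Hopf algebra: `A = AdjoinRoot (X^4 - C a * X)` (monic of degree `4`), `Bialgebra.ofAlgHom` with the
comultiplication and counit given by `AdjoinRoot.liftAlgHom`; all axioms are identities of algebra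
homomorphisms, to be checked on the generator.
-/

open scoped TensorProduct Polynomial

namespace Lit

/-- the group law -/
def glaw {A : Type*} [CommRing A] (b t x y : A) : A :=
  x + y + b * t * (x ^ 2 * y ^ 2 - 2 * x ^ 3 * y - 2 * x * y ^ 3)

section poly

variable {A : Type*} [CommRing A] {a b t x y u : A} (hab : a * b = 2) (ht : 3 * t = 1)
  (hx : x ^ 4 = a * x) (hy : y ^ 4 = a * y) (hu : u ^ 4 = a * u)

include hab ht hx hy

theorem glaw_sq : glaw b t x y ^ 2 =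
    x ^ 2 + y ^ 2 + 2 * t * x * y - 2 * (b * t) * (x ^ 3 * y ^ 2 + x ^ 2 * y ^ 3) := by
  unfold glaw
  linear_combination
    (4 * b ^ 2 * t ^ 2 * x ^ 2 * y ^ 2 - 4 * b ^ 2 * t ^ 2 * x * y ^ 3 + 9 * b ^ 2 * t ^ 2 * y ^ 4
      - 4 * b * t * y) * hx +
    (9 * a * b ^ 2 * t ^ 2 * x - 4 * b ^ 2 * t ^ 2 * x ^ 3 * y + 4 * b ^ 2 * t ^ 2 * x ^ 2 * y ^ 2
      - 4 * b * t * x) * hy +
    (9 * a * b * t ^ 2 * x * y + 18 * t ^ 2 * x * y - 8 * t * x * y) * hab +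
    (12 * t * x * y - 2 * x * y) * ht

private theorem Hopf1_cube_aux :
    glaw b t x y * (x ^ 2 + y ^ 2 + 2 * t * x * y -
      2 * (b * t) * (x ^ 3 * y ^ 2 + x ^ 2 * y ^ 3)) =
    x ^ 3 + y ^ 3 - t * (x ^ 2 * y + x * y ^ 2) - 2 * (b * t) * x ^ 3 * y ^ 3 := by
  unfold glaw
  linear_combination
    (4 * b ^ 2 * t ^ 2 * x ^ 2 * y ^ 3 + 2 * b ^ 2 * t ^ 2 * x * y ^ 4 + 2 * b ^ 2 * t ^ 2 * y ^ 5
      - 4 * b * t ^ 2 * y ^ 2 - 2 * b * t * x * y - b * t * y ^ 2) * hx +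
    (2 * a * b ^ 2 * t ^ 2 * x ^ 2 + 2 * a * b ^ 2 * t ^ 2 * x * y
      + 4 * b ^ 2 * t ^ 2 * x ^ 3 * y ^ 2 - 4 * b * t ^ 2 * x ^ 2 - b * t * x ^ 2
      - 2 * b * t * x * y) * hy +
    (2 * a * b * t ^ 2 * x ^ 2 * y + 2 * a * b * t ^ 2 * x * y ^ 2 + 8 * b * t ^ 2 * x ^ 3 * y ^ 3
      - 3 * t * x ^ 2 * y - 3 * t * x * y ^ 2) * hab +
    (6 * b * t * x ^ 3 * y ^ 3 - x ^ 2 * y - x * y ^ 2) * ht

theorem glaw_cube : glaw b t x y ^ 3 =
    x ^ 3 + y ^ 3 - t * (x ^ 2 * y + x * y ^ 2) - 2 * (b * t) * x ^ 3 * y ^ 3 := by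
  have h2 := glaw_sq hab ht hx hy
  have h3 := Hopf1_cube_aux hab ht hx hy
  linear_combination glaw b t x y * h2 + h3

private theorem Hopf1_four_aux :
    (x ^ 2 + y ^ 2 + 2 * t * x * y - 2 * (b * t) * (x ^ 3 * y ^ 2 + x ^ 2 * y ^ 3)) ^ 2 =
      a * glaw b t x y := by
  unfold glaw
  linear_combination
    (4 * b ^ 2 * t ^ 2 * x ^ 2 * y ^ 4 + 8 * b ^ 2 * t ^ 2 * x * y ^ 5 + 4 * b ^ 2 * t ^ 2 * y ^ 6
      - 8 * b * t ^ 2 * y ^ 3 - 4 * b * t * x * y ^ 2 - 4 * b * t * y ^ 3 + 1) * hx +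
    (4 * a * b ^ 2 * t ^ 2 * x ^ 3 + 8 * a * b ^ 2 * t ^ 2 * x ^ 2 * y
      + 4 * a * b ^ 2 * t ^ 2 * x * y ^ 2 - 8 * b * t ^ 2 * x ^ 3 - 4 * b * t * x ^ 3
      - 4 * b * t * x ^ 2 * y + 1) * hy +
    (4 * a * b * t ^ 2 * x ^ 3 * y + 8 * a * b * t ^ 2 * x ^ 2 * y ^ 2
      + 4 * a * b * t ^ 2 * x * y ^ 3 + 16 * t ^ 2 * x ^ 2 * y ^ 2 - 2 * t * x ^ 3 * y
      - 9 * t * x ^ 2 * y ^ 2 - 2 * t * x * y ^ 3) * hab +
    (12 * t * x ^ 2 * y ^ 2 - 2 * x ^ 2 * y ^ 2) * ht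

theorem glaw_four : glaw b t x y ^ 4 = a * glaw b t x y := by
  have h2 := glaw_sq hab ht hx hy
  have h4 := Hopf1_four_aux hab ht hx hy
  rw [← h2] at h4
  linear_combination h4

include hu in
theorem glaw_assoc : glaw b t (glaw b t x y) u = glaw b t x (glaw b t y u) := by
  have h1 := glaw_sq hab ht hx hy
  have h2 := glaw_cube hab ht hx hy
  have h3 := glaw_sq hab ht hy hu
  have h4 := glaw_cube hab ht hy hu
  have e1 : glaw b t (glaw b t x y) u = glaw b t x y + u + b * t *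
      (glaw b t x y ^ 2 * u ^ 2 - 2 * glaw b t x y ^ 3 * u - 2 * glaw b t x y * u ^ 3) := rfl
  have e2 : glaw b t x (glaw b t y u) = x + glaw b t y u + b * t *
      (x ^ 2 * glaw b t y u ^ 2 - 2 * x ^ 3 * glaw b t y u - 2 * x * glaw b t y u ^ 3) := rfl
  rw [e1, e2, h1, h2, h3, h4]
  unfold glaw
  ring

end poly

section hopf

variable {R : Type} [CommRing R]

private theorem Hopf1_map_pow {A B : Type*} [CommRing A] [CommRing B] [Algebra R A] [Algebra R B]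
    (φ : A →ₐ[R] B) {a : R} {x : A} (h : x ^ 4 = algebraMap R A a * x) :
    (φ x) ^ 4 = algebraMap R B a * φ x := by
  rw [← map_pow, h, map_mul, AlgHom.commutes]

private theorem Hopf1_map_glaw {A B : Type*} [CommRing A] [CommRing B] [Algebra R A] [Algebra R B]
    (φ : A →ₐ[R] B) (b t : R) (x y : A) :
    φ (glaw (algebraMap R A b) (algebraMap R A t) x y) =
      glaw (algebraMap R B b) (algebraMap R B t) (φ x) (φ y) := by
  unfold glaw
  simp only [map_add, map_sub, map_mul, map_pow, AlgHom.commutes, map_ofNat]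

private noncomputable abbrev Hopf1_f (a : R) : R[X] := Polynomial.X ^ 4 -
  Polynomial.C a * Polynomial.X

private abbrev Hopf1_A (a : R) : Type := AdjoinRoot (Hopf1_f a)

private noncomputable abbrev Hopf1_e (a : R) : Hopf1_A a := AdjoinRoot.root (Hopf1_f a)

private theorem Hopf1_e_pow (a : R) :
    (Hopf1_e a) ^ 4 = algebraMap R (Hopf1_A a) a * Hopf1_e a := by
  have h := AdjoinRoot.eval₂_root (Hopf1_f a)
  simp only [Hopf1_f, Polynomial.eval₂_sub, Polynomial.eval₂_mul, Polynomial.eval₂_X_pow,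
    Polynomial.eval₂_C, Polynomial.eval₂_X] at h
  exact sub_eq_zero.mp h

private theorem Hopf1_monic (a : R) : (Hopf1_f a).Monic := by
  refine Polynomial.monic_X_pow_sub ?_
  exact (Polynomial.degree_C_mul_X_le a).trans_lt (by norm_num)

private noncomputable def Hopf1_lift (a : R) {B : Type} [CommRing B] [Algebra R B] (y : B)
    (hy : y ^ 4 = algebraMap R B a * y) : Hopf1_A a →ₐ[R] B :=
  AdjoinRoot.liftAlgHom (Hopf1_f a) (Algebra.ofId R B) y (by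
    simp only [Hopf1_f, Polynomial.eval₂_sub, Polynomial.eval₂_mul, Polynomial.eval₂_X_pow,
      Polynomial.eval₂_C, Polynomial.eval₂_X]
    exact sub_eq_zero.mpr hy)

private theorem Hopf1_lift_e (a : R) {B : Type} [CommRing B] [Algebra R B] (y : B)
    (hy : y ^ 4 = algebraMap R B a * y) : Hopf1_lift a y hy (Hopf1_e a) = y :=
  AdjoinRoot.liftAlgHom_root ..

private theorem Hopf1_ext (a : R) {B : Type*} [CommRing B] [Algebra R B]
    {φ ψ : Hopf1_A a →ₐ[R] B} (h : φ (Hopf1_e a) = ψ (Hopf1_e a)) : φ = ψ :=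
  AdjoinRoot.algHom_ext h

variable {a b t : R} (hab : a * b = 2) (ht : 3 * t = 1)

include hab in
private theorem Hopf1_hab (B : Type*) [CommRing B] [Algebra R B] :
    algebraMap R B a * algebraMap R B b = 2 := by
  rw [← map_mul, hab, map_ofNat]

include ht in
private theorem Hopf1_ht (B : Type*) [CommRing B] [Algebra R B] :
    3 * algebraMap R B t = 1 := by
  have := congrArg (algebraMap R B) ht
  rwa [map_mul, map_ofNat, map_one] at this

private noncomputable def Hopf1_D (b t : R) (a : R) : Hopf1_A a ⊗[R] Hopf1_A a :=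
  glaw (algebraMap R (Hopf1_A a ⊗[R] Hopf1_A a) b) (algebraMap R (Hopf1_A a ⊗[R] Hopf1_A a) t)
    (Hopf1_e a ⊗ₜ[R] (1 : Hopf1_A a)) ((1 : Hopf1_A a) ⊗ₜ[R] Hopf1_e a)

private theorem Hopf1_left (a : R) {B : Type*} [CommRing B] [Algebra R B] (x : Hopf1_A a)
    (hx : x ^ 4 = algebraMap R (Hopf1_A a) a * x) :
    (x ⊗ₜ[R] (1 : B)) ^ 4 = algebraMap R (Hopf1_A a ⊗[R] B) a * (x ⊗ₜ[R] (1 : B)) :=
  Hopf1_map_pow (Algebra.TensorProduct.includeLeft : Hopf1_A a →ₐ[R] Hopf1_A a ⊗[R] B) hx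

private theorem Hopf1_right (a : R) {B : Type*} [CommRing B] [Algebra R B] (x : B)
    (hx : x ^ 4 = algebraMap R B a * x) :
    ((1 : Hopf1_A a) ⊗ₜ[R] x) ^ 4 = algebraMap R (Hopf1_A a ⊗[R] B) a *
      ((1 : Hopf1_A a) ⊗ₜ[R] x) :=
  Hopf1_map_pow (Algebra.TensorProduct.includeRight : B →ₐ[R] Hopf1_A a ⊗[R] B) hx

include hab ht in
private theorem Hopf1_D_pow : (Hopf1_D b t a) ^ 4 =
    algebraMap R (Hopf1_A a ⊗[R] Hopf1_A a) a * Hopf1_D b t a :=
  glaw_four (Hopf1_hab hab _) (Hopf1_ht ht _) (Hopf1_left a _ (Hopf1_e_pow a))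
    (Hopf1_right a _ (Hopf1_e_pow a))

private noncomputable def Hopf1_comul (hab : a * b = 2) (ht : 3 * t = 1) :
    Hopf1_A a →ₐ[R] Hopf1_A a ⊗[R] Hopf1_A a :=
  Hopf1_lift a (Hopf1_D b t a) (Hopf1_D_pow hab ht)

private theorem Hopf1_comul_e : Hopf1_comul hab ht (Hopf1_e a) = Hopf1_D b t a :=
  Hopf1_lift_e ..

private noncomputable def Hopf1_counit (a : R) : Hopf1_A a →ₐ[R] R :=
  Hopf1_lift a (0 : R) (by simp)

private theorem Hopf1_counit_e (a : R) : Hopf1_counit a (Hopf1_e a) = 0 :=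
  Hopf1_lift_e ..

private theorem Hopf1_coassoc :
    (Algebra.TensorProduct.assoc R R R (Hopf1_A a) (Hopf1_A a) (Hopf1_A a)).toAlgHom.comp
      ((Algebra.TensorProduct.map (Hopf1_comul hab ht) (.id R (Hopf1_A a))).comp
        (Hopf1_comul hab ht))
      = (Algebra.TensorProduct.map (.id R (Hopf1_A a)) (Hopf1_comul hab ht)).comp
        (Hopf1_comul hab ht) := by
  apply Hopf1_ext
  rw [AlgHom.comp_apply, AlgHom.comp_apply, AlgHom.comp_apply, Hopf1_comul_e]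
  unfold Hopf1_D
  rw [Hopf1_map_glaw, Hopf1_map_glaw, Hopf1_map_glaw]
  rw [Algebra.TensorProduct.map_tmul, Algebra.TensorProduct.map_tmul,
    Algebra.TensorProduct.map_tmul, Algebra.TensorProduct.map_tmul, Hopf1_comul_e, map_one,
    map_one, AlgHom.id_apply]
  have e1 : (Hopf1_D b t a) ⊗ₜ[R] (1 : Hopf1_A a) =
      glaw (algebraMap R _ b) (algebraMap R _ t)
        ((Hopf1_e a ⊗ₜ[R] (1 : Hopf1_A a)) ⊗ₜ[R] (1 : Hopf1_A a))
        (((1 : Hopf1_A a) ⊗ₜ[R] Hopf1_e a) ⊗ₜ[R] (1 : Hopf1_A a)) :=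
    Hopf1_map_glaw (Algebra.TensorProduct.includeLeft :
      (Hopf1_A a ⊗[R] Hopf1_A a) →ₐ[R] (Hopf1_A a ⊗[R] Hopf1_A a) ⊗[R] Hopf1_A a) b t _ _
  have e2 : (1 : Hopf1_A a) ⊗ₜ[R] (Hopf1_D b t a) =
      glaw (algebraMap R _ b) (algebraMap R _ t)
        ((1 : Hopf1_A a) ⊗ₜ[R] (Hopf1_e a ⊗ₜ[R] (1 : Hopf1_A a)))
        ((1 : Hopf1_A a) ⊗ₜ[R] ((1 : Hopf1_A a) ⊗ₜ[R] Hopf1_e a)) :=
    Hopf1_map_glaw (Algebra.TensorProduct.includeRight :
      (Hopf1_A a ⊗[R] Hopf1_A a) →ₐ[R] Hopf1_A a ⊗[R] (Hopf1_A a ⊗[R] Hopf1_A a)) b t _ _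
  rw [e1, e2, Hopf1_map_glaw]
  have hh := glaw_assoc (a := algebraMap R (Hopf1_A a ⊗[R] (Hopf1_A a ⊗[R] Hopf1_A a)) a)
    (Hopf1_hab hab _) (Hopf1_ht ht _)
    (Hopf1_left (B := Hopf1_A a ⊗[R] Hopf1_A a) a _ (Hopf1_e_pow a))
    (Hopf1_right (B := Hopf1_A a ⊗[R] Hopf1_A a) a _
      (Hopf1_left (B := Hopf1_A a) a _ (Hopf1_e_pow a)))
    (Hopf1_right (B := Hopf1_A a ⊗[R] Hopf1_A a) a _
      (Hopf1_right (B := Hopf1_A a) a _ (Hopf1_e_pow a)))
  exact hh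

private theorem Hopf1_rT :
    (Algebra.TensorProduct.map (Hopf1_counit a) (.id R (Hopf1_A a))).comp (Hopf1_comul hab ht)
      = (Algebra.TensorProduct.lid R (Hopf1_A a)).symm := by
  apply Hopf1_ext
  rw [AlgHom.comp_apply, Hopf1_comul_e]
  unfold Hopf1_D
  rw [Hopf1_map_glaw, Algebra.TensorProduct.map_tmul, Algebra.TensorProduct.map_tmul,
    Hopf1_counit_e, TensorProduct.zero_tmul, map_one]
  simp [glaw]

private theorem Hopf1_lT :
    (Algebra.TensorProduct.map (.id R (Hopf1_A a)) (Hopf1_counit a)).comp (Hopf1_comul hab ht)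
      = (Algebra.TensorProduct.rid R R (Hopf1_A a)).symm := by
  apply Hopf1_ext
  rw [AlgHom.comp_apply, Hopf1_comul_e]
  unfold Hopf1_D
  rw [Hopf1_map_glaw, Algebra.TensorProduct.map_tmul, Algebra.TensorProduct.map_tmul,
    Hopf1_counit_e, TensorProduct.tmul_zero, map_one]
  simp [glaw]

private noncomputable abbrev Hopf1_bialg (hab : a * b = 2) (ht : 3 * t = 1) :
    Bialgebra R (Hopf1_A a) :=
  Bialgebra.ofAlgHom (Hopf1_comul hab ht) (Hopf1_counit a) (Hopf1_coassoc hab ht)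
    (Hopf1_rT hab ht) (Hopf1_lT hab ht)

include hab ht in
private theorem Hopf1_anti : glaw (algebraMap R (Hopf1_A a) b) (algebraMap R (Hopf1_A a) t)
    (Hopf1_e a) (Hopf1_e a) = 0 := by
  have h := Hopf1_e_pow a
  have h1 := Hopf1_hab hab (Hopf1_A a)
  have h2 := Hopf1_ht ht (Hopf1_A a)
  unfold glaw
  linear_combination (-3 * algebraMap R (Hopf1_A a) b * algebraMap R (Hopf1_A a) t) * h -
    (3 * algebraMap R (Hopf1_A a) t * Hopf1_e a) * h1 - (2 * Hopf1_e a) * h2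

private noncomputable abbrev Hopf1_hopf (hab : a * b = 2) (ht : 3 * t = 1) :
    HopfAlgebra R (Hopf1_A a) :=
  letI := Hopf1_bialg hab ht
  HopfAlgebra.ofAlgHom (.id R (Hopf1_A a))
    (by
      apply Hopf1_ext
      change (Algebra.TensorProduct.lift (.id R (Hopf1_A a)) (.id R (Hopf1_A a))
        (fun _ _ => Commute.all _ _)) (Hopf1_comul hab ht (Hopf1_e a)) =
          algebraMap R (Hopf1_A a) (Hopf1_counit a (Hopf1_e a))
      rw [Hopf1_comul_e, Hopf1_counit_e, map_zero]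
      unfold Hopf1_D
      rw [Hopf1_map_glaw, Algebra.TensorProduct.lift_tmul, Algebra.TensorProduct.lift_tmul]
      simpa using Hopf1_anti hab ht)
    (by
      apply Hopf1_ext
      change (Algebra.TensorProduct.lift (.id R (Hopf1_A a)) (.id R (Hopf1_A a))
        (fun _ _ => Commute.all _ _)) (Hopf1_comul hab ht (Hopf1_e a)) =
          algebraMap R (Hopf1_A a) (Hopf1_counit a (Hopf1_e a))
      rw [Hopf1_comul_e, Hopf1_counit_e, map_zero]
      unfold Hopf1_D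
      rw [Hopf1_map_glaw, Algebra.TensorProduct.lift_tmul, Algebra.TensorProduct.lift_tmul]
      simpa using Hopf1_anti hab ht)

private theorem Hopf1_comm :
    ((Algebra.TensorProduct.comm R (Hopf1_A a) (Hopf1_A a)).toAlgHom).comp (Hopf1_comul hab ht)
      = Hopf1_comul hab ht := by
  apply Hopf1_ext
  rw [AlgHom.comp_apply, Hopf1_comul_e]
  unfold Hopf1_D
  rw [Hopf1_map_glaw]
  change glaw _ _ ((1 : Hopf1_A a) ⊗ₜ[R] Hopf1_e a) (Hopf1_e a ⊗ₜ[R] (1 : Hopf1_A a)) = _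
  unfold glaw
  ring

private theorem Hopf1_cocomm :
    letI := Hopf1_hopf hab ht
    Coalgebra.IsCocomm R (Hopf1_A a) := by
  let _ := Hopf1_hopf hab ht
  exact ⟨congrArg AlgHom.toLinearMap (Hopf1_comm hab ht)⟩

end hopf

/-- the Hopf algebra of the group scheme `X⁴ = a X`, with its universal property. -/
theorem hopf_one {R : Type} [CommRing R] [Nontrivial R] (a b t : R) (hab : a * b = 2)
    (ht : 3 * t = 1) :
    ∃ (A : Type) (_ : CommRing A) (_ : HopfAlgebra R A) (_ : Coalgebra.IsCocomm R A)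
      (_ : Module.Finite R A) (_ : Module.Free R A) (e : A),
      Module.finrank R A = 4 ∧ e ^ 4 = algebraMap R A a * e ∧
      Coalgebra.comul (R := R) e =
        glaw (algebraMap R (A ⊗[R] A) b) (algebraMap R (A ⊗[R] A) t)
          (e ⊗ₜ[R] (1 : A)) ((1 : A) ⊗ₜ[R] e) ∧
      (∀ (B : Type) [CommRing B] [Algebra R B] (y : B), y ^ 4 = algebraMap R B a * y →
        ∃ φ : A →ₐ[R] B, φ e = y) ∧
      (∀ (B : Type) [CommRing B] [Algebra R B] (φ ψ : A →ₐ[R] B), φ e = ψ e → φ = ψ) := by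
  have hdeg : (Hopf1_f a).natDegree = 4 := by
    unfold Hopf1_f
    compute_degree!
  refine ⟨Hopf1_A a, inferInstance, Hopf1_hopf hab ht, Hopf1_cocomm hab ht,
    .of_basis (AdjoinRoot.powerBasis' (Hopf1_monic a)).basis,
    .of_basis (AdjoinRoot.powerBasis' (Hopf1_monic a)).basis, Hopf1_e a, ?_, Hopf1_e_pow a, ?_,
    ?_, ?_⟩
  · exact (AdjoinRoot.powerBasis' (Hopf1_monic a)).finrank.trans
      ((AdjoinRoot.powerBasis'_dim (Hopf1_monic a)).trans hdeg)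
  · exact Hopf1_comul_e hab ht
  · intro B _ _ y hy
    exact ⟨Hopf1_lift a y hy, Hopf1_lift_e a y hy⟩
  · intro B _ _ φ ψ h
    exact Hopf1_ext a h

end Lit
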