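import Pool.Agent.Lit.S3M
import Pool.Agent.Lit.Hopf1

/-!
# Enc: the points of `X⁴ = a X` and `𝔽₄`

`M` a field, `2 ≠ 0`, `z² + z + 1 = 0`, `x ≠ 0`, `x³ = a`, `a b = 2`, `3 t = 1`.  The solutions of `Y⁴ = a Y` are
`0, x, z x, z² x`; `enc` maps them to `0, 1, ζ^ε, ζ^{2ε}` (`ε = 1` or `2`) and is additive for the group law
`glaw b t`.

PROOFS.  `glaw b t y 0 = y`, `glaw b t y y = 0`, and for `y, y'` two different ones of `x, zx, z²x` the value
is the third: e.g. `glaw b t x (z x) = -z² x + (b t a) x (z² - 2 z - 2 z³) = -z² x + 2 z² x = z² x`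
(`b t a = 2 t`, `3 t = 1`).  In `FF`: `1 + ζ = ζ²` etc.
-/

open Matrix

namespace Lit

open SerreK

private theorem Enc_ze4 : ze ^ 4 = ze := by
  have h := ze_cube
  linear_combination ze * h

private theorem Enc_s1 : 1 + ze = ze ^ 2 := by
  have h := ze_spec
  linear_combination h - ze ^ 2 * two_FF'

private theorem Enc_s2 : 1 + ze ^ 2 = ze := by
  have h := ze_spec
  linear_combination h - ze * two_FF'

private theorem Enc_s3 : ze + ze ^ 2 = 1 := by
  have h := ze_spec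
  linear_combination h - two_FF'

private theorem Enc_dbl (c : FF) : c + c = 0 := by
  linear_combination c * two_FF'

private theorem Enc_neg (c : FF) : -c = c := by
  linear_combination -c * two_FF'

/-- `𝔽₄ = {0, 1, ζ, ζ²}` -/
theorem exists_F4 : ∃ k : Subfield FF, (k : Set FF) = {0, 1, ze, ze ^ 2} ∧ Finite k := by
  have hc := ze_cube
  have h4 := Enc_ze4
  have s1 := Enc_s1
  have s2 := Enc_s2
  have s3 := Enc_s3
  have s1' : ze + 1 = ze ^ 2 := by rw [add_comm]; exact s1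
  have s2' : ze ^ 2 + 1 = ze := by rw [add_comm]; exact s2
  have s3' : ze ^ 2 + ze = 1 := by rw [add_comm]; exact s3
  have m1 : ze * ze = ze ^ 2 := by ring
  have m2 : ze * ze ^ 2 = 1 := by rw [← hc]; ring
  have m3 : ze ^ 2 * ze = 1 := by rw [← hc]; ring
  have m4 : ze ^ 2 * ze ^ 2 = ze := by
    calc ze ^ 2 * ze ^ 2 = ze ^ 4 := by ring
      _ = ze := h4
  have i1 : ze⁻¹ = ze ^ 2 := inv_eq_of_mul_eq_one_right m2
  have i2 : (ze ^ 2)⁻¹ = ze := inv_eq_of_mul_eq_one_right m3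
  let k : Subfield FF :=
    { carrier := {0, 1, ze, ze ^ 2}
      mul_mem' := by
        intro p q hp hq
        simp only [Set.mem_insert_iff, Set.mem_singleton_iff] at hp hq ⊢
        rcases hp with rfl | rfl | rfl | rfl <;> rcases hq with rfl | rfl | rfl | rfl <;>
          simp [m1, m2, m3, m4]
      one_mem' := by simp
      add_mem' := by
        intro p q hp hq
        simp only [Set.mem_insert_iff, Set.mem_singleton_iff] at hp hq ⊢
        rcases hp with rfl | rfl | rfl | rfl <;> rcases hq with rfl | rfl | rfl | rfl <;>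
          simp [s1, s2, s3, s1', s2', s3', Enc_dbl]
      zero_mem' := by simp
      neg_mem' := by
        intro p hp
        rw [Enc_neg]; exact hp
      inv_mem' := by
        intro p hp
        simp only [Set.mem_insert_iff, Set.mem_singleton_iff] at hp ⊢
        rcases hp with rfl | rfl | rfl | rfl
        · left; simp
        · right; left; simp
        · right; right; right; exact i1
        · right; right; left; exact i2 }
  refine ⟨k, rfl, ?_⟩
  have : ((k : Set FF)).Finite := by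
    change Set.Finite ({0, 1, ze, ze ^ 2} : Set FF)
    exact Set.toFinite _
  exact this.to_subtype

section

variable {M : Type} [Field M]

open Classical in
/-- the bijection of the solutions of `Y⁴ = a Y` with `𝔽₄` -/
noncomputable def enc (z x : M) (ε : ℕ) (y : M) : FF :=
  if y = 0 then 0 else if y = x then 1 else if y = z * x then ze ^ ε else ze ^ (2 * ε)

private theorem Enc_glaw {a b t z : M} (hab : a * b = 2) (ht : 3 * t = 1)
    (hz : z ^ 2 + z + 1 = 0) (x : M) (hx : x ^ 3 = a) : glaw b t x (z * x) = z ^ 2 * x := by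
  unfold glaw
  linear_combination (b * t * x * (z ^ 2 - 2 * z - 2 * z ^ 3)) * hx +
    t * x * (z ^ 2 - 2 * z - 2 * z ^ 3) * hab + 2 * x * z ^ 2 * ht + (x - 4 * t * x * z) * hz

private theorem Enc_comm (b t x y : M) : glaw b t x y = glaw b t y x := by
  unfold glaw; ring

private theorem Enc_self {a b t : M} (hab : a * b = 2) (ht : 3 * t = 1) (x : M)
    (hx : x ^ 4 = a * x) : glaw b t x x = 0 := by
  unfold glaw
  linear_combination (-3 * b * t) * hx - 3 * t * x * hab - 2 * x * ht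

private theorem Enc_zero (b t x : M) : glaw b t x 0 = x := by
  unfold glaw; ring

variable {a b t z x : M} (h2 : (2 : M) ≠ 0) (hab : a * b = 2) (ht : 3 * t = 1)
  (hz : z ^ 2 + z + 1 = 0) (hx : x ^ 3 = a)

include h2 hab ht hz hx

private theorem Enc_facts : x ≠ 0 ∧ z ≠ 0 ∧ z ≠ 1 ∧ z ^ 3 = 1 ∧ z ^ 2 ≠ 1 ∧ z ^ 2 ≠ z := by
  have h3 : (3 : M) ≠ 0 := by
    intro h; rw [h, zero_mul] at ht; exact zero_ne_one ht
  have hz1 : z ≠ 1 := by
    rintro rfl; apply h3; linear_combination hz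
  have hz0 : z ≠ 0 := by
    rintro rfl; simp at hz
  refine ⟨?_, hz0, hz1, by linear_combination (z - 1) * hz, ?_, ?_⟩
  · rintro rfl
    apply h2
    rw [← hab, ← hx]; ring
  · intro h
    -- z + 2 = 0, z² = 1 → 4 = 1 → 3 = 0
    apply h3
    have e1 : z + 2 = 0 := by linear_combination hz - h
    linear_combination h - (z - 2) * e1
  · intro h
    apply hz1
    have : z * (z - 1) = 0 := by linear_combination h
    rcases mul_eq_zero.1 this with h' | h'
    · exact absurd h' hz0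
    · linear_combination h'

theorem pts_iff (y : M) : y ^ 4 = a * y ↔ y = 0 ∨ y = x ∨ y = z * x ∨ y = z ^ 2 * x := by
  have key : y ^ 4 - a * y = y * ((y - x) * ((y - z * x) * (y - z ^ 2 * x))) := by
    linear_combination (y * (x * y ^ 2 - x ^ 2 * z * y + (z - 1) * x ^ 3)) * hz + y * hx
  constructor
  · intro h
    have h0 : y * ((y - x) * ((y - z * x) * (y - z ^ 2 * x))) = 0 := by
      rw [← key, h, sub_self]
    rcases mul_eq_zero.1 h0 with h1 | h1
    · exact Or.inl h1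
    rcases mul_eq_zero.1 h1 with h1 | h1
    · exact Or.inr (Or.inl (sub_eq_zero.1 h1))
    rcases mul_eq_zero.1 h1 with h1 | h1
    · exact Or.inr (Or.inr (Or.inl (sub_eq_zero.1 h1)))
    · exact Or.inr (Or.inr (Or.inr (sub_eq_zero.1 h1)))
  · intro h
    have h0 : y * ((y - x) * ((y - z * x) * (y - z ^ 2 * x))) = 0 := by
      rcases h with rfl | rfl | rfl | rfl <;> ring
    rw [← key] at h0
    exact sub_eq_zero.1 h0

omit h2 hab ht hz hx in
private theorem Enc_e0 (ε : ℕ) : enc z x ε 0 = 0 := by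
  simp [enc]

private theorem Enc_ex (ε : ℕ) : enc z x ε x = 1 := by
  obtain ⟨hx0, -, -, -, -, -⟩ := Enc_facts h2 hab ht hz hx
  unfold enc
  rw [if_neg hx0, if_pos rfl]

private theorem Enc_ezx (ε : ℕ) : enc z x ε (z * x) = ze ^ ε := by
  obtain ⟨hx0, hz0, hz1, -, -, -⟩ := Enc_facts h2 hab ht hz hx
  unfold enc
  rw [if_neg (mul_ne_zero hz0 hx0), if_neg, if_pos rfl]
  intro h
  exact hz1 (mul_right_cancel₀ hx0 (by rw [h, one_mul]))

private theorem Enc_ezzx (ε : ℕ) : enc z x ε (z ^ 2 * x) = ze ^ (2 * ε) := by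
  obtain ⟨hx0, hz0, hz1, -, hz2, hz3⟩ := Enc_facts h2 hab ht hz hx
  unfold enc
  rw [if_neg (mul_ne_zero (pow_ne_zero 2 hz0) hx0), if_neg, if_neg]
  · intro h
    exact hz3 (mul_right_cancel₀ hx0 h)
  · intro h
    exact hz2 (mul_right_cancel₀ hx0 (by rw [h, one_mul]))

omit h2 hab ht hz hx in
private theorem Enc_W (ε : ℕ) (hε : ε = 1 ∨ ε = 2) :
    1 + ze ^ ε = ze ^ (2 * ε) ∧ 1 + ze ^ (2 * ε) = ze ^ ε ∧ ze ^ ε + ze ^ (2 * ε) = 1 := by
  have h4 := Enc_ze4
  have s1 := Enc_s1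
  have s2 := Enc_s2
  have s3 := Enc_s3
  rcases hε with rfl | rfl
  · norm_num
    exact ⟨s1, s2, s3⟩
  · norm_num
    rw [h4]
    exact ⟨s2, s1, by rw [add_comm]; exact s3⟩

omit h2 hab ht hz hx in
private theorem Enc_N (ε : ℕ) (hε : ε = 1 ∨ ε = 2) :
    ze ^ ε ≠ 0 ∧ ze ^ (2 * ε) ≠ 0 ∧ ze ^ ε ≠ 1 ∧ ze ^ (2 * ε) ≠ 1 ∧ ze ^ ε ≠ ze ^ (2 * ε) := by
  have h0 := ze_ne_zero
  obtain ⟨w1, w2, w3⟩ := Enc_W ε hε
  have p0 : ze ^ ε ≠ 0 := pow_ne_zero _ h0
  have p1 : ze ^ (2 * ε) ≠ 0 := pow_ne_zero _ h0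
  refine ⟨p0, p1, ?_, ?_, ?_⟩
  · intro h
    rw [h, Enc_dbl] at w1
    exact p1 w1.symm
  · intro h
    rw [h, Enc_dbl] at w2
    exact p0 w2.symm
  · intro h
    rw [h, Enc_dbl] at w3
    exact zero_ne_one w3

theorem enc_add (ε : ℕ) (hε : ε = 1 ∨ ε = 2) (y y' : M) (hy : y ^ 4 = a * y)
    (hy' : y' ^ 4 = a * y') : enc z x ε (glaw b t y y') = enc z x ε y + enc z x ε y' := by
  obtain ⟨hx0, hz0, hz1, hz3, -, -⟩ := Enc_facts h2 hab ht hz hx
  obtain ⟨w1, w2, w3⟩ := Enc_W ε hε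
  have c0 : enc z x ε 0 = 0 := Enc_e0 ε
  have c1 := Enc_ex h2 hab ht hz hx ε
  have c2 := Enc_ezx h2 hab ht hz hx ε
  have c3 := Enc_ezzx h2 hab ht hz hx ε
  have hx1 : (z * x) ^ 3 = a := by rw [mul_pow, hz3, one_mul, hx]
  have hx2 : (z ^ 2 * x) ^ 3 = a := by
    rw [mul_pow, hx]
    linear_combination a * (z ^ 3 + 1) * hz3
  have g1 : glaw b t x (z * x) = z ^ 2 * x := Enc_glaw hab ht hz x hx
  have g2 : glaw b t (z * x) (z ^ 2 * x) = x := by
    have := Enc_glaw hab ht hz (z * x) hx1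
    rw [show z * (z * x) = z ^ 2 * x by ring, show z ^ 2 * (z * x) = z ^ 3 * x by ring, hz3,
      one_mul] at this
    exact this
  have g3 : glaw b t (z ^ 2 * x) x = z * x := by
    have := Enc_glaw hab ht hz (z ^ 2 * x) hx2
    rw [show z * (z ^ 2 * x) = z ^ 3 * x by ring,
      show z ^ 2 * (z ^ 2 * x) = z ^ 3 * (z * x) by ring, hz3, one_mul, one_mul] at this
    exact this
  have g1' : glaw b t (z * x) x = z ^ 2 * x := by rw [Enc_comm]; exact g1
  have g2' : glaw b t (z ^ 2 * x) (z * x) = x := by rw [Enc_comm]; exact g2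
  have g3' : glaw b t x (z ^ 2 * x) = z * x := by rw [Enc_comm]; exact g3
  by_cases hyy : y = y'
  · subst hyy
    rw [Enc_self hab ht y hy, c0, Enc_dbl]
  rcases (pts_iff h2 hab ht hz hx y).1 hy with h | h | h | h
  · rw [h, Enc_comm, Enc_zero, c0, zero_add]
  · rcases (pts_iff h2 hab ht hz hx y').1 hy' with h' | h' | h' | h'
    · rw [h', Enc_zero, c0, add_zero]
    · exact absurd (h.trans h'.symm) hyy
    · rw [h, h', g1, c1, c2, c3, w1]
    · rw [h, h', g3', c1, c2, c3, w2]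
  · rcases (pts_iff h2 hab ht hz hx y').1 hy' with h' | h' | h' | h'
    · rw [h', Enc_zero, c0, add_zero]
    · rw [h, h', g1', c1, c2, c3, add_comm, w1]
    · exact absurd (h.trans h'.symm) hyy
    · rw [h, h', g2, c1, c2, c3, w3]
  · rcases (pts_iff h2 hab ht hz hx y').1 hy' with h' | h' | h' | h'
    · rw [h', Enc_zero, c0, add_zero]
    · rw [h, h', g3, c1, c2, c3, add_comm, w2]
    · rw [h, h', g2', c1, c2, c3, add_comm, w3]
    · exact absurd (h.trans h'.symm) hyy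

private theorem Enc_step (ε : ℕ) (hε : ε = 1 ∨ ε = 2) (y : M) (hy : y ^ 4 = a * y) :
    enc z x ε (z * y) = ze ^ ε * enc z x ε y := by
  obtain ⟨hx0, hz0, hz1, hz3, -, -⟩ := Enc_facts h2 hab ht hz hx
  have c0 : enc z x ε 0 = 0 := Enc_e0 ε
  have c1 := Enc_ex h2 hab ht hz hx ε
  have c2 := Enc_ezx h2 hab ht hz hx ε
  have c3 := Enc_ezzx h2 hab ht hz hx ε
  rcases (pts_iff h2 hab ht hz hx y).1 hy with h | h | h | h
  · rw [h, mul_zero, c0, mul_zero]
  · rw [h, c1, c2, mul_one]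
  · rw [h, show z * (z * x) = z ^ 2 * x by ring, c2, c3, ← pow_add, two_mul]
  · rw [h, show z * (z ^ 2 * x) = z ^ 3 * x by ring, hz3, one_mul, c1, c3, ← pow_add,
      show ε + 2 * ε = 3 * ε by ring, pow_mul, ze_cube, one_pow]

theorem enc_mul (ε : ℕ) (hε : ε = 1 ∨ ε = 2) (n : ℕ) (y : M) (hy : y ^ 4 = a * y) :
    enc z x ε (z ^ n * y) = ze ^ (ε * n) * enc z x ε y := by
  obtain ⟨hx0, hz0, hz1, hz3, -, -⟩ := Enc_facts h2 hab ht hz hx
  induction n generalizing y with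
  | zero => simp
  | succ n ih =>
    have hzy : (z * y) ^ 4 = a * (z * y) := by
      rw [mul_pow, hy]
      linear_combination a * y * z * hz3
    rw [show z ^ (n + 1) * y = z ^ n * (z * y) by ring, ih _ hzy,
      Enc_step h2 hab ht hz hx ε hε y hy, ← mul_assoc, ← pow_add, mul_add, mul_one]

theorem enc_inj (ε : ℕ) (hε : ε = 1 ∨ ε = 2) (y y' : M) (hy : y ^ 4 = a * y)
    (hy' : y' ^ 4 = a * y') (h : enc z x ε y = enc z x ε y') : y = y' := by
  obtain ⟨p1, p2, p3, p4, p5⟩ := Enc_N ε hε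
  have c0 : enc z x ε 0 = 0 := Enc_e0 ε
  have c1 := Enc_ex h2 hab ht hz hx ε
  have c2 := Enc_ezx h2 hab ht hz hx ε
  have c3 := Enc_ezzx h2 hab ht hz hx ε
  rcases (pts_iff h2 hab ht hz hx y).1 hy with e | e | e | e <;>
    rcases (pts_iff h2 hab ht hz hx y').1 hy' with e' | e' | e' | e' <;>
    rw [e, e'] at h ⊢ <;> simp only [c0, c1, c2, c3] at h <;> exfalso
  · exact zero_ne_one h
  · exact p1 h.symm
  · exact p2 h.symm
  · exact one_ne_zero h
  · exact p3 h.symm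
  · exact p4 h.symm
  · exact p1 h
  · exact p3 h
  · exact p5 h
  · exact p2 h
  · exact p4 h
  · exact p5 h.symm

theorem enc_surj (ε : ℕ) (hε : ε = 1 ∨ ε = 2) (c : FF) :
    (c = 0 ∨ c = 1 ∨ c = ze ∨ c = ze ^ 2) ↔ ∃ y : M, y ^ 4 = a * y ∧ enc z x ε y = c := by
  have c0 : enc z x ε 0 = 0 := Enc_e0 ε
  have c1 := Enc_ex h2 hab ht hz hx ε
  have c2 := Enc_ezx h2 hab ht hz hx ε
  have c3 := Enc_ezzx h2 hab ht hz hx ε
  have q := fun y => (pts_iff h2 hab ht hz hx y)
  have h4 := Enc_ze4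
  have key : (∃ y : M, y ^ 4 = a * y ∧ enc z x ε y = c) ↔
      (c = 0 ∨ c = 1 ∨ c = ze ^ ε ∨ c = ze ^ (2 * ε)) := by
    constructor
    · rintro ⟨y, hy, rfl⟩
      rcases (q y).1 hy with e | e | e | e <;> rw [e]
      · exact Or.inl c0
      · exact Or.inr (Or.inl c1)
      · exact Or.inr (Or.inr (Or.inl c2))
      · exact Or.inr (Or.inr (Or.inr c3))
    · rintro (e | e | e | e) <;> rw [e]
      · exact ⟨0, (q 0).2 (Or.inl rfl), c0⟩
      · exact ⟨x, (q x).2 (Or.inr (Or.inl rfl)), c1⟩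
      · exact ⟨z * x, (q _).2 (Or.inr (Or.inr (Or.inl rfl))), c2⟩
      · exact ⟨z ^ 2 * x, (q _).2 (Or.inr (Or.inr (Or.inr rfl))), c3⟩
  rw [key]
  rcases hε with rfl | rfl
  · norm_num
  · norm_num
    rw [h4]
    tauto

end

end Lit
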