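import Pool.Agent.Lit.Stmt

/-!
# The main theorem in terms of the statement-level definitions
-/

open Matrix
open scoped QuadraticAlgebra Pointwise TensorProduct

namespace LitS

open SerreK

theorem fin_flat {M : Type} [i1 : Field M] [i2 : Algebra Lit.K M] [i3 : Algebra Lit.O M]
    [i4 : IsScalarTower Lit.O Lit.K M] [i5 : FiniteDimensional Lit.K M] [i6 : IsGalois Lit.K M]
    (ρ : Gal(M/Lit.K) →* GL (Fin 2) FF) (P : Ideal (Lit.RI M)) [hP : P.IsPrime]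
    (h : Lit.FiniteFlatAt ρ P) :
    FiniteFlatAt (E := ⟨M, i1, i2, i3, i4, i5, i6⟩) ρ P hP := by
  obtain ⟨A, hA1, hA2, hA3, hA4, hA5, k, hk, b, ι, h1, h2, h3, h4, h5⟩ := h
  refine ⟨⟨A, hA1, hA2, hA3, hA4, hA5⟩, k, ι, h1, hk, ?_, h2, h4, h5⟩
  have key : ∀ v : Fin 2 → FF, v ∈ Set.range ι ↔
      ∃ c ∈ k, ∃ d ∈ k, v = c • b 0 + d • b 1 := by
    intro v
    rw [h3, SetLike.mem_coe]
    have h7 : Set.range b = {b 0, b 1} := by
      ext x
      simp only [Set.mem_range, Set.mem_insert_iff, Set.mem_singleton_iff]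
      constructor
      · rintro ⟨i, rfl⟩
        fin_cases i
        · exact Or.inl rfl
        · exact Or.inr rfl
      · rintro (rfl | rfl)
        · exact ⟨0, rfl⟩
        · exact ⟨1, rfl⟩
    rw [h7, Submodule.mem_span_pair]
    constructor
    · rintro ⟨c, d, hcd⟩
      exact ⟨c, c.2, d, d.2, hcd.symm⟩
    · rintro ⟨c, hc, d, hd, hcd⟩
      exact ⟨⟨c, hc⟩, ⟨d, hd⟩, hcd.symm⟩
  exact ⟨b, key⟩

theorem fin_main : ∃ (E : Ext) (ρ : Rep E), Irred ρ ∧ SerreConductor ρ (elt 2 5) ∧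
    TrivialCharacter ρ ∧
    (∀ (P : Ideal (In E)) (hP : P.IsPrime), (2 : In E) ∈ P → FiniteFlatAt ρ P hP) ∧
    ∀ Φ : HR (elt 2 5) →+* FF, ¬ Attached ρ Φ := by
  obtain ⟨M, i1, i2, i3, i4, i5, i6, ρ, h1, h2, h3, h4, h5⟩ := Lit.main
  refine ⟨⟨M, i1, i2, i3, i4, i5, i6⟩, ρ, h1, h2, ?_, ?_, ?_⟩
  · intro P hP h0 h2' σ hσ
    apply h3 P hP h0 h2' σ
    have h6 : P ^ (0 + 1) = P := by rw [zero_add, pow_one]
    have h7 : σ ∈ (P ^ (0 + 1)).inertia (Ga ⟨M, i1, i2, i3, i4, i5, i6⟩) := hσ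
    rw [h6] at h7
    exact h7
  · intro P hP h2'
    exact fin_flat ρ P (hP := hP) (h4 P hP h2')
  · intro Φ hΦ
    exact h5 Φ hΦ

end LitS
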