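import Pool.Agent.Lit.Hopf1

/-!
# Hopf2: the product of two group schemes `X⁴ = a₁ X` and `Y⁴ = a₂ Y`

PROOF.  `A = A₁ ⊗[R] A₂` with `A₁, A₂` from `hopf_one`, `e₁ = e ⊗ 1`, `e₂ = 1 ⊗ e`, with Mathlib's
`HopfAlgebra` structure on the tensor product (`Mathlib/RingTheory/HopfAlgebra/TensorProduct.lean`);
`comul (x ⊗ y) = tensorTensorTensorComm (comul x ⊗ comul y)`, so on `e ⊗ 1` it is the image of `comul e` under
the map induced by `includeLeft`.  (Or build the Hopf algebra directly.)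
-/

open scoped TensorProduct Polynomial

namespace Lit

private theorem hopf2_map {A B : Type*} [CommRing A] [CommRing B] (f : A →+* B) (b t x y : A) :
    f (glaw b t x y) = glaw (f b) (f t) (f x) (f y) := by
  unfold glaw
  simp only [map_add, map_mul, map_sub, map_pow, map_ofNat]

private theorem hopf2_left {R A1 A2 : Type} [CommRing R] [CommRing A1] [CommRing A2]
    [HopfAlgebra R A1] [HopfAlgebra R A2] (b t : R) (e : A1)
    (he : Coalgebra.comul (R := R) e =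
        glaw (algebraMap R (A1 ⊗[R] A1) b) (algebraMap R (A1 ⊗[R] A1) t)
          (e ⊗ₜ[R] (1 : A1)) ((1 : A1) ⊗ₜ[R] e)) :
    Coalgebra.comul (R := R) (e ⊗ₜ[R] (1 : A2)) =
        glaw (algebraMap R ((A1 ⊗[R] A2) ⊗[R] (A1 ⊗[R] A2)) b)
          (algebraMap R ((A1 ⊗[R] A2) ⊗[R] (A1 ⊗[R] A2)) t)
          ((e ⊗ₜ[R] (1 : A2)) ⊗ₜ[R] (1 : A1 ⊗[R] A2)) ((1 : A1 ⊗[R] A2) ⊗ₜ[R] (e ⊗ₜ[R] (1 : A2))) := by
  have key : ∀ z : A1 ⊗[R] A1,
      TensorProduct.AlgebraTensorModule.tensorTensorTensorComm R R R R A1 A1 A2 A2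
        (z ⊗ₜ[R] ((1 : A2) ⊗ₜ[R] (1 : A2))) =
      Algebra.TensorProduct.map (Algebra.TensorProduct.includeLeft : A1 →ₐ[R] A1 ⊗[R] A2)
        (Algebra.TensorProduct.includeLeft : A1 →ₐ[R] A1 ⊗[R] A2) z := by
    intro z
    induction z with
    | zero => simp only [TensorProduct.zero_tmul, map_zero]
    | add x y hx hy => simp only [TensorProduct.add_tmul, map_add, hx, hy]
    | tmul x y => rfl
  rw [TensorProduct.comul_tmul, Bialgebra.comul_one, Algebra.TensorProduct.one_def, key, he]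
  have h2 := hopf2_map ((Algebra.TensorProduct.map
    (Algebra.TensorProduct.includeLeft : A1 →ₐ[R] A1 ⊗[R] A2)
        (Algebra.TensorProduct.includeLeft : A1 →ₐ[R] A1 ⊗[R] A2) :
        A1 ⊗[R] A1 →ₐ[R] (A1 ⊗[R] A2) ⊗[R] (A1 ⊗[R] A2)).toRingHom)
    (algebraMap R (A1 ⊗[R] A1) b) (algebraMap R (A1 ⊗[R] A1) t)
          (e ⊗ₜ[R] (1 : A1)) ((1 : A1) ⊗ₜ[R] e)
  simp only [AlgHom.toRingHom_eq_coe, RingHom.coe_coe, AlgHom.commutes, Algebra.TensorProduct.map_tmul, map_one,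
    Algebra.TensorProduct.includeLeft_apply] at h2
  exact h2

private theorem hopf2_right {R A1 A2 : Type} [CommRing R] [CommRing A1] [CommRing A2]
    [HopfAlgebra R A1] [HopfAlgebra R A2] (b t : R) (e : A2)
    (he : Coalgebra.comul (R := R) e =
        glaw (algebraMap R (A2 ⊗[R] A2) b) (algebraMap R (A2 ⊗[R] A2) t)
          (e ⊗ₜ[R] (1 : A2)) ((1 : A2) ⊗ₜ[R] e)) :
    Coalgebra.comul (R := R) ((1 : A1) ⊗ₜ[R] e) =
        glaw (algebraMap R ((A1 ⊗[R] A2) ⊗[R] (A1 ⊗[R] A2)) b)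
          (algebraMap R ((A1 ⊗[R] A2) ⊗[R] (A1 ⊗[R] A2)) t)
          (((1 : A1) ⊗ₜ[R] e) ⊗ₜ[R] (1 : A1 ⊗[R] A2)) ((1 : A1 ⊗[R] A2) ⊗ₜ[R] ((1 : A1) ⊗ₜ[R] e)) := by
  have key : ∀ z : A2 ⊗[R] A2,
      TensorProduct.AlgebraTensorModule.tensorTensorTensorComm R R R R A1 A1 A2 A2
        (((1 : A1) ⊗ₜ[R] (1 : A1)) ⊗ₜ[R] z) =
      Algebra.TensorProduct.map (Algebra.TensorProduct.includeRight : A2 →ₐ[R] A1 ⊗[R] A2)
        (Algebra.TensorProduct.includeRight : A2 →ₐ[R] A1 ⊗[R] A2) z := by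
    intro z
    induction z with
    | zero => simp only [TensorProduct.tmul_zero, map_zero]
    | add x y hx hy => simp only [TensorProduct.tmul_add, map_add, hx, hy]
    | tmul x y => rfl
  rw [TensorProduct.comul_tmul, Bialgebra.comul_one, Algebra.TensorProduct.one_def, key, he]
  have h2 := hopf2_map ((Algebra.TensorProduct.map
    (Algebra.TensorProduct.includeRight : A2 →ₐ[R] A1 ⊗[R] A2)
        (Algebra.TensorProduct.includeRight : A2 →ₐ[R] A1 ⊗[R] A2) :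
        A2 ⊗[R] A2 →ₐ[R] (A1 ⊗[R] A2) ⊗[R] (A1 ⊗[R] A2)).toRingHom)
    (algebraMap R (A2 ⊗[R] A2) b) (algebraMap R (A2 ⊗[R] A2) t)
          (e ⊗ₜ[R] (1 : A2)) ((1 : A2) ⊗ₜ[R] e)
  simp only [AlgHom.toRingHom_eq_coe, RingHom.coe_coe, AlgHom.commutes, Algebra.TensorProduct.map_tmul, map_one,
    Algebra.TensorProduct.includeRight_apply] at h2
  exact h2

theorem hopf_two {R : Type} [CommRing R] [Nontrivial R] (a1 b1 a2 b2 t : R) (hab1 : a1 * b1 = 2)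
    (hab2 : a2 * b2 = 2) (ht : 3 * t = 1) :
    ∃ (A : Type) (_ : CommRing A) (_ : HopfAlgebra R A) (_ : Coalgebra.IsCocomm R A)
      (_ : Module.Finite R A) (_ : Module.Free R A) (e1 e2 : A),
      Module.finrank R A = 16 ∧ e1 ^ 4 = algebraMap R A a1 * e1 ∧ e2 ^ 4 = algebraMap R A a2 * e2 ∧
      Coalgebra.comul (R := R) e1 =
        glaw (algebraMap R (A ⊗[R] A) b1) (algebraMap R (A ⊗[R] A) t)
          (e1 ⊗ₜ[R] (1 : A)) ((1 : A) ⊗ₜ[R] e1) ∧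
      Coalgebra.comul (R := R) e2 =
        glaw (algebraMap R (A ⊗[R] A) b2) (algebraMap R (A ⊗[R] A) t)
          (e2 ⊗ₜ[R] (1 : A)) ((1 : A) ⊗ₜ[R] e2) ∧
      (∀ (B : Type) [CommRing B] [Algebra R B] (y1 y2 : B), y1 ^ 4 = algebraMap R B a1 * y1 →
        y2 ^ 4 = algebraMap R B a2 * y2 → ∃ φ : A →ₐ[R] B, φ e1 = y1 ∧ φ e2 = y2) ∧
      (∀ (B : Type) [CommRing B] [Algebra R B] (φ ψ : A →ₐ[R] B), φ e1 = ψ e1 → φ e2 = ψ e2 →
        φ = ψ) := by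
  obtain ⟨A1, iC1, iH1, iCo1, iF1, iFr1, e, hr1, he1, hc1, hex1, hun1⟩ :=
    hopf_one a1 b1 t hab1 ht
  obtain ⟨A2, iC2, iH2, iCo2, iF2, iFr2, f, hr2, he2, hc2, hex2, hun2⟩ :=
    hopf_one a2 b2 t hab2 ht
  refine ⟨A1 ⊗[R] A2, inferInstance, inferInstance, inferInstance, inferInstance, inferInstance,
    e ⊗ₜ[R] 1, 1 ⊗ₜ[R] f, ?_, ?_, ?_, hopf2_left b1 t e hc1, hopf2_right b2 t f hc2, ?_, ?_⟩
  · rw [Module.finrank_tensorProduct, hr1, hr2]
  · rw [Algebra.TensorProduct.tmul_pow, he1, one_pow, Algebra.TensorProduct.algebraMap_apply,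
      Algebra.TensorProduct.tmul_mul_tmul, one_mul]
  · rw [Algebra.TensorProduct.tmul_pow, he2, one_pow, Algebra.TensorProduct.algebraMap_apply',
      Algebra.TensorProduct.tmul_mul_tmul, one_mul]
  · intro B _ _ y1 y2 h1 h2
    obtain ⟨φ1, hφ1⟩ := hex1 B y1 h1
    obtain ⟨φ2, hφ2⟩ := hex2 B y2 h2
    refine ⟨Algebra.TensorProduct.lift φ1 φ2 (fun _ _ => Commute.all _ _), ?_, ?_⟩
    · rw [Algebra.TensorProduct.lift_tmul, map_one, mul_one, hφ1]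
    · rw [Algebra.TensorProduct.lift_tmul, map_one, one_mul, hφ2]
  · intro B _ _ φ ψ h1 h2
    refine Algebra.TensorProduct.ext ?_ ?_
    · exact hun1 B _ _ h1
    · exact hun2 B _ _ h2

end Lit
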