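import Pool.Agent.Lit.Dec
import Pool.Agent.Lit.BaseM

/-!
# Kum: Kummer generators of the two characters of the decomposition group at `2`

PROOFS. `kum_one`: `c c' = 2p`, `d d' = 2q`, `p, q ∉ P` and exactly one of `c, c'` (of `d, d'`) is in `P`.
* `c ∉ P`, `d ∉ P`: `x = 2/y`, `ε = 2`, `a = x³ = 8/(4cd) = 2/(cd)` (`s = cd`: `s a = 2`), `b = 2/a = cd`.
* `c ∉ P`, `d ∈ P` (so `d' ∉ P`): `x = y/2`, `ε = 1`, `a = x³ = cd/2 = c q / d'` (`s = d'`),
  `b = 2/a = 2 d'/(c q)` (`s = c q ∉ P`); the same for `c ∈ P`, `d ∉ P`.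
* `c, d ∈ P`: `x = y/2`, `ε = 1`, `a = cd/2 = 2 p q/(c' d')` (`s = c' d'`), `b = 2/a = c' d'/(p q)` (`s = pq`).
In all cases `σ x = z^{ε m} x` on the decomposition group (`z³ = 1`, `σ (2/y) = z^{-m} 2/y`), so `a = x³` and
`b = 2/a` are fixed.  `kummer`: apply `kum_one` with `y = t₁' t₂'` (`y³ = 4 u₁' u₂'`, `m = k + j`) and
`y = t₁' t₂` (`y³ = 4 u₁' u₂`, `m = k + 2j`), `j = π σ 0`; `t = 1/3` (`s = 3 ∉ P`).
-/

open Matrix
open scoped QuadraticAlgebra Pointwise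

namespace Lit

open SerreK

variable {M : Type} [Field M] [Algebra K M] [Algebra O M] [IsScalarTower O K M]
  [FiniteDimensional K M] [IsGalois K M] {D : Dat (RI M)} {ρ : Gal(M/K) →* GL (Fin 2) FF}

omit [FiniteDimensional K M] [IsGalois K M] in
private theorem Kum_aux (P : Ideal (RI M)) [P.IsPrime] (x z : M) (hx : x ≠ 0) (hz : z ^ 3 = 1)
    (n : Gal(M/K) → ℕ)
    (hσ : ∀ σ ∈ MulAction.stabilizer Gal(M/K) P, σ x = z ^ n σ * x)
    (s t s' t' : RI M) (hs : s ∉ P) (hs' : s' ∉ P) (h1 : (s : M) * x ^ 3 = t)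
    (h2 : (s' : M) * 2 = t' * x ^ 3) :
    ∃ a b : decompRing P, a * b = 2 ∧ x ^ 3 = a := by
  have hfix : ∀ σ ∈ MulAction.stabilizer Gal(M/K) P, σ (x ^ 3) = x ^ 3 := by
    intro σ hs
    rw [map_pow, hσ σ hs, mul_pow, ← pow_mul, mul_comm (n σ) 3, pow_mul, hz, one_pow, one_mul]
  have hx3 : x ^ 3 ≠ 0 := pow_ne_zero 3 hx
  refine ⟨⟨x ^ 3, hfix, s, t, hs, h1⟩, ⟨2 / x ^ 3, ?_, s', t', hs', ?_⟩, ?_, rfl⟩
  · intro σ hs
    rw [map_div₀, hfix σ hs, map_ofNat]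
  · rw [← mul_div_assoc, h2, mul_div_assoc, div_self hx3, mul_one]
  · apply Subtype.ext
    show x ^ 3 * (2 / x ^ 3) = 2
    rw [mul_div_assoc', mul_comm, mul_div_assoc, div_self hx3, mul_one]

theorem kum_one (P : Ideal (RI M)) [P.IsPrime] (h2 : (2 : RI M) ∈ P)
    (c c' d d' p q : RI M) (hc : c * c' = 2 * p) (hd : d * d' = 2 * q) (hp : p ∉ P) (hq : q ∉ P)
    (hcc : (c ∈ P ∧ c' ∉ P) ∨ (c ∉ P ∧ c' ∈ P)) (hdd : (d ∈ P ∧ d' ∉ P) ∨ (d ∉ P ∧ d' ∈ P))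
    (y z : M) (hy : y ^ 3 = 4 * (c : M) * (d : M)) (hy0 : y ≠ 0) (hz : z ^ 3 = 1)
    (m : Gal(M/K) → ℕ) (hσz : ∀ σ ∈ MulAction.stabilizer Gal(M/K) P, σ z = z)
    (hσ : ∀ σ ∈ MulAction.stabilizer Gal(M/K) P, σ y = z ^ m σ * y) :
    ∃ (x : M) (a b : decompRing P) (ε : ℕ), (ε = 1 ∨ ε = 2) ∧ a * b = 2 ∧ x ^ 3 = a ∧
      ∀ σ ∈ MulAction.stabilizer Gal(M/K) P, σ x = z ^ (ε * m σ) * x := by
  have hP : P.IsPrime := inferInstance
  have two0 : (2 : M) ≠ 0 := two_ne_zero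
  have c2 : ((2 : RI M) : M) = 2 := rfl
  have hmem0 : ∀ u : RI M, u ∉ P → (u : M) ≠ 0 := by
    intro u hu h0
    apply hu
    have h1 : u = 0 := Subtype.ext h0
    rw [h1]
    exact P.zero_mem
  have hmul : ∀ u v : RI M, u ∉ P → v ∉ P → u * v ∉ P := fun u v hu hv h =>
    (hP.mem_or_mem h).elim hu hv
  have hcM : (c : M) * (c' : M) = 2 * (p : M) := by
    have := congrArg (fun u : RI M => (u : M)) hc
    push_cast at this
    exact this
  have hdM : (d : M) * (d' : M) = 2 * (q : M) := by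
    have := congrArg (fun u : RI M => (u : M)) hd
    push_cast at this
    exact this
  have hp0 := hmem0 p hp
  have hq0 := hmem0 q hq
  by_cases hboth : c ∉ P ∧ d ∉ P
  · obtain ⟨hcP, hdP⟩ := hboth
    have hc0 := hmem0 c hcP
    have hd0 := hmem0 d hdP
    have hσx : ∀ σ ∈ MulAction.stabilizer Gal(M/K) P, σ (2 / y) = z ^ (2 * m σ) * (2 / y) := by
      intro σ hs
      have hz0 : z ≠ 0 := by
        intro h0
        rw [h0] at hz
        norm_num at hz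
      rw [map_div₀, hσ σ hs, map_ofNat]
      have h1 : z ^ (2 * m σ) * z ^ m σ = 1 := by
        rw [← pow_add, show 2 * m σ + m σ = 3 * m σ by ring, pow_mul, hz, one_pow]
      have h3 : z ^ m σ ≠ 0 := pow_ne_zero _ hz0
      rw [div_eq_iff (mul_ne_zero h3 hy0)]
      have h4 : z ^ (2 * m σ) * (2 / y) * (z ^ m σ * y) =
          (z ^ (2 * m σ) * z ^ m σ) * (2 * (y / y)) := by ring
      rw [h4, h1, div_self hy0]
      ring
    obtain ⟨a, b, hab, hxa⟩ := Kum_aux P (2 / y) z (div_ne_zero two0 hy0) hz (fun σ => 2 * m σ)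
      hσx (c * d) 2 1 (c * d) (hmul c d hcP hdP)
      (fun h => hP.ne_top ((Ideal.eq_top_iff_one P).2 h)) (by
        rw [div_pow, hy]
        push_cast
        rw [c2]
        field_simp
        norm_num) (by
        rw [div_pow, hy]
        push_cast
        field_simp
        norm_num)
    exact ⟨2 / y, a, b, 2, Or.inr rfl, hab, hxa, hσx⟩
  · have hσx : ∀ σ ∈ MulAction.stabilizer Gal(M/K) P, σ (y / 2) = z ^ (1 * m σ) * (y / 2) := by
      intro σ hs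
      rw [map_div₀, hσ σ hs, map_ofNat, one_mul]
      ring
    have hx3 : (y / 2) ^ 3 = (c : M) * d / 2 := by
      rw [div_pow, hy]
      ring
    have hx0 : y / 2 ≠ 0 := div_ne_zero hy0 two0
    suffices h : ∃ s t s' t' : RI M, s ∉ P ∧ s' ∉ P ∧ (s : M) * ((c : M) * d / 2) = t ∧
        (s' : M) * 2 = t' * ((c : M) * d / 2) by
      obtain ⟨s, t, s', t', hs, hs', h1, h2⟩ := h
      obtain ⟨a, b, hab, hxa⟩ := Kum_aux P (y / 2) z hx0 hz (fun σ => 1 * m σ)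
        hσx s t s' t' hs hs' (by rw [hx3]; exact h1) (by rw [hx3]; exact h2)
      exact ⟨y / 2, a, b, 1, Or.inl rfl, hab, hxa, hσx⟩
    rcases hcc with ⟨hcP, hc'P⟩ | ⟨hcP, hc'P⟩
    · rcases hdd with ⟨hdP, hd'P⟩ | ⟨hdP, hd'P⟩
      · refine ⟨c' * d', 2 * (p * q), p * q, c' * d', hmul _ _ hc'P hd'P, hmul _ _ hp hq, ?_, ?_⟩
        · push_cast
          rw [c2]
          linear_combination ((d : M) * d' / 2) * hcM + (p : M) * hdM
        · push_cast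
          linear_combination (-(d : M) * d' / 2) * hcM - (p : M) * hdM
      · refine ⟨c', p * d, p * d, 2 * c', hc'P, hmul _ _ hp hdP, ?_, ?_⟩
        · push_cast
          linear_combination ((d : M) / 2) * hcM
        · push_cast
          rw [c2]
          linear_combination (-(d : M)) * hcM
    · rcases hdd with ⟨hdP, hd'P⟩ | ⟨hdP, hd'P⟩
      · refine ⟨d', c * q, c * q, 2 * d', hd'P, hmul _ _ hcP hq, ?_, ?_⟩
        · push_cast
          linear_combination ((c : M) / 2) * hdM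
        · push_cast
          rw [c2]
          linear_combination (-(c : M)) * hdM
      · exact absurd ⟨hcP, hdP⟩ hboth

theorem third_mem (P : Ideal (RI M)) [P.IsPrime] (h2 : (2 : RI M) ∈ P) :
    ∃ t : decompRing P, 3 * t = 1 := by
  have hP : P.IsPrime := inferInstance
  have three0 : (3 : M) ≠ 0 := three_ne_zero
  refine ⟨⟨1 / 3, ?_, 3, 1, ?_, ?_⟩, ?_⟩
  · intro σ _
    rw [map_div₀, map_one, map_ofNat]
  · intro h3
    apply hP.ne_top
    rw [Ideal.eq_top_iff_one]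
    have h4 : (3 : RI M) - 2 ∈ P := P.sub_mem h3 h2
    have h5 : (3 : RI M) - 2 = 1 := by norm_num
    rwa [h5] at h4
  · have c3 : ((3 : RI M) : M) = 3 := rfl
    push_cast
    rw [c3, mul_one_div, div_self three0]
  · apply Subtype.ext
    show (3 : M) * (1 / 3) = 1
    rw [mul_one_div, div_self three0]

theorem kummer (A : Act D Gal(M/K) ρ) (P : Ideal (RI M)) [P.IsPrime] (h2 : (2 : RI M) ∈ P) :
    ∃ (x1 x2 : M) (a1 b1 a2 b2 : decompRing P) (ε1 ε2 : ℕ),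
      (ε1 = 1 ∨ ε1 = 2) ∧ (ε2 = 1 ∨ ε2 = 2) ∧ a1 * b1 = 2 ∧ a2 * b2 = 2 ∧
      x1 ^ 3 = a1 ∧ x2 ^ 3 = a2 ∧
      (∀ σ ∈ MulAction.stabilizer Gal(M/K) P,
        σ x1 = (D.z : M) ^ (ε1 * ((A.k σ : ℕ) + (A.π σ 0 : ℕ))) * x1) ∧
      (∀ σ ∈ MulAction.stabilizer Gal(M/K) P,
        σ x2 = (D.z : M) ^ (ε2 * ((A.k σ : ℕ) + 2 * (A.π σ 0 : ℕ))) * x2) := by
  obtain ⟨hp, hq, _⟩ := dec_units P h2
  have c2 : ((2 : RI M) : M) = 2 := rfl
  have hq' : -algebraMap O (RI M) (27 * (4 * w + 7)) ∉ P := fun h => hq (P.neg_mem_iff.mp h)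
  have hzM : (D.z : M) ^ 3 = 1 := by
    have h := D.hz
    have h' : (D.z : RI M) ^ 3 = 1 := by linear_combination (D.z - 1) * h
    have := congrArg (fun u : RI M => (u : M)) h'
    push_cast at this
    exact this
  have hsz : ∀ σ ∈ MulAction.stabilizer Gal(M/K) P, σ (D.z : M) = D.z := by
    intro σ hσ
    have h := dec_z D P h2 σ hσ
    exact congrArg (fun u : RI M => (u : M)) h
  have e1 : D.u1' * D.u1 = 2 * algebraMap O (RI M) (2 * w + 3) := by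
    rw [mul_comm]; exact D.u1_mul
  have e2 : D.u2' * D.u2 = 2 * (-algebraMap O (RI M) (27 * (4 * w + 7))) := by
    rw [mul_comm, D.u2_mul, map_mul]
    have h27 : algebraMap O (RI M) 27 = 27 := map_ofNat _ _
    rw [h27]; ring
  have e2' : D.u2 * D.u2' = 2 * (-algebraMap O (RI M) (27 * (4 * w + 7))) := by
    rw [mul_comm]; exact e2
  have hu1 : (D.u1' ∈ P ∧ D.u1 ∉ P) ∨ (D.u1' ∉ P ∧ D.u1 ∈ P) :=
    (dec_u1 D P h2).elim (fun h => Or.inr ⟨h.2, h.1⟩) (fun h => Or.inl ⟨h.2, h.1⟩)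
  have hu2 : (D.u2' ∈ P ∧ D.u2 ∉ P) ∨ (D.u2' ∉ P ∧ D.u2 ∈ P) :=
    (dec_u2 D P h2).elim (fun h => Or.inr ⟨h.2, h.1⟩) (fun h => Or.inl ⟨h.2, h.1⟩)
  have ht1 : (D.t1' : M) ^ 3 = 2 * D.u1' := by
    have := congrArg (fun u : RI M => (u : M)) D.hu1'
    push_cast at this
    rw [c2] at this
    rw [this]
    unfold Dat.t1'
    push_cast
    rfl
  have ht2' : (D.t2' : M) ^ 3 = 2 * D.u2' := by
    have := congrArg (fun u : RI M => (u : M)) D.hu2'
    push_cast at this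
    rw [c2] at this
    rw [this]
    unfold Dat.t2'
    push_cast
    rfl
  have ht2 : (D.t2 : M) ^ 3 = 2 * D.u2 := by
    have := congrArg (fun u : RI M => (u : M)) D.hu2
    push_cast at this
    rw [c2] at this
    rw [this]
    unfold Dat.t2
    push_cast
    rfl
  have hne : ∀ (u v r : RI M), u * v = 2 * r → r ∉ P → (u : M) ≠ 0 := by
    intro u v r huv hr h0
    have h1 : u = 0 := Subtype.ext h0
    rw [h1, zero_mul] at huv
    have h3 : (2 : RI M) ≠ 0 := two_ne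
    have h4 : r = 0 := (mul_eq_zero.mp huv.symm).resolve_left h3
    exact hr (h4 ▸ P.zero_mem)
  have two0 : (2 : M) ≠ 0 := two_ne_zero
  have n1 := hne _ _ _ e1 hp
  have n2 := hne _ _ _ e2 hq'
  have n2' := hne _ _ _ e2' hq'
  have hT1 : ∀ σ ∈ MulAction.stabilizer Gal(M/K) P,
      σ (D.t1' : M) = (D.z : M) ^ (A.k σ : ℕ) * D.t1' := by
    intro σ hσ
    have h := (dec_t1 A σ (dec_z D P h2 σ hσ)).2
    have := congrArg (fun u : RI M => (u : M)) h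
    push_cast at this
    exact this
  have hT2 : ∀ σ ∈ MulAction.stabilizer Gal(M/K) P,
      σ (D.t2 : M) = (D.z : M) ^ (2 * (A.π σ 0 : ℕ)) * D.t2 ∧
      σ (D.t2' : M) = (D.z : M) ^ (A.π σ 0 : ℕ) * D.t2' := by
    intro σ hσ
    have h := dec_t2 A σ (dec_z D P h2 σ hσ) (dec_even A P h2 σ hσ)
    refine ⟨?_, ?_⟩
    · have := congrArg (fun u : RI M => (u : M)) h.1
      push_cast at this
      exact this
    · have := congrArg (fun u : RI M => (u : M)) h.2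
      push_cast at this
      exact this
  obtain ⟨x1, a1, b1, ε1, hε1, hab1, hx1, hσ1⟩ := kum_one P h2 D.u1' D.u1 D.u2' D.u2 _ _ e1 e2 hp
    hq' hu1 hu2 ((D.t1' : M) * D.t2') D.z (by rw [mul_pow, ht1, ht2']; ring)
    (by
      intro h0
      have h3 : ((D.t1' : M) * D.t2') ^ 3 = 0 := by rw [h0]; ring
      rw [mul_pow, ht1, ht2'] at h3
      exact mul_ne_zero (mul_ne_zero two0 n1) (mul_ne_zero two0 n2) h3) hzM
    (fun σ => (A.k σ : ℕ) + (A.π σ 0 : ℕ)) hsz (by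
      intro σ hσ
      rw [map_mul, hT1 σ hσ, (hT2 σ hσ).2, pow_add]
      ring)
  obtain ⟨x2, a2, b2, ε2, hε2, hab2, hx2, hσ2⟩ := kum_one P h2 D.u1' D.u1 D.u2 D.u2' _ _ e1 e2' hp
    hq' hu1 (hu2.elim (fun h => Or.inr ⟨h.2, h.1⟩) (fun h => Or.inl ⟨h.2, h.1⟩))
    ((D.t1' : M) * D.t2) D.z (by rw [mul_pow, ht1, ht2]; ring)
    (by
      intro h0
      have h3 : ((D.t1' : M) * D.t2) ^ 3 = 0 := by rw [h0]; ring
      rw [mul_pow, ht1, ht2] at h3
      exact mul_ne_zero (mul_ne_zero two0 n1) (mul_ne_zero two0 n2') h3) hzM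
    (fun σ => (A.k σ : ℕ) + 2 * (A.π σ 0 : ℕ)) hsz (by
      intro σ hσ
      rw [map_mul, hT1 σ hσ, (hT2 σ hσ).1, pow_add]
      ring)
  exact ⟨x1, x2, a1, b1, a2, b2, ε1, ε2, hε1, hε2, hab1, hab2, hx1, hx2, hσ1, hσ2⟩

end Lit
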