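import Pool.Agent.Lit.Enc
import Pool.Agent.Lit.Kum
import Pool.Agent.Lit.Hopf2

/-!
# Flat: `ρ` is finite flat at `2`

PROOF.  Let `2 ∈ P`.  Take `x₁, x₂, aᵢ, bᵢ, εᵢ` from `kummer`, `t` from `third_mem`, `z = D.z`, the Hopf algebra
`A` of `hopf_two` over `R = decompRing P`, `k = 𝔽₄` (`exists_F4`), the basis `b` of `vec_basis`,
`ι φ = enc z x₁ ε₁ (φ e₁) • vec ζ + enc z x₂ ε₂ (φ e₂) • vec ζ²`.
* `Nat.card (A →ₐ M) = 16`: the map `φ ↦ (φ e₁, φ e₂)` is a bijection onto the pairs of solutions of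
  `Y⁴ = aᵢ Y`, i.e. (by `enc_inj`, `enc_surj`) onto `k × k`, `Nat.card k = 4`.
* injective, range: `enc_inj`, `enc_surj`, the basis, the extension property of `hopf_two`.
* additive: `(addPt φ ψ) e₁ = glaw b₁ t (φ e₁) (ψ e₁)` from the formula for `comul e₁` (apply the algebra
  homomorphism `lift φ ψ`), then `enc_add`.
* equivariant: if `ψ a = σ (φ a)` then `ψ e₁ = σ (φ e₁)`; `φ e₁ = 0` or `z^i x₁`, `σ z = z` (`dec_z`),
  `σ x₁ = z^{ε₁ m} x₁`, so `ψ e₁ = z^{ε₁ m} φ e₁` and `enc (z^{ε₁ m} φ e₁) = ζ^{ε₁² m} enc (φ e₁) = ζ^m enc (φ e₁)`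
  (`ζ³ = 1`, `ε² ≡ 1 mod 3`), `m = k + j`; `ρ σ v_ζ = ζ^k ζ^j v_ζ` by `Act.hρ`, `MM_rot`, `dec_even`; the same for
  the second one with `m = k + 2 j` and `v_{ζ²}`.
-/

open Matrix
open scoped QuadraticAlgebra Pointwise TensorProduct

namespace Lit

open SerreK

variable {M : Type} [Field M] [Algebra K M] [Algebra O M] [IsScalarTower O K M]
  [FiniteDimensional K M] [IsGalois K M] {D : Dat (RI M)} {ρ : Gal(M/K) →* GL (Fin 2) FF}

private theorem Flat_map_glaw {A B : Type*} [CommRing A] [CommRing B] (f : A →+* B)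
    (b t x y : A) : f (glaw b t x y) = glaw (f b) (f t) (f x) (f y) := by
  simp only [glaw, map_add, map_mul, map_sub, map_pow, map_ofNat]

theorem addPt_apply {R A : Type} [CommRing R] [CommRing A] [HopfAlgebra R A]
    [Algebra R M] (φ ψ : A →ₐ[R] M) (b t : R) (e : A)
    (h : Coalgebra.comul (R := R) e = glaw (algebraMap R (A ⊗[R] A) b)
      (algebraMap R (A ⊗[R] A) t) (e ⊗ₜ[R] (1 : A)) ((1 : A) ⊗ₜ[R] e)) :
    addPt φ ψ e = glaw (algebraMap R M b) (algebraMap R M t) (φ e) (ψ e) := by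
  unfold addPt
  rw [AlgHom.comp_apply, Bialgebra.comulAlgHom_apply, h]
  set f := Algebra.TensorProduct.lift φ ψ (fun _ _ => Commute.all _ _) with hf
  have h1 := Flat_map_glaw (f : A ⊗[R] A →+* M) (algebraMap R (A ⊗[R] A) b)
    (algebraMap R (A ⊗[R] A) t) (e ⊗ₜ[R] (1 : A)) ((1 : A) ⊗ₜ[R] e)
  have h2 : f (e ⊗ₜ[R] (1 : A)) = φ e := by
    rw [hf, Algebra.TensorProduct.lift_tmul, map_one, mul_one]
  have h3 : f ((1 : A) ⊗ₜ[R] e) = ψ e := by
    rw [hf, Algebra.TensorProduct.lift_tmul, map_one, one_mul]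
  have h4 : f (algebraMap R (A ⊗[R] A) b) = algebraMap R M b := f.commutes b
  have h5 : f (algebraMap R (A ⊗[R] A) t) = algebraMap R M t := f.commutes t
  calc f (glaw (algebraMap R (A ⊗[R] A) b) (algebraMap R (A ⊗[R] A) t)
        (e ⊗ₜ[R] (1 : A)) ((1 : A) ⊗ₜ[R] e))
      = glaw (f (algebraMap R (A ⊗[R] A) b)) (f (algebraMap R (A ⊗[R] A) t))
        (f (e ⊗ₜ[R] (1 : A))) (f ((1 : A) ⊗ₜ[R] e)) := h1
    _ = glaw (algebraMap R M b) (algebraMap R M t) (φ e) (ψ e) := by rw [h2, h3, h4, h5]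

theorem rho_eigen (A : Act D Gal(M/K) ρ) (P : Ideal (RI M)) [P.IsPrime] (h2 : (2 : RI M) ∈ P)
    (σ : Gal(M/K)) (hσ : σ ∈ MulAction.stabilizer Gal(M/K) P) :
    (ρ σ).val.mulVec (vec ze) = ze ^ ((A.k σ : ℕ) + (A.π σ 0 : ℕ)) • vec ze ∧
    (ρ σ).val.mulVec (vec (ze ^ 2)) =
      ze ^ ((A.k σ : ℕ) + 2 * (A.π σ 0 : ℕ)) • vec (ze ^ 2) := by
  have hrot : ∀ i, A.π σ i = i + A.π σ 0 := fun i => dec_even A P h2 σ hσ i
  have hz2 : (ze ^ 2) ^ 2 + ze ^ 2 + 1 = 0 := by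
    have h3 := ze_cube
    have h1 := ze_spec
    linear_combination h1 + ze * h3
  constructor
  · rw [A.hρ σ, Matrix.smul_mulVec, MM_rot (A.π σ) (A.π σ 0) hrot ze ze_spec, smul_smul, ← pow_add]
  · rw [A.hρ σ, Matrix.smul_mulVec, MM_rot (A.π σ) (A.π σ 0) hrot (ze ^ 2) hz2, smul_smul,
      ← pow_mul, ← pow_add]

private theorem Flat_card (k : Subfield FF) (hk : (k : Set FF) = {0, 1, ze, ze ^ 2}) :
    Nat.card k = 4 := by
  have h0 : ze ≠ 0 := ze_ne_zero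
  have h1 : ze ≠ 1 := ze_ne_one
  have h20 : ze ^ 2 ≠ 0 := pow_ne_zero 2 h0
  have h21 : ze ^ 2 ≠ 1 := by
    intro h
    apply h1
    have h3 := ze_cube
    have : ze = ze ^ 3 := by
      calc ze = ze * 1 := (mul_one _).symm
        _ = ze * ze ^ 2 := by rw [h]
        _ = ze ^ 3 := by ring
    rw [this, h3]
  have h12 : ze ≠ ze ^ 2 := by
    intro h
    apply h1
    have : ze * (ze - 1) = 0 := by linear_combination (-1 : FF) * h
    rcases mul_eq_zero.1 this with h' | h'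
    · exact absurd h' h0
    · exact sub_eq_zero.1 h'
  have hc : Nat.card k = (k : Set FF).ncard := Nat.card_coe_set_eq (k : Set FF)
  rw [hc, hk]
  rw [Set.ncard_insert_of_notMem, Set.ncard_insert_of_notMem, Set.ncard_pair h12]
  · simp only [Set.mem_insert_iff, Set.mem_singleton_iff, not_or]
    exact ⟨fun h => h1 h.symm, fun h => h21 h.symm⟩
  · simp only [Set.mem_insert_iff, Set.mem_singleton_iff, not_or]
    exact ⟨zero_ne_one, fun h => h0 h.symm, fun h => h20 h.symm⟩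

theorem flat_at (A : Act D Gal(M/K) ρ) (P : Ideal (RI M)) [P.IsPrime] (h2 : (2 : RI M) ∈ P) :
    FiniteFlatAt ρ P := by
  obtain ⟨x1, x2, a1, b1, a2, b2, ε1, ε2, hε1, hε2, hab1, hab2, hx1, hx2, hσ1, hσ2⟩ :=
    kummer A P h2
  obtain ⟨t, ht⟩ := third_mem P h2
  obtain ⟨H, iH1, iH2, iH3, iH4, iH5, e1, e2, hrank, he1, he2, hc1, hc2, hext, huniq⟩ :=
    hopf_two a1 b1 a2 b2 t hab1 hab2 ht
  obtain ⟨k, hk, hkfin⟩ := exists_F4
  obtain ⟨b, hb0, hb1⟩ := vec_basis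
  have : CharZero M := instCharZero
  have h2M : (2 : M) ≠ 0 := two_ne_zero
  have hab1M : algebraMap (decompRing P) M a1 * algebraMap (decompRing P) M b1 = 2 := by
    rw [← map_mul, hab1, map_ofNat]
  have hab2M : algebraMap (decompRing P) M a2 * algebraMap (decompRing P) M b2 = 2 := by
    rw [← map_mul, hab2, map_ofNat]
  have htM : 3 * algebraMap (decompRing P) M t = 1 := by
    have := congrArg (algebraMap (decompRing P) M) ht
    rw [map_mul, map_ofNat, map_one] at this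
    exact this
  have hzM : (D.z : M) ^ 2 + (D.z : M) + 1 = 0 := by
    have := congrArg (fun y : RI M => (y : M)) D.hz
    push_cast at this
    exact this
  have hx1M : x1 ^ 3 = algebraMap (decompRing P) M a1 := hx1
  have hx2M : x2 ^ 3 = algebraMap (decompRing P) M a2 := hx2
  have hp1 : ∀ φ : H →ₐ[decompRing P] M, (φ e1) ^ 4 = algebraMap (decompRing P) M a1 * φ e1 := by
    intro φ
    rw [← map_pow, he1, map_mul, AlgHom.commutes]
  have hp2 : ∀ φ : H →ₐ[decompRing P] M, (φ e2) ^ 4 = algebraMap (decompRing P) M a2 * φ e2 := by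
    intro φ
    rw [← map_pow, he2, map_mul, AlgHom.commutes]
  set F1 : (H →ₐ[decompRing P] M) → FF := fun φ => enc (D.z : M) x1 ε1 (φ e1) with hF1
  set F2 : (H →ₐ[decompRing P] M) → FF := fun φ => enc (D.z : M) x2 ε2 (φ e2) with hF2
  have hmem : ∀ c : FF, c ∈ k ↔ (c = 0 ∨ c = 1 ∨ c = ze ∨ c = ze ^ 2) := by
    intro c
    have : c ∈ k ↔ c ∈ (k : Set FF) := Iff.rfl
    rw [this, hk]
    simp only [Set.mem_insert_iff, Set.mem_singleton_iff]
  have hF1k : ∀ φ, F1 φ ∈ k := fun φ => (hmem _).2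
    ((enc_surj h2M hab1M htM hzM hx1M ε1 hε1 _).2 ⟨_, hp1 φ, rfl⟩)
  have hF2k : ∀ φ, F2 φ ∈ k := fun φ => (hmem _).2
    ((enc_surj h2M hab2M htM hzM hx2M ε2 hε2 _).2 ⟨_, hp2 φ, rfl⟩)
  have hFinj : ∀ φ ψ, F1 φ = F1 ψ → F2 φ = F2 ψ → φ = ψ := by
    intro φ ψ h1 h2'
    exact huniq M φ ψ (enc_inj h2M hab1M htM hzM hx1M ε1 hε1 _ _ (hp1 φ) (hp1 ψ) h1)
      (enc_inj h2M hab2M htM hzM hx2M ε2 hε2 _ _ (hp2 φ) (hp2 ψ) h2')
  have hFsurj : ∀ c1 c2 : FF, c1 ∈ k → c2 ∈ k → ∃ φ, F1 φ = c1 ∧ F2 φ = c2 := by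
    intro c1 c2 h1 h2'
    obtain ⟨y1, hy1, hy1'⟩ := (enc_surj h2M hab1M htM hzM hx1M ε1 hε1 c1).1 ((hmem _).1 h1)
    obtain ⟨y2, hy2, hy2'⟩ := (enc_surj h2M hab2M htM hzM hx2M ε2 hε2 c2).1 ((hmem _).1 h2')
    obtain ⟨φ, hφ1, hφ2⟩ := hext M y1 y2 hy1 hy2
    refine ⟨φ, ?_, ?_⟩
    · simp only [hF1]; rw [hφ1, hy1']
    · simp only [hF2]; rw [hφ2, hy2']
  set ι : (H →ₐ[decompRing P] M) → (Fin 2 → FF) :=
    fun φ => F1 φ • vec ze + F2 φ • vec (ze ^ 2) with hι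
  have hιb : ∀ φ, ι φ = F1 φ • b 0 + F2 φ • b 1 := by
    intro φ; rw [hb0, hb1]
  have hcoef : ∀ c1 c2 d1 d2 : FF, c1 • b 0 + c2 • b 1 = d1 • b 0 + d2 • b 1 →
      c1 = d1 ∧ c2 = d2 := by
    intro c1 c2 d1 d2 h
    have h' := congrArg b.repr h
    simp only [map_add, map_smul, Module.Basis.repr_self] at h'
    have e0 := DFunLike.congr_fun h' 0
    have e1' := DFunLike.congr_fun h' 1
    simp at e0 e1'
    exact ⟨e0, e1'⟩
  refine ⟨H, iH1, iH2, iH3, iH4, iH5, k, hkfin, b, ι, ?_, ?_, ?_, ?_, ?_⟩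
  · -- the number of points
    rw [hrank]
    have hbij : Function.Bijective (fun φ : H →ₐ[decompRing P] M =>
        ((⟨F1 φ, hF1k φ⟩, ⟨F2 φ, hF2k φ⟩) : k × k)) := by
      constructor
      · intro φ ψ h
        simp only [Prod.mk.injEq, Subtype.mk.injEq] at h
        exact hFinj φ ψ h.1 h.2
      · rintro ⟨⟨c1, h1⟩, ⟨c2, h2'⟩⟩
        obtain ⟨φ, hφ1, hφ2⟩ := hFsurj c1 c2 h1 h2'
        refine ⟨φ, ?_⟩
        simp only [hφ1, hφ2]
    rw [Nat.card_eq_of_bijective _ hbij, Nat.card_prod, Flat_card k hk]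
  · -- injective
    intro φ ψ h
    rw [hιb, hιb] at h
    obtain ⟨h1, h2'⟩ := hcoef _ _ _ _ h
    exact hFinj φ ψ h1 h2'
  · -- range
    ext v
    rw [SetLike.mem_coe, Submodule.mem_span_range_iff_exists_fun]
    constructor
    · rintro ⟨φ, rfl⟩
      refine ⟨![⟨F1 φ, hF1k φ⟩, ⟨F2 φ, hF2k φ⟩], ?_⟩
      rw [hιb, Fin.sum_univ_two]
      rfl
    · rintro ⟨c, rfl⟩
      obtain ⟨φ, hφ1, hφ2⟩ := hFsurj (c 0 : FF) (c 1 : FF) (c 0).2 (c 1).2
      refine ⟨φ, ?_⟩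
      rw [hιb, hφ1, hφ2, Fin.sum_univ_two]
      rfl
  · -- additive
    intro φ ψ
    have h1 : F1 (addPt φ ψ) = F1 φ + F1 ψ := by
      simp only [hF1]
      rw [addPt_apply φ ψ b1 t e1 hc1]
      exact enc_add h2M hab1M htM hzM hx1M ε1 hε1 _ _ (hp1 φ) (hp1 ψ)
    have h2' : F2 (addPt φ ψ) = F2 φ + F2 ψ := by
      simp only [hF2]
      rw [addPt_apply φ ψ b2 t e2 hc2]
      exact enc_add h2M hab2M htM hzM hx2M ε2 hε2 _ _ (hp2 φ) (hp2 ψ)
    simp only [hι]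
    rw [h1, h2', add_smul, add_smul]
    abel
  · -- equivariant
    intro σ hσ φ ψ hφψ
    have hz3 : ze ^ 3 = 1 := ze_cube
    have hpow : ∀ ε n : ℕ, (ε = 1 ∨ ε = 2) → ze ^ (ε * (ε * n)) = ze ^ n := by
      intro ε n hε
      rcases hε with rfl | rfl
      · rw [one_mul, one_mul]
      · have : 2 * (2 * n) = 3 * n + n := by ring
        rw [this, pow_add, pow_mul, hz3, one_pow, one_mul]
    have hσR : ∀ r : decompRing P, σ (algebraMap (decompRing P) M r) =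
        algebraMap (decompRing P) M r := fun r => r.2.1 σ hσ
    have hσz : σ (D.z : M) = (D.z : M) := by
      have := dec_z D P h2 σ hσ
      have h' := congrArg (fun y : RI M => (y : M)) this
      exact h'
    have hz3M : (D.z : M) ^ 3 = 1 := by
      linear_combination ((D.z : M) - 1) * hzM
    have key : ∀ (x a bb : M) (ε n : ℕ), (ε = 1 ∨ ε = 2) → a * bb = 2 → x ^ 3 = a →
        σ x = (D.z : M) ^ (ε * n) * x → ∀ y : M, y ^ 4 = a * y →
        σ y = (D.z : M) ^ (ε * n) * y := by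
      intro x a bb ε n hε habx hx hσx y hy
      rcases (pts_iff h2M habx htM hzM hx y).1 hy with h | h | h | h
      · rw [h, map_zero, mul_zero]
      · rw [h, hσx]
      · rw [h, map_mul, hσx, hσz]; ring
      · rw [h, map_mul, map_pow, hσx, hσz]; ring
    have hv := rho_eigen A P h2 σ hσ
    have h1 : F1 ψ = ze ^ ((A.k σ : ℕ) + (A.π σ 0 : ℕ)) * F1 φ := by
      simp only [hF1]
      rw [hφψ e1, key x1 _ _ ε1 _ hε1 hab1M hx1M (hσ1 σ hσ) _ (hp1 φ),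
        enc_mul h2M hab1M htM hzM hx1M ε1 hε1 _ _ (hp1 φ), hpow ε1 _ hε1]
    have h2' : F2 ψ = ze ^ ((A.k σ : ℕ) + 2 * (A.π σ 0 : ℕ)) * F2 φ := by
      simp only [hF2]
      rw [hφψ e2, key x2 _ _ ε2 _ hε2 hab2M hx2M (hσ2 σ hσ) _ (hp2 φ),
        enc_mul h2M hab2M htM hzM hx2M ε2 hε2 _ _ (hp2 φ), hpow ε2 _ hε2]
    simp only [hι]
    rw [Matrix.mulVec_add, Matrix.mulVec_smul, Matrix.mulVec_smul, hv.1, hv.2, h1, h2',
      smul_smul, smul_smul, mul_comm (F1 φ), mul_comm (F2 φ)]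

end Lit
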