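import Pool.Agent.Lit.Setup
import Pool.Agent.Lit.BaseM

/-!
# Frob: the Frobenius elements at `w`, irreducibility

PROOFS. `exists_frob`: there is a prime `P` of `RI M` above `(w)` (integral extension), and a Frobenius
element by `IsArithFrobAt.exists_of_isInvariant` (`finite_quot`).
`frob_cube`: `P.under O = (w)` (a nonzero prime ideal containing `w`), `card_quot_w`, so a Frobenius element
satisfies `σ x ≡ x³ mod P`.
`frob_s`: each `s_i` is a root of `x³ - w x² + (w-1) x + 1`, so `s_i³ ≡ s_i - 1 mod P`.  If `σ s_i = s_i` then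
`-1 ∈ P`.  `frob_r`: `r_i³ = -(2w-4) r_i - (2w-2) ≡ 4 r_i + 2 ≡ r_i - 1` since `3 = w (1 - w)`... `∈ P`
(`nrm w = 3`).
`odd_exists`: otherwise `dr` is fixed by all `σ` (`σ dr = sign (π σ) dr`), so it is `algebraMap x`
(`IsGaloisGroup`, invariants), `x² = -4N`, contradiction (`not_sq`).
`irred`: `MM_irr` with a Frobenius element and an odd element.
`frob_trace`: the trace is `ζ^k`, `k ≠ 0`.
-/

open Matrix
open scoped QuadraticAlgebra Pointwise

namespace Lit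

open SerreK

variable {M : Type} [Field M] [Algebra K M] [Algebra O M] [IsScalarTower O K M]
  [FiniteDimensional K M] [IsGalois K M] {D : Dat (RI M)} {ρ : Gal(M/K) →* GL (Fin 2) FF}

private theorem Frob_w_ne : (w : O) ≠ 0 := by
  intro h
  have := congrArg QuadraticAlgebra.im h
  simp [w] at this

variable (M) in
theorem exists_frob : ∃ (P : Ideal (RI M)) (σ : Gal(M/K)), P.IsPrime ∧
    algebraMap O (RI M) w ∈ P ∧ IsArithFrobAt O σ P := by
  have hp : (Ideal.span {w} : Ideal O).IsPrime :=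
    (Ideal.span_singleton_prime Frob_w_ne).2 w_prime
  have hmax : (Ideal.span {w} : Ideal O).IsMaximal := by
    apply hp.isMaximal
    rw [Ne, Ideal.span_singleton_eq_bot]
    exact Frob_w_ne
  obtain ⟨P, hP, hPl⟩ := Ideal.exists_maximal_ideal_liesOver_of_isIntegral (S := RI M)
    (Ideal.span {w} : Ideal O)
  have hw : algebraMap O (RI M) w ∈ P := by
    have : w ∈ P.under O := by
      rw [← hPl.over]; exact Ideal.mem_span_singleton_self w
    exact this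
  have hP0 : P ≠ ⊥ := by
    rintro rfl
    have h1 : algebraMap O (RI M) w = 0 := by simpa using hw
    have h2 := FaithfulSMul.algebraMap_injective O (RI M)
    exact Frob_w_ne (h2 (by rw [h1, map_zero]))
  have := hP.isPrime
  have := finite_quot P hP0
  obtain ⟨σ, hσ⟩ := IsArithFrobAt.exists_of_isInvariant O Gal(M/K) P
  exact ⟨P, σ, hP.isPrime, hw, hσ⟩

private theorem Frob_under (P : Ideal (RI M)) [hPP : P.IsPrime] (hP : algebraMap O (RI M) w ∈ P) :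
    P.under O = Ideal.span {w} := by
  have hp : (Ideal.span {w} : Ideal O).IsPrime :=
    (Ideal.span_singleton_prime Frob_w_ne).2 w_prime
  have hmax : (Ideal.span {w} : Ideal O).IsMaximal := by
    apply hp.isMaximal
    rw [Ne, Ideal.span_singleton_eq_bot]
    exact Frob_w_ne
  have hne : P.under O ≠ ⊤ := (inferInstance : (P.under O).IsPrime).ne_top
  refine (hmax.eq_of_le hne ?_).symm
  rw [Ideal.span_singleton_le_iff_mem]
  exact hP

theorem frob_cube (P : Ideal (RI M)) [P.IsPrime] (hP : algebraMap O (RI M) w ∈ P)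
    (σ : Gal(M/K)) (hσ : IsArithFrobAt O σ P) (x : RI M) : σ • x - x ^ 3 ∈ P := by
  have h := hσ x
  rw [Frob_under P hP, card_quot_w] at h
  exact h

private theorem Frob_one_not (P : Ideal (RI M)) [hPP : P.IsPrime] : (1 : RI M) ∉ P :=
  fun h => hPP.ne_top ((Ideal.eq_top_iff_one P).2 h)

private theorem Frob_root_s {S : Type} [CommRing S] [Algebra O S] (D : Dat S) (i : Fin 3) :
    D.s i ^ 3 - algebraMap O S w * D.s i ^ 2 + algebraMap O S (w - 1) * D.s i + 1 = 0 := by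
  have h1 := D.hs1
  have h2 := D.hs2
  have h3 := D.hs3
  have h4 : (1 : S) = -(D.s 0 * D.s 1 * D.s 2) := by rw [h3]; ring
  rw [← h1, ← h2, h4]
  fin_cases i
  · show D.s 0 ^ 3 - _ * D.s 0 ^ 2 + _ * D.s 0 + _ = 0
    ring
  · show D.s 1 ^ 3 - _ * D.s 1 ^ 2 + _ * D.s 1 + _ = 0
    ring
  · show D.s 2 ^ 3 - _ * D.s 2 ^ 2 + _ * D.s 2 + _ = 0
    ring

private theorem Frob_root_r {S : Type} [CommRing S] [Algebra O S] (D : Dat S) (i : Fin 3) :
    D.r i ^ 3 + algebraMap O S (2 * w - 4) * D.r i - algebraMap O S (2 - 2 * w) = 0 := by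
  have h1 := D.hr1
  have h2 := D.hr2
  have h3 := D.hr3
  rw [← h3, ← h2]
  fin_cases i
  · show D.r 0 ^ 3 + _ * D.r 0 - _ = 0
    linear_combination (D.r 0 ^ 2) * h1
  · show D.r 1 ^ 3 + _ * D.r 1 - _ = 0
    linear_combination (D.r 1 ^ 2) * h1
  · show D.r 2 ^ 3 + _ * D.r 2 - _ = 0
    linear_combination (D.r 2 ^ 2) * h1

theorem frob_s (A : Act D Gal(M/K) ρ) (P : Ideal (RI M)) [P.IsPrime]
    (hP : algebraMap O (RI M) w ∈ P) (σ : Gal(M/K)) (hσ : IsArithFrobAt O σ P) :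
    A.k σ ≠ 0 := by
  intro h0
  have h1 := A.hk σ 0
  rw [h0, add_zero] at h1
  have h2 := frob_cube P hP σ hσ (D.s 0)
  rw [h1] at h2
  have h3 := Frob_root_s D 0
  rw [map_sub, map_one] at h3
  apply Frob_one_not P
  have h4 : (1 : RI M) = -(D.s 0 - D.s 0 ^ 3) * (-1) * 1 +
      algebraMap O (RI M) w * (D.s 0 ^ 2 - D.s 0) := by
    linear_combination h3
  rw [h4]
  exact P.add_mem (P.mul_mem_right _ (P.mul_mem_right _ (P.neg_mem h2)))
    (P.mul_mem_right _ hP)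

theorem frob_r (A : Act D Gal(M/K) ρ) (P : Ideal (RI M)) [P.IsPrime]
    (hP : algebraMap O (RI M) w ∈ P) (σ : Gal(M/K)) (hσ : IsArithFrobAt O σ P) (i : Fin 3) :
    A.π σ i ≠ i := by
  intro h0
  have h1 := A.hπ σ i
  rw [h0] at h1
  have h2 := frob_cube P hP σ hσ (D.r i)
  rw [h1] at h2
  have h3 := Frob_root_r D i
  have h5 : algebraMap O (RI M) w ^ 2 = algebraMap O (RI M) w - 3 := by
    rw [← map_pow, w_sq, map_sub, map_ofNat]
  simp only [map_sub, map_mul, map_ofNat] at h3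
  apply Frob_one_not P
  have h4 : (1 : RI M) = (D.r i - D.r i ^ 3) * 1 +
      algebraMap O (RI M) w * (-(algebraMap O (RI M) w + 1) * (D.r i + 1)) := by
    linear_combination h3 + (D.r i + 1) * h5
  rw [h4]
  exact P.add_mem (P.mul_mem_right _ h2) (P.mul_mem_right _ hP)

theorem frob_trace (A : Act D Gal(M/K) ρ) (P : Ideal (RI M)) [P.IsPrime]
    (hP : algebraMap O (RI M) w ∈ P) (σ : Gal(M/K)) (hσ : IsArithFrobAt O σ P) :
    (ρ σ).val.trace ≠ 0 ∧ (ρ σ).val.trace ≠ 1 := by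
  have hk := frob_s A P hP σ hσ
  have hr := frob_r A P hP σ hσ
  have h1 : (ρ σ).val.trace = ze ^ (A.k σ : ℕ) := by
    rw [A.hρ σ, Matrix.trace_smul, MM_trace _ hr, smul_eq_mul, mul_one]
  rw [h1]
  have h2 := ze_spec
  have h3 := ze_cube
  have h0 := ze_ne_zero
  have h4 := ze_ne_one
  refine ⟨pow_ne_zero _ h0, ?_⟩
  generalize A.k σ = k at hk
  fin_cases k
  · exact absurd rfl hk
  · simpa using h4
  · show ze ^ 2 ≠ 1
    intro h
    apply h4
    calc ze = ze ^ 3 := by rw [pow_succ, h, one_mul]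
      _ = 1 := h3

private theorem Frob_sign (f : Fin 3 → RI M) (π : Equiv.Perm (Fin 3)) :
    (f (π 0) - f (π 1)) * (f (π 0) - f (π 2)) * (f (π 1) - f (π 2)) =
      ((Equiv.Perm.sign π : ℤˣ) : ℤ) * ((f 0 - f 1) * (f 0 - f 2) * (f 1 - f 2)) := by
  have key : ∀ π : Equiv.Perm (Fin 3),
      (π 0 = 0 ∧ π 1 = 1 ∧ π 2 = 2 ∧ Equiv.Perm.sign π = 1) ∨
      (π 0 = 1 ∧ π 1 = 2 ∧ π 2 = 0 ∧ Equiv.Perm.sign π = 1) ∨
      (π 0 = 2 ∧ π 1 = 0 ∧ π 2 = 1 ∧ Equiv.Perm.sign π = 1) ∨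
      (π 0 = 1 ∧ π 1 = 0 ∧ π 2 = 2 ∧ Equiv.Perm.sign π = -1) ∨
      (π 0 = 0 ∧ π 1 = 2 ∧ π 2 = 1 ∧ Equiv.Perm.sign π = -1) ∨
      (π 0 = 2 ∧ π 1 = 1 ∧ π 2 = 0 ∧ Equiv.Perm.sign π = -1) := by decide
  rcases key π with ⟨a, b, c, d⟩ | ⟨a, b, c, d⟩ | ⟨a, b, c, d⟩ | ⟨a, b, c, d⟩ | ⟨a, b, c, d⟩ |
    ⟨a, b, c, d⟩ <;> rw [a, b, c, d] <;> push_cast <;> ring

theorem odd_exists (A : Act D Gal(M/K) ρ) : ∃ τ, Equiv.Perm.sign (A.π τ) = -1 := by
  by_contra hcon
  push Not at hcon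
  have hs : ∀ τ, Equiv.Perm.sign (A.π τ) = 1 := fun τ =>
    (Int.units_eq_one_or _).resolve_right (hcon τ)
  have hfix : ∀ σ : Gal(M/K), σ • D.dr = D.dr := by
    intro σ
    have h1 : σ • D.dr = (D.r (A.π σ 0) - D.r (A.π σ 1)) * (D.r (A.π σ 0) - D.r (A.π σ 2)) *
        (D.r (A.π σ 1) - D.r (A.π σ 2)) := by
      rw [Dat.dr, smul_mul', smul_mul', smul_sub, smul_sub, smul_sub, A.hπ, A.hπ, A.hπ]
    rw [h1, Frob_sign, hs σ, Dat.dr]
    simp
  obtain ⟨x, hx⟩ := Algebra.IsInvariant.isInvariant (A := O) (G := Gal(M/K)) D.dr hfix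
  have h2 := D.dr_sq
  apply not_sq x
  apply FaithfulSMul.algebraMap_injective O (RI M)
  rw [map_pow, hx, h2, map_mul, map_neg, map_ofNat]

theorem irred (A : Act D Gal(M/K) ρ) : Irred ρ := by
  intro v hv hall
  obtain ⟨P, σ, hP, hw, hσ⟩ := exists_frob M
  obtain ⟨τ, hτ⟩ := odd_exists A
  have hr := frob_r A P hw σ hσ
  obtain ⟨c, hc⟩ := hall σ
  obtain ⟨d, hd⟩ := hall τ
  have hz : ∀ n : ℕ, ze ^ n ≠ 0 := fun n => pow_ne_zero _ ze_ne_zero
  rw [A.hρ, Matrix.smul_mulVec] at hc hd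
  have hc' : (MM (A.π σ)).val.mulVec v = ((ze ^ (A.k σ : ℕ))⁻¹ * c) • v := by
    rw [mul_smul, ← hc, smul_smul, inv_mul_cancel₀ (hz _), one_smul]
  have hd' : (MM (A.π τ)).val.mulVec v = ((ze ^ (A.k τ : ℕ))⁻¹ * d) • v := by
    rw [mul_smul, ← hd, smul_smul, inv_mul_cancel₀ (hz _), one_smul]
  exact hv (MM_irr _ _ hr hτ v _ _ hc' hd')

end Lit
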