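import Pool.Agent.Lit.Cert

/-!
# HeckeW: `T_w² = T_w` on `H¹(Y₀(N), 𝔽̄₂)`
-/

open Matrix
open scoped QuadraticAlgebra

namespace Lit

open SerreE SerreK

section form

variable {O : Type} [CommRing O] [IsDomain O] [FinQuot O]

/-- the Hecke operator through any system of representatives -/
theorem hecke_formula (N π : O) (hπ : π ≠ 0) {X : Type} [Fintype X] (t : X → Gam0 N)
    (hcov : ∀ g : Gam0 N, ∃ x, π ∣ ((t x)⁻¹ * g).val.val 0 1)
    (hsep : ∀ x y, π ∣ ((t x)⁻¹ * t y).val.val 0 1 → x = y)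
    (h : HY N) (γ : Gam0 N) (σ : X → X) (g' : X → Gam0 N)
    (hstep : ∀ x, γ.val.val * (t x).val.val * PM π =
      (t (σ x)).val.val * PM π * (g' x).val.val) :
    heckeVal π hπ h γ = ∑ x, h.val (g' x) := by
  have := hsub_fin N π hπ
  have hc0 : ∀ x, ((t (σ x))⁻¹ * γ * t x).val.val * PM π = PM π * (g' x).val.val := by
    intro x
    have := hstep x
    have h2 : ((t (σ x))⁻¹ * γ * t x).val.val =
      (t (σ x)).val⁻¹.val * (γ.val.val * (t x).val.val) := by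
      simp [mul_assoc]
    rw [h2, mul_assoc, this, ← mul_assoc, ← mul_assoc, Units.inv_mul, one_mul]
  have hc1 : ∀ x, ((t (σ x))⁻¹ * γ * t x).val.val 0 0 = (g' x).val.val 0 0 ∧
      ((t (σ x))⁻¹ * γ * t x).val.val 0 1 = π * (g' x).val.val 0 1 ∧
      (g' x).val.val 1 0 = π * ((t (σ x))⁻¹ * γ * t x).val.val 1 0 ∧
      ((t (σ x))⁻¹ * γ * t x).val.val 1 1 = (g' x).val.val 1 1 := by
    intro x
    have := hc0 x
    generalize ((t (σ x))⁻¹ * γ * t x).val.val = M at this ⊢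
    generalize (g' x).val.val = M' at this ⊢
    have h00 := congrFun (congrFun this 0) 0
    have h01 := congrFun (congrFun this 0) 1
    have h10 := congrFun (congrFun this 1) 0
    have h11 := congrFun (congrFun this 1) 1
    simp only [PM, Matrix.mul_apply, Fin.sum_univ_two, Matrix.of_apply, Matrix.cons_val',
      Matrix.cons_val_zero, Matrix.cons_val_one, Matrix.cons_val_fin_one, mul_zero, zero_mul,
      mul_one, one_mul, add_zero, zero_add] at h00 h01 h10 h11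
    refine ⟨?_, h01, ?_, h11⟩
    · apply mul_left_cancel₀ hπ
      rw [← h00, mul_comm]
    · rw [← h10, mul_comm]
  have hmem : ∀ x, ((t (σ x))⁻¹ * γ * t x : Gam0 N) ∈ Hsub N π := by
    intro x
    exact (Dvd.intro _ (hc1 x).2.1.symm : π ∣ ((t (σ x))⁻¹ * γ * t x).val.val 0 1)
  have key := transfer_formula (G := G N) (H := Hsub N π)
    (h.hom.comp (theta N π hπ)) t hcov hsep γ σ
    (fun x => ⟨((t (σ x))⁻¹ * γ * t x : Gam0 N), hmem x⟩) (fun x => by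
      change γ * t x = t (σ x) * ((t (σ x))⁻¹ * γ * t x)
      rw [mul_assoc (t (σ x))⁻¹, mul_inv_cancel_left])
  have hth : ∀ x, theta N π hπ ⟨((t (σ x))⁻¹ * γ * t x : Gam0 N), hmem x⟩ = g' x := by
    intro x
    have h1 := thetaFun_spec N π hπ ⟨((t (σ x))⁻¹ * γ * t x : Gam0 N), hmem x⟩
    have h2 : Conj π (N := N) ((t (σ x))⁻¹ * γ * t x : Gam0 N) (g' x) := by
      obtain ⟨b1, b2, b3, b4⟩ := hc1 x
      exact ⟨b1.symm, b2, b3, b4.symm⟩
    exact h1.unique hπ h2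
  have e1 : heckeVal π hπ h γ = Multiplicative.toAdd
    (MonoidHom.transfer (h.hom.comp (theta N π hπ)) (γ : G N)) := rfl
  rw [e1, key, toAdd_prod]
  refine Finset.sum_congr rfl fun x _ => ?_
  rw [← hth x]
  rfl

end form

/-! ### explicit products -/

/-- the product of two explicit matrices -/
def Mz.mul (m n : Mz) : Mz :=
  ⟨m.a0 * n.a0 - 3 * (m.a1 * n.a1) + (m.b0 * n.c0 - 3 * (m.b1 * n.c1)),
   m.a0 * n.a1 + m.a1 * n.a0 + m.a1 * n.a1 + (m.b0 * n.c1 + m.b1 * n.c0 + m.b1 * n.c1),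
   m.a0 * n.b0 - 3 * (m.a1 * n.b1) + (m.b0 * n.d0 - 3 * (m.b1 * n.d1)),
   m.a0 * n.b1 + m.a1 * n.b0 + m.a1 * n.b1 + (m.b0 * n.d1 + m.b1 * n.d0 + m.b1 * n.d1),
   m.c0 * n.a0 - 3 * (m.c1 * n.a1) + (m.d0 * n.c0 - 3 * (m.d1 * n.c1)),
   m.c0 * n.a1 + m.c1 * n.a0 + m.c1 * n.a1 + (m.d0 * n.c1 + m.d1 * n.c0 + m.d1 * n.c1),
   m.c0 * n.b0 - 3 * (m.c1 * n.b1) + (m.d0 * n.d0 - 3 * (m.d1 * n.d1)),
   m.c0 * n.b1 + m.c1 * n.b0 + m.c1 * n.b1 + (m.d0 * n.d1 + m.d1 * n.d0 + m.d1 * n.d1)⟩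

theorem Mz.mat_mul (m n : Mz) : (m.mul n).mat = m.mat * n.mat := by
  ext i j <;> fin_cases i <;> fin_cases j <;>
    simp [Mz.mat, Mz.mul, Matrix.mul_apply, Fin.sum_univ_two] <;> ring

/-- the representatives -/
def rm : ℕ → Mz
  | 0 => ⟨1, 0, 0, 0, 0, 0, 1, 0⟩
  | 1 => ⟨1, 0, 1, 0, 0, 0, 1, 0⟩
  | 2 => ⟨1, 0, 2, 0, 0, 0, 1, 0⟩
  | _ => ⟨6, -1, 1, 0, 2, 5, 0, 1⟩

/-- `diag(w, 1)` -/
def pz : Mz := ⟨0, 1, 0, 0, 0, 0, 1, 0⟩

theorem pz_mat : pz.mat = PM w := by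
  ext i j <;> fin_cases i <;> fin_cases j <;> rfl

/-- the representatives as group elements -/
def rp : Fin 4 → GL (Fin 2) O
  | 0 => 1
  | 1 => up 1
  | 2 => up 2
  | 3 => mk2 ⟨6, -1⟩ 1 N w 1 (by ext <;> simp [N, w])

theorem rp_mat (i : Fin 4) : (rp i).val = (rm i).mat := by
  fin_cases i
  · exact Mz.mat_one.symm
  · rfl
  · rfl
  · rfl

theorem rp_mem (i : Fin 4) : rp i ∈ Gam0 N := by
  change N ∣ (rp i).val 1 0
  fin_cases i
  · exact dvd_zero _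
  · exact dvd_zero _
  · exact dvd_zero _
  · exact dvd_refl _

/-- the representatives in `Γ₀(N)` -/
def rg (i : Fin 4) : Gam0 N := ⟨rp i, rp_mem i⟩

/-- `O → 𝔽₃`, `w ↦ 0` -/
def psi : O →+* ZMod 3 where
  toFun x := (x.re : ZMod 3)
  map_one' := by simp
  map_zero' := by simp
  map_add' x y := by simp
  map_mul' x y := by
    rw [QuadraticAlgebra.re_mul]
    push_cast
    have : (-((2 : ℤ) + 1) : ZMod 3) = 0 := by decide
    push_cast at this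
    linear_combination (x.im : ZMod 3) * (y.im : ZMod 3) * this

theorem psi_iff (x : O) : w ∣ x ↔ psi x = 0 := by
  constructor
  · rintro ⟨y, rfl⟩
    rw [map_mul]
    have : psi w = 0 := by
      change ((0 : ℤ) : ZMod 3) = 0
      simp
    rw [this, zero_mul]
  · intro h
    change ((x.re : ℤ) : ZMod 3) = 0 at h
    rw [ZMod.intCast_zmod_eq_zero_iff_dvd] at h
    obtain ⟨k, hk⟩ := h
    refine ⟨⟨x.im + k, -k⟩, ?_⟩
    ext
    · rw [QuadraticAlgebra.re_mul]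
      simp only [w]
      push_cast at hk ⊢
      linarith
    · rw [QuadraticAlgebra.im_mul]
      simp only [w]
      ring

theorem w_ne : w ≠ 0 := w_prime.ne_zero

/-- the upper right entry of `(rg i)⁻¹ g` -/
theorem rg_entry (i : Fin 4) (g : Gam0 N) : ((rg i)⁻¹ * g).val.val 0 1 =
    (rp i).val 1 1 * g.val.val 0 1 - (rp i).val 0 1 * g.val.val 1 1 := by
  have h : ((rg i)⁻¹ * g).val.val = (rp i)⁻¹.val * g.val.val := rfl
  rw [h, Matrix.mul_apply, Fin.sum_univ_two]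
  fin_cases i
  · have h1 : ((rp 0)⁻¹).val = 1 := by
      change ((1 : GL (Fin 2) O)⁻¹).val = 1
      rw [inv_one]; rfl
    have h2 : (rp 0).val = 1 := rfl
    change ((rp 0)⁻¹).val 0 0 * _ + ((rp 0)⁻¹).val 0 1 * _ = (rp 0).val 1 1 * _ - (rp 0).val 0 1 * _
    rw [h1, h2]
    simp
  · have h1 : ((rp 1)⁻¹).val = !![(↑(1 : Oˣ)⁻¹ : O) * 1, -((↑(1 : Oˣ)⁻¹ : O) * 1);
      -((↑(1 : Oˣ)⁻¹ : O) * 0), (↑(1 : Oˣ)⁻¹ : O) * 1] := rfl
    have h2 : (rp 1).val = !![1, 1; 0, 1] := rfl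
    change ((rp 1)⁻¹).val 0 0 * _ + ((rp 1)⁻¹).val 0 1 * _ = (rp 1).val 1 1 * _ - (rp 1).val 0 1 * _
    rw [h1, h2]
    simp
    ring
  · have h1 : ((rp 2)⁻¹).val = !![(↑(1 : Oˣ)⁻¹ : O) * 1, -((↑(1 : Oˣ)⁻¹ : O) * 2);
      -((↑(1 : Oˣ)⁻¹ : O) * 0), (↑(1 : Oˣ)⁻¹ : O) * 1] := rfl
    have h2 : (rp 2).val = !![1, 2; 0, 1] := rfl
    change ((rp 2)⁻¹).val 0 0 * _ + ((rp 2)⁻¹).val 0 1 * _ = (rp 2).val 1 1 * _ - (rp 2).val 0 1 * _
    rw [h1, h2]
    simp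
    ring
  · have h1 : ((rp 3)⁻¹).val = !![(↑(1 : Oˣ)⁻¹ : O) * w, -((↑(1 : Oˣ)⁻¹ : O) * 1);
      -((↑(1 : Oˣ)⁻¹ : O) * N), (↑(1 : Oˣ)⁻¹ : O) * ⟨6, -1⟩] := rfl
    have h2 : (rp 3).val = !![⟨6, -1⟩, 1; N, w] := rfl
    change ((rp 3)⁻¹).val 0 0 * _ + ((rp 3)⁻¹).val 0 1 * _ = (rp 3).val 1 1 * _ - (rp 3).val 0 1 * _
    rw [h1, h2]
    simp
    ring

theorem rg_cov (g : Gam0 N) : ∃ i, w ∣ ((rg i)⁻¹ * g).val.val 0 1 := by
  have hkey : ∀ i, psi (((rg i)⁻¹ * g).val.val 0 1) =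
      psi ((rp i).val 1 1) * psi (g.val.val 0 1) - psi ((rp i).val 0 1) * psi (g.val.val 1 1) := by
    intro i
    rw [rg_entry, map_sub, map_mul, map_mul]
  have p01 : psi ((rp 0).val 1 1) = 1 := map_one psi
  have p02 : psi ((rp 0).val 0 1) = 0 := map_zero psi
  have p11 : psi ((rp 1).val 1 1) = 1 := map_one psi
  have p12 : psi ((rp 1).val 0 1) = 1 := map_one psi
  have p21 : psi ((rp 2).val 1 1) = 1 := map_one psi
  have p22 : psi ((rp 2).val 0 1) = 2 := map_ofNat psi 2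
  have p31 : psi ((rp 3).val 1 1) = 0 := by
    change ((0 : ℤ) : ZMod 3) = 0
    simp
  have p32 : psi ((rp 3).val 0 1) = 1 := map_one psi
  generalize psi (g.val.val 0 1) = b at hkey
  generalize psi (g.val.val 1 1) = d at hkey
  have h3 : ∀ b d : ZMod 3, 1 * b - 0 * d = 0 ∨ 1 * b - 1 * d = 0 ∨ 1 * b - 2 * d = 0 ∨
      0 * b - 1 * d = 0 := by decide
  rcases h3 b d with h | h | h | h
  · exact ⟨0, (psi_iff _).2 (by rw [hkey, p01, p02]; exact h)⟩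
  · exact ⟨1, (psi_iff _).2 (by rw [hkey, p11, p12]; exact h)⟩
  · exact ⟨2, (psi_iff _).2 (by rw [hkey, p21, p22]; exact h)⟩
  · exact ⟨3, (psi_iff _).2 (by rw [hkey, p31, p32]; exact h)⟩

theorem rg_sep (i j : Fin 4) (h : w ∣ ((rg i)⁻¹ * rg j).val.val 0 1) : i = j := by
  rw [psi_iff, rg_entry, map_sub, map_mul, map_mul] at h
  have p : ∀ i : Fin 4, psi ((rp i).val 1 1) = if i = 3 then 0 else 1 := by
    intro i
    fin_cases i
    · exact map_one psi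
    · exact map_one psi
    · exact map_one psi
    · change ((0 : ℤ) : ZMod 3) = 0
      simp
  have q : ∀ i : Fin 4, psi ((rp i).val 0 1) = ![0, 1, 2, 1] i := by
    intro i
    fin_cases i
    · exact map_zero psi
    · exact map_one psi
    · exact map_ofNat psi 2
    · exact map_one psi
  change psi ((rp i).val 1 1) * psi ((rp j).val 0 1) - psi ((rp i).val 0 1) *
    psi ((rp j).val 1 1) = 0 at h
  rw [p, p, q, q] at h
  revert h
  revert i j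
  decide

/-- check of one term of the formula for `T_w` at the word `Wc` -/
def okOne (Wc : List ℕ) (i : ℕ) (a : ℕ × List ℕ × ℕ × ℕ × List (ℕ × ℕ × ℕ)) : Bool :=
  decide (a.1 < 4) && okVal a.2.1 a.2.2.1 a.2.2.2.1 a.2.2.2.2 &&
    decide (((Mz.ev Wc).mul (rm i)).mul pz = ((rm a.1).mul pz).mul (Mz.ev a.2.1))

/-- check of the formula for `T_w` at the word `Wc` -/
def okHk (Wc : List ℕ) (hk : List (ℕ × List ℕ × ℕ × ℕ × List (ℕ × ℕ × ℕ))) : Bool :=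
  okOne Wc 0 (hk.getD 0 (0, [], 0, 0, [])) && okOne Wc 1 (hk.getD 1 (0, [], 0, 0, [])) &&
  okOne Wc 2 (hk.getD 2 (0, [], 0, 0, [])) && okOne Wc 3 (hk.getD 3 (0, [], 0, 0, []))

theorem okHk_a : okHk Wa hka = true := by decide +kernel
theorem okHk_b : okHk Wb hkb = true := by decide +kernel

theorem okVal_mem {W : List ℕ} {p q : ℕ} {L : List (ℕ × ℕ × ℕ)} (h : okVal W p q L = true) :
    evW W ∈ Gam0 N := by
  unfold okVal at h
  simp only [Bool.and_eq_true, decide_eq_true_eq, beq_iff_eq] at h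
  obtain ⟨⟨⟨⟨⟨h1, h2⟩, -⟩, -⟩, -⟩, -⟩ := h
  exact edges_mem W (fun l hl => of_decide_eq_true (List.all_eq_true.1 h1 l hl)) h2

theorem hecke_eval (Wc : List ℕ) (hk : List (ℕ × List ℕ × ℕ × ℕ × List (ℕ × ℕ × ℕ)))
    (h : okHk Wc hk = true) {x : HY N} {E : ℕ → FF} (hE : Edg x E) (γ : G N)
    (hγ : γ.val = evW Wc) :
    (T N w w_ne x).val γ = ∑ i : Fin 4, ((((hk.getD i (0, [], 0, 0, [])).2.2.1 : ℕ) : FF) * E 244 +
      (((hk.getD i (0, [], 0, 0, [])).2.2.2.1 : ℕ) : FF) * E 253) := by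
  have h' : ∀ i : Fin 4, okOne Wc i (hk.getD i (0, [], 0, 0, [])) = true := by
    unfold okHk at h
    simp only [Bool.and_eq_true] at h
    obtain ⟨⟨⟨a0, a1⟩, a2⟩, a3⟩ := h
    intro i
    fin_cases i
    exacts [a0, a1, a2, a3]
  have hi : ∀ i : Fin 4, (hk.getD i (0, [], 0, 0, [])).1 < 4 ∧
      okVal (hk.getD i (0, [], 0, 0, [])).2.1 (hk.getD i (0, [], 0, 0, [])).2.2.1
        (hk.getD i (0, [], 0, 0, [])).2.2.2.1 (hk.getD i (0, [], 0, 0, [])).2.2.2.2 = true ∧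
      ((Mz.ev Wc).mul (rm i)).mul pz =
        ((rm (hk.getD i (0, [], 0, 0, [])).1).mul pz).mul
          (Mz.ev (hk.getD i (0, [], 0, 0, [])).2.1) := by
    intro i
    have := h' i
    unfold okOne at this
    simp only [Bool.and_eq_true, decide_eq_true_eq] at this
    exact ⟨this.1.1, this.1.2, this.2⟩
  have key := hecke_formula N w w_ne rg rg_cov rg_sep x γ
    (fun i => ⟨(hk.getD i (0, [], 0, 0, [])).1, (hi i).1⟩)
    (fun i => ⟨evW (hk.getD i (0, [], 0, 0, [])).2.1, okVal_mem (hi i).2.1⟩) (by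
      intro i
      have h3 := congrArg Mz.mat (hi i).2.2
      rw [Mz.mat_mul, Mz.mat_mul, Mz.mat_mul, Mz.mat_mul, ← Mz.ev_mat, ← Mz.ev_mat, pz_mat] at h3
      have e1 : γ.val.val = (evW Wc).val := congrArg Units.val hγ
      change γ.val.val * (rp i).val * PM w = _ * PM w * _
      rw [e1, rp_mat]
      rw [h3]
      change _ = (rp _).val * PM w * (evW _).val
      rw [rp_mat])
  change heckeVal w w_ne x γ = _
  rw [key]
  apply Finset.sum_congr rfl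
  intro i _
  exact val_of_ok hE _ _ _ _ (hi i).2.1 _ rfl

/-- the first test element -/
def ga : G N := ⟨evW Wa, okVal_mem ok_Wa⟩

/-- the second test element -/
def gb : G N := ⟨evW Wb, okVal_mem ok_Wb⟩

theorem T_ga (x : HY N) : (T N w w_ne x).val ga = 0 := by
  obtain ⟨E, hE⟩ := exists_edg x
  rw [hecke_eval Wa hka okHk_a hE ga rfl]
  have h2 : (2 : FF) = 0 := CharTwo.two_eq_zero
  have e0 : (hka.getD 0 (0, [], 0, 0, [])).2.2.1 = 1 ∧ (hka.getD 0 (0, [], 0, 0, [])).2.2.2.1 = 1 :=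
    by decide +kernel
  have e1 : (hka.getD 1 (0, [], 0, 0, [])).2.2.1 = 1 ∧ (hka.getD 1 (0, [], 0, 0, [])).2.2.2.1 = 0 :=
    by decide +kernel
  have e2 : (hka.getD 2 (0, [], 0, 0, [])).2.2.1 = 1 ∧ (hka.getD 2 (0, [], 0, 0, [])).2.2.2.1 = 1 :=
    by decide +kernel
  have e3 : (hka.getD 3 (0, [], 0, 0, [])).2.2.1 = 1 ∧ (hka.getD 3 (0, [], 0, 0, [])).2.2.2.1 = 0 :=
    by decide +kernel
  rw [Fin.sum_univ_four]
  change (((hka.getD 0 (0, [], 0, 0, [])).2.2.1 : ℕ) : FF) * E 244 +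
    (((hka.getD 0 (0, [], 0, 0, [])).2.2.2.1 : ℕ) : FF) * E 253 +
    ((((hka.getD 1 (0, [], 0, 0, [])).2.2.1 : ℕ) : FF) * E 244 +
    (((hka.getD 1 (0, [], 0, 0, [])).2.2.2.1 : ℕ) : FF) * E 253) +
    ((((hka.getD 2 (0, [], 0, 0, [])).2.2.1 : ℕ) : FF) * E 244 +
    (((hka.getD 2 (0, [], 0, 0, [])).2.2.2.1 : ℕ) : FF) * E 253) +
    ((((hka.getD 3 (0, [], 0, 0, [])).2.2.1 : ℕ) : FF) * E 244 +
    (((hka.getD 3 (0, [], 0, 0, [])).2.2.2.1 : ℕ) : FF) * E 253) = 0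
  rw [e0.1, e0.2, e1.1, e1.2, e2.1, e2.2, e3.1, e3.2]
  push_cast
  linear_combination (2 * E 244 + E 253) * h2

theorem T_gb (x : HY N) : (T N w w_ne x).val gb = x.val gb := by
  obtain ⟨E, hE⟩ := exists_edg x
  rw [hecke_eval Wb hkb okHk_b hE gb rfl, val_of_ok hE Wb 0 1 cWb ok_Wb gb rfl]
  have h2 : (2 : FF) = 0 := CharTwo.two_eq_zero
  have e0 : (hkb.getD 0 (0, [], 0, 0, [])).2.2.1 = 0 ∧ (hkb.getD 0 (0, [], 0, 0, [])).2.2.2.1 = 1 :=
    by decide +kernel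
  have e1 : (hkb.getD 1 (0, [], 0, 0, [])).2.2.1 = 0 ∧ (hkb.getD 1 (0, [], 0, 0, [])).2.2.2.1 = 0 :=
    by decide +kernel
  have e2 : (hkb.getD 2 (0, [], 0, 0, [])).2.2.1 = 0 ∧ (hkb.getD 2 (0, [], 0, 0, [])).2.2.2.1 = 1 :=
    by decide +kernel
  have e3 : (hkb.getD 3 (0, [], 0, 0, [])).2.2.1 = 0 ∧ (hkb.getD 3 (0, [], 0, 0, [])).2.2.2.1 = 1 :=
    by decide +kernel
  rw [Fin.sum_univ_four]
  change (((hkb.getD 0 (0, [], 0, 0, [])).2.2.1 : ℕ) : FF) * E 244 +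
    (((hkb.getD 0 (0, [], 0, 0, [])).2.2.2.1 : ℕ) : FF) * E 253 +
    ((((hkb.getD 1 (0, [], 0, 0, [])).2.2.1 : ℕ) : FF) * E 244 +
    (((hkb.getD 1 (0, [], 0, 0, [])).2.2.2.1 : ℕ) : FF) * E 253) +
    ((((hkb.getD 2 (0, [], 0, 0, [])).2.2.1 : ℕ) : FF) * E 244 +
    (((hkb.getD 2 (0, [], 0, 0, [])).2.2.2.1 : ℕ) : FF) * E 253) +
    ((((hkb.getD 3 (0, [], 0, 0, [])).2.2.1 : ℕ) : FF) * E 244 +
    (((hkb.getD 3 (0, [], 0, 0, [])).2.2.2.1 : ℕ) : FF) * E 253) = _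
  rw [e0.1, e0.2, e1.1, e1.2, e2.1, e2.2, e3.1, e3.2]
  push_cast
  linear_combination (E 253) * h2

/-- a class which vanishes at the two test elements is zero. -/
theorem class_ext (x y : HY N) (ha : x.val ga = y.val ga) (hb : x.val gb = y.val gb) : x = y := by
  obtain ⟨E, hE⟩ := exists_edg (x - y)
  have h1 : ∀ γ, (x - y).val γ = x.val γ - y.val γ := fun γ => rfl
  have ha' := val_of_ok hE Wa 1 0 cWa ok_Wa ga rfl
  have hb' := val_of_ok hE Wb 0 1 cWb ok_Wb gb rfl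
  rw [h1, ha, sub_self] at ha'
  rw [h1, hb, sub_self] at hb'
  have e1 : E 244 = 0 := by
    simpa using ha'.symm
  have e2 : E 253 = 0 := by
    simpa using hb'.symm
  apply Subtype.ext
  funext γ
  have := class_zero hE e1 e2 γ
  rw [h1, sub_eq_zero] at this
  exact this

/-- `T_w` is idempotent on `H¹(Y₀(N), 𝔽̄₂)`. -/
theorem T_idem (x : HY N) : T N w w_ne (T N w w_ne x) = T N w w_ne x := by
  apply class_ext
  · rw [T_ga, T_ga]
  · exact T_gb _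

/-- the eigenvalue of `T_w` is `0` or `1`. -/
theorem ev_w (Φ : heckeRing N →+* FF) (π : GP N) (hπ : π.el = w) :
    Φ (heckeOp π) = 0 ∨ Φ (heckeOp π) = 1 := by
  have h1 : heckeOp π * heckeOp π = heckeOp π := by
    apply Subtype.ext
    change TE N π * TE N π = TE N π
    refine LinearMap.ext fun x => ?_
    have h2 : ∀ (v : O) (hv : v ≠ 0), v = w → T N v hv (T N v hv x) = T N v hv x := by
      rintro v hv rfl
      exact T_idem x
    exact h2 π.el π.ne hπ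
  have h2 : Φ (heckeOp π) * Φ (heckeOp π) = Φ (heckeOp π) := by rw [← map_mul, h1]
  have h3 : Φ (heckeOp π) * (Φ (heckeOp π) - 1) = 0 := by rw [mul_sub, h2, mul_one, sub_self]
  rcases mul_eq_zero.1 h3 with h | h
  · exact Or.inl h
  · exact Or.inr (sub_eq_zero.1 h)

end Lit
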