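import Pool.Agent.Lit.TameA

/-!
# Real: the splitting field

PROOF.  `M` = the splitting field over `K` of `g = f₁ f₂ (X² + X + 1)` (coefficients in `O`, mapped to `K`), with
the `O`-algebra structure of `Polynomial.SplittingField`.  `K` has characteristic `0`, so `M/K` is Galois and
finite.  All factors split in `M`: take the roots `s i`, `r i`, `z` in `M` with the Vieta relations (compare
coefficients of `f₁ = (X - s 0)(X - s 1)(X - s 2)`); they are integral over `O`.  `y, u₁, u₁', u₂, u₂'`: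
`half_mem` applied to `θ = r₀² r₁ + r₁² r₂ + r₂² r₀` (`θ² - 6(w-1) θ - 4 (w+4) = 0`) and to the cubes of the
resolvents `T = (s₀ + z s₁ + z² s₂)³` etc. (`T² + 2(2w+3) T + 8(2w+3) = 0`,
`T² + 54 (w-1) T - 216 (4w+7) = 0`).
`Gen`: an automorphism which fixes all `s i`, `r i` and `z` fixes all roots of `g`, hence is `1`, since `M` is
generated by the roots (`Polynomial.SplittingField.adjoin_rootSet` or `IsSplittingField`).
-/

open Matrix
open scoped QuadraticAlgebra Pointwise Polynomial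

namespace Lit

open SerreK Polynomial

theorem real_cf {F : Type*} [Field F] (a b c : F) :
    (X ^ 3 + C a * X ^ 2 + C b * X + C c : F[X]).coeff 2 = a ∧
    (X ^ 3 + C a * X ^ 2 + C b * X + C c : F[X]).coeff 1 = b ∧
    (X ^ 3 + C a * X ^ 2 + C b * X + C c : F[X]).coeff 0 = c := by
  refine ⟨?_, ?_, ?_⟩ <;> simp [coeff_X, coeff_C]

/-- a monic cubic which splits, Vieta -/
theorem real_cubic {F : Type*} [Field F] (a b c : F)
    (h : (X ^ 3 + C a * X ^ 2 + C b * X + C c : F[X]).Splits) :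
    ∃ s : Fin 3 → F, s 0 + s 1 + s 2 = -a ∧ s 0 * s 1 + s 0 * s 2 + s 1 * s 2 = b ∧
      s 0 * s 1 * s 2 = -c ∧
      ∀ x : F, (X ^ 3 + C a * X ^ 2 + C b * X + C c : F[X]).eval x = 0 → ∃ i, x = s i := by
  have hm : (X ^ 3 + C a * X ^ 2 + C b * X + C c : F[X]).Monic := by monicity!
  have hd : (X ^ 3 + C a * X ^ 2 + C b * X + C c : F[X]).natDegree = 3 := by compute_degree!
  have h1 := h.natDegree_eq_card_roots
  rw [hd] at h1
  obtain ⟨x, y, z, hxyz⟩ := Multiset.card_eq_three.1 h1.symm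
  have h2 := h.eq_prod_roots_of_monic hm
  rw [hxyz] at h2
  have h3 : (X ^ 3 + C a * X ^ 2 + C b * X + C c : F[X]) = (X - C x) * (X - C y) * (X - C z) := by
    rw [h2]
    simp only [Multiset.insert_eq_cons, Multiset.map_cons, Multiset.prod_cons,
      Multiset.map_singleton, Multiset.prod_singleton]
    ring
  have h4 : ((X - C x) * (X - C y) * (X - C z) : F[X]) =
      X ^ 3 + C (-(x + y + z)) * X ^ 2 + C (x * y + x * z + y * z) * X + C (-(x * y * z)) := by
    simp only [map_neg, map_add, map_mul]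
    ring
  have h5 := h3.trans h4
  have c2 : a = -(x + y + z) := by
    rw [← (real_cf a b c).1, h5, (real_cf _ _ _).1]
  have c1 : b = x * y + x * z + y * z := by
    rw [← (real_cf a b c).2.1, h5, (real_cf _ _ _).2.1]
  have c0 : c = -(x * y * z) := by
    rw [← (real_cf a b c).2.2, h5, (real_cf _ _ _).2.2]
  refine ⟨![x, y, z], ?_, ?_, ?_, ?_⟩
  · simp
    linear_combination c2
  · simp
    exact c1.symm
  · simp
    linear_combination c0
  · intro u hu
    rw [h3] at hu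
    simp only [eval_mul, eval_sub, eval_X, eval_C, mul_eq_zero, sub_eq_zero] at hu
    rcases hu with (hu | hu) | hu
    · exact ⟨0, hu⟩
    · exact ⟨1, hu⟩
    · exact ⟨2, hu⟩

/-- the first cubic -/
noncomputable def rf1 : K[X] := X ^ 3 + C (algebraMap O K (-w)) * X ^ 2 +
  C (algebraMap O K (w - 1)) * X + C (algebraMap O K 1)

/-- the second cubic -/
noncomputable def rf2 : K[X] := X ^ 3 + C (algebraMap O K 0) * X ^ 2 +
  C (algebraMap O K (2 * w - 4)) * X + C (algebraMap O K (2 * w - 2))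

/-- the third polynomial -/
noncomputable def rf3 : K[X] := X ^ 2 + X + 1

/-- the product -/
noncomputable def rgp : K[X] := rf1 * rf2 * rf3

theorem rf1_monic : rf1.Monic := by unfold rf1; monicity!
theorem rf2_monic : rf2.Monic := by unfold rf2; monicity!
theorem rf3_monic : rf3.Monic := by unfold rf3; monicity!
theorem rg_monic : rgp.Monic := (rf1_monic.mul rf2_monic).mul rf3_monic

section

variable (M : Type) [Field M] [Algebra K M] [Algebra O M] [IsScalarTower O K M]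
  [IsSplittingField K M rgp]

theorem real_roots : ∃ (s r : Fin 3 → M) (z : M),
    s 0 + s 1 + s 2 = algebraMap O M w ∧
    s 0 * s 1 + s 0 * s 2 + s 1 * s 2 = algebraMap O M (w - 1) ∧
    s 0 * s 1 * s 2 = -1 ∧ r 0 + r 1 + r 2 = 0 ∧
    r 0 * r 1 + r 0 * r 2 + r 1 * r 2 = algebraMap O M (2 * w - 4) ∧
    r 0 * r 1 * r 2 = algebraMap O M (2 - 2 * w) ∧ z ^ 2 + z + 1 = 0 ∧
    ∀ x ∈ rgp.rootSet M, (∃ i, x = s i) ∨ (∃ i, x = r i) ∨ x = z ∨ x = -1 - z := by
  have hs : (rgp.map (algebraMap K M)).Splits := IsSplittingField.splits M rgp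
  have hmap : rgp.map (algebraMap K M) =
      rf1.map (algebraMap K M) * rf2.map (algebraMap K M) * rf3.map (algebraMap K M) := by
    unfold rgp
    rw [Polynomial.map_mul, Polynomial.map_mul]
  rw [hmap] at hs
  have n1 : rf1.map (algebraMap K M) ≠ 0 := (rf1_monic.map _).ne_zero
  have n2 : rf2.map (algebraMap K M) ≠ 0 := (rf2_monic.map _).ne_zero
  have n3 : rf3.map (algebraMap K M) ≠ 0 := (rf3_monic.map _).ne_zero
  have hne : rf1.map (algebraMap K M) * rf2.map (algebraMap K M) * rf3.map (algebraMap K M) ≠ 0 :=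
    mul_ne_zero (mul_ne_zero n1 n2) n3
  have s1 : (rf1.map (algebraMap K M)).Splits :=
    hs.of_dvd hne (Dvd.intro _ (mul_assoc _ _ _).symm)
  have s2 : (rf2.map (algebraMap K M)).Splits :=
    hs.of_dvd hne (Dvd.intro_left (rf1.map (algebraMap K M) * rf3.map (algebraMap K M)) (by ring))
  have s3 : (rf3.map (algebraMap K M)).Splits := hs.of_dvd hne (Dvd.intro_left _ rfl)
  have e1 : rf1.map (algebraMap K M) = X ^ 3 + C (algebraMap O M (-w)) * X ^ 2 +
      C (algebraMap O M (w - 1)) * X + C (algebraMap O M 1) := by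
    unfold rf1
    simp only [Polynomial.map_add, Polynomial.map_mul, Polynomial.map_pow, Polynomial.map_X,
      Polynomial.map_C, ← IsScalarTower.algebraMap_apply]
  have e2 : rf2.map (algebraMap K M) = X ^ 3 + C (algebraMap O M 0) * X ^ 2 +
      C (algebraMap O M (2 * w - 4)) * X + C (algebraMap O M (2 * w - 2)) := by
    unfold rf2
    simp only [Polynomial.map_add, Polynomial.map_mul, Polynomial.map_pow, Polynomial.map_X,
      Polynomial.map_C, ← IsScalarTower.algebraMap_apply]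
  have e3 : rf3.map (algebraMap K M) = X ^ 2 + X + 1 := by
    unfold rf3
    simp
  rw [e1] at s1
  rw [e2] at s2
  rw [e3] at s3
  obtain ⟨s, hs1, hs2, hs3, hs4⟩ := real_cubic _ _ _ s1
  obtain ⟨r, hr1, hr2, hr3, hr4⟩ := real_cubic _ _ _ s2
  have hd3 : (X ^ 2 + X + 1 : M[X]).degree ≠ 0 := by
    have : (X ^ 2 + X + 1 : M[X]).degree = 2 := by compute_degree!
    rw [this]; decide
  obtain ⟨z, hz⟩ := s3.exists_eval_eq_zero hd3
  have hz' : z ^ 2 + z + 1 = 0 := by simpa using hz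
  refine ⟨s, r, z, ?_, hs2, ?_, ?_, hr2, ?_, hz', ?_⟩
  · rw [hs1, map_neg, neg_neg]
  · rw [hs3, map_one]
  · rw [hr1, map_zero, neg_zero]
  · rw [hr3, ← map_neg, neg_sub]
  · intro x hx
    rw [mem_rootSet] at hx
    have h1 : (rgp.map (algebraMap K M)).eval x = 0 := by
      rw [eval_map_algebraMap]; exact hx.2
    rw [hmap, eval_mul, eval_mul, mul_eq_zero, mul_eq_zero, e1, e2, e3] at h1
    rcases h1 with (h1 | h1) | h1
    · exact Or.inl (hs4 x h1)
    · exact Or.inr (Or.inl (hr4 x h1))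
    · right; right
      simp at h1
      have : (x - z) * (x + 1 + z) = 0 := by linear_combination h1 - hz'
      rcases mul_eq_zero.1 this with h | h
      · exact Or.inl (sub_eq_zero.1 h)
      · right; linear_combination h

end

theorem real_cubic_root {R : Type*} [CommRing R] (s : Fin 3 → R) (i : Fin 3) :
    s i ^ 3 - (s 0 + s 1 + s 2) * s i ^ 2 + (s 0 * s 1 + s 0 * s 2 + s 1 * s 2) * s i -
      s 0 * s 1 * s 2 = 0 := by
  fin_cases i <;> simp <;> ring

theorem real_cube {S : Type} [CommRing S] (z a b c : S) (hz : z ^ 2 + z + 1 = 0) :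
    (a + z * b + z ^ 2 * c) ^ 3 + (a + z ^ 2 * b + z * c) ^ 3
      = 2 * (a + b + c) ^ 3 - 9 * (a + b + c) * (a * b + a * c + b * c) + 27 * (a * b * c) := by
  linear_combination (-2*c^3 + 3*b*c^2 + 3*b^2*c - 2*b^3 + 3*a*c^2 - 12*a*b*c + 3*a*b^2
    + 3*a^2*c + 3*a^2*b + 2*z*c^3 - 3*z*b*c^2 - 3*z*b^2*c + 2*z*b^3 - 3*z*a*c^2 + 12*z*a*b*c
    - 3*z*a*b^2 + 3*z^2*a*c^2 + 3*z^2*a*b^2 - 1*z^3*c^3 + 3*z^3*b*c^2 + 3*z^3*b^2*c
    - 1*z^3*b^3 + 1*z^4*c^3 + 1*z^4*b^3) * hz

theorem real_mul {S : Type} [CommRing S] (z a b c : S) (hz : z ^ 2 + z + 1 = 0) :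
    (a + z * b + z ^ 2 * c) * (a + z ^ 2 * b + z * c)
      = (a + b + c) ^ 2 - 3 * (a * b + a * c + b * c) := by
  linear_combination (-1*c^2 + 1*b*c - 1*b^2 + 1*a*c + 1*a*b + 1*z*c^2 - 1*z*b*c + 1*z*b^2
    + 1*z^2*b*c) * hz

theorem real_int {M : Type} [Field M] [Algebra O M] (x : M) (a b c : O)
    (h : x ^ 3 + algebraMap O M a * x ^ 2 + algebraMap O M b * x + algebraMap O M c = 0) :
    x ∈ integralClosure O M := by
  refine ⟨X ^ 3 + C a * X ^ 2 + C b * X + C c, by monicity!, ?_⟩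
  simpa [eval₂_add, eval₂_mul, eval₂_pow] using h

section

variable (M : Type) [Field M] [Algebra K M] [Algebra O M] [IsScalarTower O K M]
  [FiniteDimensional K M] [IsGalois K M] [IsSplittingField K M rgp]

theorem real_dat : ∃ D : Dat (RI M), Gen D := by
  obtain ⟨s, r, z, hs1, hs2, hs3, hr1, hr2, hr3, hz, hroot⟩ := real_roots M
  have is : ∀ i, s i ∈ integralClosure O M := by
    intro i
    apply real_int (s i) (-w) (w - 1) 1
    have := real_cubic_root s i
    rw [hs1, hs2, hs3] at this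
    rw [map_neg, map_one]
    linear_combination this
  have ir : ∀ i, r i ∈ integralClosure O M := by
    intro i
    apply real_int (r i) 0 (2 * w - 4) (2 * w - 2)
    have := real_cubic_root r i
    rw [hr1, hr2, hr3] at this
    rw [map_zero]
    have e : algebraMap O M (2 - 2 * w) = -algebraMap O M (2 * w - 2) := by
      rw [← map_neg, neg_sub]
    rw [e] at this
    linear_combination this
  have iz : z ∈ integralClosure O M := by
    apply real_int z 0 0 (-1)
    simp only [map_zero, map_neg, map_one]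
    linear_combination (z - 1) * hz
  -- the elements of the ring of integers
  let s' : Fin 3 → RI M := fun i => ⟨s i, is i⟩
  let r' : Fin 3 → RI M := fun i => ⟨r i, ir i⟩
  let z' : RI M := ⟨z, iz⟩
  have cf : ∀ x : O, ((algebraMap O (RI M) x : RI M) : M) = algebraMap O M x := fun x => rfl
  have hs1' : s' 0 + s' 1 + s' 2 = algebraMap O (RI M) w := Subtype.ext hs1
  have hs2' : s' 0 * s' 1 + s' 0 * s' 2 + s' 1 * s' 2 = algebraMap O (RI M) (w - 1) :=
    Subtype.ext hs2
  have hs3' : s' 0 * s' 1 * s' 2 = -1 := Subtype.ext hs3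
  have hr1' : r' 0 + r' 1 + r' 2 = 0 := Subtype.ext hr1
  have hr2' : r' 0 * r' 1 + r' 0 * r' 2 + r' 1 * r' 2 = algebraMap O (RI M) (2 * w - 4) :=
    Subtype.ext hr2
  have hr3' : r' 0 * r' 1 * r' 2 = algebraMap O (RI M) (2 - 2 * w) := Subtype.ext hr3
  have hz' : z' ^ 2 + z' + 1 = 0 := Subtype.ext hz
  have o2 : algebraMap O (RI M) 2 = 2 := map_ofNat _ 2
  have o3 : algebraMap O (RI M) 3 = 3 := map_ofNat _ 3
  have o4 : algebraMap O (RI M) 4 = 4 := map_ofNat _ 4
  have o7 : algebraMap O (RI M) 7 = 7 := map_ofNat _ 7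
  have o27 : algebraMap O (RI M) 27 = 27 := map_ofNat _ 27
  have o54 : algebraMap O (RI M) 54 = 54 := map_ofNat _ 54
  have hw : algebraMap O (RI M) w ^ 2 = algebraMap O (RI M) w - 3 := by
    rw [← map_pow, w_sq, map_sub, o3]
  have e2 : algebraMap O (RI M) (w - 1) = algebraMap O (RI M) w - 1 := by
    rw [map_sub, map_one]
  have e3 : algebraMap O (RI M) (2 * w - 4) = 2 * algebraMap O (RI M) w - 4 := by
    rw [map_sub, map_mul, o2, o4]
  have e4 : algebraMap O (RI M) (2 - 2 * w) = 2 - 2 * algebraMap O (RI M) w := by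
    rw [map_sub, map_mul, o2]
  rw [e2] at hs2'
  rw [e3] at hr2'
  rw [e4] at hr3'
  -- halves
  have key : ∀ (a b : RI M) (p q : O), a + b = 2 * algebraMap O (RI M) p →
      a * b = 4 * algebraMap O (RI M) q → ∃ y : RI M, 2 * y = a := by
    intro a b p q h1 h2
    apply half_mem a p q
    linear_combination a * h1 - h2
  have hW : algebraMap O (RI M) w ^ 2 - algebraMap O (RI M) w + 3 = 0 := by
    linear_combination hw
  have ky : (r' 0 ^ 2 * r' 1 + r' 1 ^ 2 * r' 2 + r' 2 ^ 2 * r' 0)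
      + (r' 0 ^ 2 * r' 2 + r' 2 ^ 2 * r' 1 + r' 1 ^ 2 * r' 0)
      = (r' 0 + r' 1 + r' 2) * (r' 0 * r' 1 + r' 0 * r' 2 + r' 1 * r' 2)
        - 3 * (r' 0 * r' 1 * r' 2) := by ring
  have ky2 : (r' 0 ^ 2 * r' 1 + r' 1 ^ 2 * r' 2 + r' 2 ^ 2 * r' 0)
      * (r' 0 ^ 2 * r' 2 + r' 2 ^ 2 * r' 1 + r' 1 ^ 2 * r' 0)
      = (r' 0 + r' 1 + r' 2) ^ 3 * (r' 0 * r' 1 * r' 2)
        + (r' 0 * r' 1 + r' 0 * r' 2 + r' 1 * r' 2) ^ 3
        - 6 * (r' 0 + r' 1 + r' 2) * (r' 0 * r' 1 + r' 0 * r' 2 + r' 1 * r' 2)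
          * (r' 0 * r' 1 * r' 2) + 9 * (r' 0 * r' 1 * r' 2) ^ 2 := by ring
  rw [hr1', hr2', hr3'] at ky ky2
  have m1 := real_mul z' (s' 0) (s' 1) (s' 2) hz'
  have c1 := real_cube z' (s' 0) (s' 1) (s' 2) hz'
  have m2 := real_mul z' (r' 0) (r' 1) (r' 2) hz'
  have c2 := real_cube z' (r' 0) (r' 1) (r' 2) hz'
  rw [hs1', hs2'] at m1
  rw [hs1', hs2', hs3'] at c1
  rw [hr1', hr2'] at m2
  rw [hr1', hr2', hr3'] at c2
  obtain ⟨y, hy⟩ := key (r' 0 ^ 2 * r' 1 + r' 1 ^ 2 * r' 2 + r' 2 ^ 2 * r' 0)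
    (r' 0 ^ 2 * r' 2 + r' 2 ^ 2 * r' 1 + r' 1 ^ 2 * r' 0) (3 * (w - 1)) (-(w + 4))
    (by
      rw [map_mul, o3, e2, ky]
      ring)
    (by
      rw [map_neg, map_add, o4, ky2]
      linear_combination (8 * algebraMap O (RI M) w - 4) * hW)
  have e5 : algebraMap O (RI M) (-(2 * w + 3)) = -(2 * algebraMap O (RI M) w + 3) := by
    rw [map_neg, map_add, map_mul, o2, o3]
  have e6 : algebraMap O (RI M) (2 * (2 * w + 3)) = 2 * (2 * algebraMap O (RI M) w + 3) := by
    rw [map_mul, map_add, map_mul, o2, o3]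
  have e7 : algebraMap O (RI M) (-27 * (w - 1)) = -27 * (algebraMap O (RI M) w - 1) := by
    rw [map_mul, map_neg, e2, o27]
  have e8 : algebraMap O (RI M) (-54 * (4 * w + 7)) = -54 * (4 * algebraMap O (RI M) w + 7) := by
    rw [map_mul, map_neg, map_add, map_mul, o4, o7, o54]
  have p1 : (s' 0 + z' * s' 1 + z' ^ 2 * s' 2) ^ 3 + (s' 0 + z' ^ 2 * s' 1 + z' * s' 2) ^ 3 =
      2 * algebraMap O (RI M) (-(2 * w + 3)) := by
    rw [c1, e5]
    linear_combination (2 * algebraMap O (RI M) w - 7) * hW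
  have q1 : (s' 0 + z' * s' 1 + z' ^ 2 * s' 2) ^ 3 * (s' 0 + z' ^ 2 * s' 1 + z' * s' 2) ^ 3 =
      4 * algebraMap O (RI M) (2 * (2 * w + 3)) := by
    rw [← mul_pow, m1, e6]
    have m1' : algebraMap O (RI M) w ^ 2 - 3 * (algebraMap O (RI M) w - 1) =
      -2 * algebraMap O (RI M) w := by linear_combination hW
    rw [m1']
    linear_combination (-8 - 8 * algebraMap O (RI M) w) * hW
  have p2 : (r' 0 + z' * r' 1 + z' ^ 2 * r' 2) ^ 3 + (r' 0 + z' ^ 2 * r' 1 + z' * r' 2) ^ 3 =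
      2 * algebraMap O (RI M) (-27 * (w - 1)) := by
    rw [c2, e7]
    ring
  have q2 : (r' 0 + z' * r' 1 + z' ^ 2 * r' 2) ^ 3 * (r' 0 + z' ^ 2 * r' 1 + z' * r' 2) ^ 3 =
      4 * algebraMap O (RI M) (-54 * (4 * w + 7)) := by
    rw [← mul_pow, m2, e8]
    linear_combination (1080 - 216 * algebraMap O (RI M) w) * hW
  obtain ⟨u1, hu1⟩ := key _ _ _ _ p1 q1
  obtain ⟨u1', hu1'⟩ := key _ _ _ _ ((add_comm _ _).trans p1) ((mul_comm _ _).trans q1)
  obtain ⟨u2, hu2⟩ := key _ _ _ _ p2 q2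
  obtain ⟨u2', hu2'⟩ := key _ _ _ _ ((add_comm _ _).trans p2) ((mul_comm _ _).trans q2)
  let D : Dat (RI M) := ⟨s', r', z', hs1', by rw [e2]; exact hs2', hs3', hr1',
    by rw [e3]; exact hr2', by rw [e4]; exact hr3', hz', y, hy, u1, hu1, u1', hu1', u2, hu2,
    u2', hu2'⟩
  refine ⟨D, fun σ h1 h2 h3 => ?_⟩
  -- the roots are fixed
  have f1 : ∀ i, σ (s i) = s i := fun i => congrArg Subtype.val (h1 i)
  have f2 : ∀ i, σ (r i) = r i := fun i => congrArg Subtype.val (h2 i)
  have f3 : σ z = z := congrArg Subtype.val h3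
  have hfix : ∀ x ∈ rgp.rootSet M, σ x = x := by
    intro x hx
    rcases hroot x hx with ⟨i, rfl⟩ | ⟨i, rfl⟩ | rfl | rfl
    · exact f1 i
    · exact f2 i
    · exact f3
    · rw [map_sub, map_neg, map_one, f3]
  have hle : Algebra.adjoin K (rgp.rootSet M) ≤ AlgHom.equalizer (σ : M →ₐ[K] M)
      (AlgHom.id K M) := by
    rw [Algebra.adjoin_le_iff]
    intro x hx
    exact hfix x hx
  rw [IsSplittingField.adjoin_rootSet M rgp] at hle
  apply AlgEquiv.ext
  intro x
  exact hle (Algebra.mem_top : x ∈ (⊤ : Subalgebra K M))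

end

theorem exists_real : ∃ (M : Type) (_ : Field M) (_ : Algebra K M) (_ : Algebra O M)
    (_ : IsScalarTower O K M) (_ : FiniteDimensional K M) (_ : IsGalois K M)
    (D : Dat (RI M)), Gen D := by
  have hc : CharZero K := by
    have : CharZero O := inferInstance
    exact IsFractionRing.charZero O
  have hg : IsGalois K rgp.SplittingField := by
    have : Normal K rgp.SplittingField := Normal.of_isSplittingField rgp
    exact ⟨⟩
  obtain ⟨D, hD⟩ := real_dat rgp.SplittingField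
  exact ⟨rgp.SplittingField, inferInstance, inferInstance, inferInstance, inferInstance,
    inferInstance, hg, D, hD⟩

end Lit
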