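import Pool.Agent.Lit.TameA

/-!
# TameB: the Serre conductor of `ρ` is `(N)`

PROOFS. `N ∈ P`: `ramGroup P 0 = P.inertia` has order two (`tame_two`), for `i ≥ 1`
`ramGroup P i ≤ (P²).inertia` is trivial (`tame_G1`; `P^(i+1) ≤ P²`), so `fixedSpace = ⊤` of dimension `2`
and the term is `0`; `finsum_eq_single`.  For `i = 0`: `P.inertia = {1, τ}` with `k τ = 0`, `π τ` odd
(`unr_not3`, `π τ ≠ 1` since otherwise `τ` fixes everything), `ρ τ = MM (π τ)`, and `MM_odd`: the fixed
space is a line, `finrank = 1`.  The multiplicity is `1` (`under_N`, `mult_N`).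
`N ∉ P`: `ρ` is trivial on `P.inertia` (`unr_rho`) which contains all `ramGroup P i`; all terms are `0`;
the multiplicity is `0` (`mult_N'`).
-/

open Matrix
open scoped QuadraticAlgebra Pointwise

namespace Lit

open SerreK

variable {M : Type} [Field M] [Algebra K M] [Algebra O M] [IsScalarTower O K M]
  [FiniteDimensional K M] [IsGalois K M] {D : Dat (RI M)} {ρ : Gal(M/K) →* GL (Fin 2) FF}

omit [FiniteDimensional K M] [IsGalois K M] in
private theorem tameB_top {H : Subgroup Gal(M/K)} (h : ∀ σ ∈ H, ρ σ = 1) :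
    Module.finrank FF (fixedSpace ρ H) = 2 := by
  have h1 : fixedSpace ρ H = ⊤ := by
    rw [eq_top_iff]
    intro v _ σ hσ
    rw [h σ hσ]
    simp
  rw [h1, finrank_top, Module.finrank_fin_fun]

omit [FiniteDimensional K M] [IsGalois K M] in
private theorem tameB_mono (P : Ideal (RI M)) {i j : ℕ} (hij : i ≤ j) (σ : Gal(M/K))
    (h : σ ∈ (P ^ j).inertia Gal(M/K)) : σ ∈ (P ^ i).inertia Gal(M/K) := by
  intro x
  exact Ideal.pow_le_pow_right hij (h x)

private theorem tameB_sign (τ : Equiv.Perm (Fin 3)) (h : τ ≠ 1) (h' : ∃ i, τ i = i) :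
    Equiv.Perm.sign τ = -1 := by
  revert τ
  decide

theorem artin_zero (A : Act D Gal(M/K) ρ) (P : Ideal (RI M)) [P.IsPrime]
    (h2 : (2 : RI M) ∉ P) (hN : algebraMap O (RI M) N ∉ P) : artinExp ρ P = 0 := by
  unfold artinExp
  refine (finsum_congr fun i => ?_).trans finsum_zero
  have h1 : ∀ σ ∈ ramGroup P i, ρ σ = 1 := by
    intro σ hσ
    have h2' := tameB_mono P (Nat.succ_le_succ (Nat.zero_le i)) σ hσ
    rw [show (0 : ℕ).succ = 1 from rfl, pow_one] at h2'
    exact unr_rho A P h2 hN σ h2'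
  rw [tameB_top h1]
  simp

theorem artin_one (A : Act D Gal(M/K) ρ) (hg : Gen D) (P : Ideal (RI M)) [P.IsPrime]
    (h2 : (2 : RI M) ∉ P) (hN : algebraMap O (RI M) N ∈ P) : artinExp ρ P = 1 := by
  obtain ⟨hcard, -⟩ := tame_two A hg P h2 hN
  have h0 : ramGroup P 0 = P.inertia Gal(M/K) := by
    unfold ramGroup
    rw [zero_add, pow_one]
  obtain ⟨τ, hτ1, huniq⟩ := (Nat.card_eq_two_iff' (1 : P.inertia Gal(M/K))).1 hcard
  have hτ : τ.1 ∈ P.inertia Gal(M/K) := τ.2
  have hk : A.k τ.1 = 0 := unr_k A P h2 τ.1 hτ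
  have hπ : A.π τ.1 ≠ 1 := by
    intro h
    refine hτ1 (Subtype.ext (hg τ.1 (fun i => ?_) (fun i => ?_) (unr_z D P hN τ.1 hτ)))
    · rw [A.hk, hk, add_zero]
    · rw [A.hπ, h]
      rfl
  have hsign := tameB_sign (A.π τ.1) hπ (unr_not3 A P hN τ.1 hτ)
  obtain ⟨u, hu, huv⟩ := MM_odd (A.π τ.1) hsign
  have hρ : (ρ τ.1).val = (MM (A.π τ.1)).val := by
    rw [A.hρ, hk]
    simp
  have hfix : fixedSpace ρ (ramGroup P 0) = Submodule.span FF {u} := by
    ext v
    rw [Submodule.mem_span_singleton]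
    constructor
    · intro h
      have h3 := h τ.1 (by rw [h0]; exact hτ)
      rw [hρ, huv] at h3
      obtain ⟨c, hc⟩ := h3
      exact ⟨c, hc.symm⟩
    · rintro ⟨c, hc⟩ σ hσ
      rw [h0] at hσ
      by_cases h4 : σ = 1
      · rw [h4, map_one]
        simp
      · have h5 : (⟨σ, hσ⟩ : P.inertia Gal(M/K)) = τ :=
          huniq ⟨σ, hσ⟩ fun h => h4 (congrArg Subtype.val h)
        have h6 : σ = τ.1 := congrArg Subtype.val h5
        rw [h6, hρ, huv]
        exact ⟨c, hc.symm⟩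
  unfold artinExp
  rw [finsum_eq_single _ 0]
  · rw [hfix, finrank_span_singleton hu, h0, hcard]
    norm_num
  · intro i hi
    have h1 : ∀ σ ∈ ramGroup P i, ρ σ = 1 := by
      intro σ hσ
      have h2' := tameB_mono P (show 2 ≤ i + 1 by omega) σ hσ
      rw [tame_G1 A hg P h2 hN σ h2', map_one]
    rw [tameB_top h1]
    simp

theorem conductor (A : Act D Gal(M/K) ρ) (hg : Gen D) : SerreConductor ρ N := by
  intro P hP hP0 h2
  have := hP
  by_cases hN : algebraMap O (RI M) N ∈ P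
  · rw [artin_one A hg P h2 hN]
    have h1 : P.under O = Ideal.span {N} :=
      under_N (P.under O) inferInstance (Ideal.mem_comap.2 hN)
    rw [h1, mult_N]
    simp
  · rw [artin_zero A P h2 hN, mult_N' (P.under O) fun h => hN (Ideal.mem_comap.1 h)]
    simp

theorem character (A : Act D Gal(M/K) ρ) : TrivialCharacter ρ := by
  intro P hP _ h2 σ hσ
  have := hP
  exact unr_det A P h2 σ hσ

end Lit
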