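import Pool.Agent.Lit.Flat
import Pool.Agent.Lit.TameB
import Pool.Agent.Lit.Frob
import Pool.Agent.Lit.Real
import Pool.Agent.Lit.HeckeW

/-!
# Main theorem
-/

open Matrix
open scoped QuadraticAlgebra Pointwise

namespace Lit

open SerreK

theorem main : ∃ (M : Type) (_ : Field M) (_ : Algebra K M) (_ : Algebra O M)
    (_ : IsScalarTower O K M) (_ : FiniteDimensional K M) (_ : IsGalois K M)
    (ρ : Gal(M/K) →* GL (Fin 2) FF),
    Irred ρ ∧ SerreConductor ρ N ∧ TrivialCharacter ρ ∧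
      (∀ (P : Ideal (RI M)) (_ : P.IsPrime), (2 : RI M) ∈ P → FiniteFlatAt ρ P) ∧
      ∀ Φ : heckeRing N →+* FF, ¬ Attached ρ Φ := by
  obtain ⟨M, _, _, _, _, _, _, D, hg⟩ := exists_real
  obtain ⟨ρ, ⟨A⟩⟩ := exists_act (G := Gal(M/K)) D
  refine ⟨M, inferInstance, inferInstance, inferInstance, inferInstance, inferInstance,
    inferInstance, ρ, irred A, conductor A hg, character A, fun P _ h2 => flat_at A P h2, ?_⟩
  intro Φ hΦ
  obtain ⟨P, σ, hP, hw, hσ⟩ := exists_frob M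
  have h1 := hΦ ⟨w, w_prime, w_not_dvd⟩ P hP hw σ hσ
  have h2 := frob_trace A P hw σ hσ
  rcases ev_w Φ ⟨w, w_prime, w_not_dvd⟩ rfl with h | h
  · exact h2.1 (h1.trans h)
  · exact h2.2 (h1.trans h)

end Lit
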