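import Pool.Agent.Lit.Defs

/-!
# S3M: the two-dimensional representation of `S₃` over `𝔽̄₂`
-/

open Matrix

namespace Lit

open SerreK

/-- the matrix of `π ∈ S₃` on `{v ∈ 𝔽₂³ : v₀ + v₁ + v₂ = 0}`, basis `e₀ + e₂`, `e₁ + e₂`. -/
def m0 (π : Equiv.Perm (Fin 3)) : Matrix (Fin 2) (Fin 2) (ZMod 2) :=
  Matrix.of fun i j => (if π (Fin.castSucc j) = Fin.castSucc i then 1 else 0) +
    (if π 2 = Fin.castSucc i then 1 else 0)

theorem m0_mul (π τ : Equiv.Perm (Fin 3)) : m0 (π * τ) = m0 π * m0 τ := by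
  revert π τ; decide

theorem m0_one : m0 1 = 1 := by decide

/-- the representation of `S₃` on `𝔽₂²` -/
def M0 : Equiv.Perm (Fin 3) →* GL (Fin 2) (ZMod 2) where
  toFun π := ⟨m0 π, m0 π⁻¹, by rw [← m0_mul, mul_inv_cancel, m0_one],
    by rw [← m0_mul, inv_mul_cancel, m0_one]⟩
  map_one' := Units.ext m0_one
  map_mul' π τ := Units.ext (m0_mul π τ)

/-- the representation of `S₃` on `𝔽̄₂²` -/
noncomputable def MM : Equiv.Perm (Fin 3) →* GL (Fin 2) FF :=
  (Matrix.GeneralLinearGroup.map (algebraMap (ZMod 2) FF)).comp M0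

/-- the entries of `MM π` -/
theorem MM_apply (π : Equiv.Perm (Fin 3)) (i j : Fin 2) :
    (MM π).val i j = algebraMap (ZMod 2) FF (m0 π i j) := rfl

theorem exists_zeta : ∃ z : FF, z ^ 2 + z + 1 = 0 := by
  have : (Polynomial.X ^ 2 + Polynomial.X + 1 : Polynomial FF).degree ≠ 0 := by
    have : (Polynomial.X ^ 2 + Polynomial.X + 1 : Polynomial FF).degree = 2 := by
      compute_degree!
    rw [this]; decide
  obtain ⟨z, hz⟩ := IsAlgClosed.exists_root _ this
  exact ⟨z, by simpa using hz⟩

/-- a primitive cube root of unity in `𝔽̄₂` -/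
noncomputable def ze : FF := Classical.choose exists_zeta

theorem ze_spec : ze ^ 2 + ze + 1 = 0 := Classical.choose_spec exists_zeta

theorem ze_cube : ze ^ 3 = 1 := by
  have h := ze_spec
  linear_combination (ze - 1) * h

theorem ze_ne_zero : ze ≠ 0 := by
  intro h
  have h2 := ze_spec
  rw [h] at h2
  simp at h2

theorem two_FF' : (2 : FF) = 0 := CharTwo.two_eq_zero

theorem ze_ne_one : ze ≠ 1 := by
  intro h
  have h2 := ze_spec
  rw [h] at h2
  have : (1 : FF) = 0 := by linear_combination h2 - two_FF'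
  exact one_ne_zero this

/-- `v_λ = (λ, 1)`, the eigenvectors of the rotations are `v_ζ` and `v_{ζ²}`. -/
noncomputable def vec (l : FF) : Fin 2 → FF := ![l, 1]

private theorem S3M_map (π : Equiv.Perm (Fin 3)) :
    (MM π).val = (m0 π).map (algebraMap (ZMod 2) FF) := rfl

/-- the determinant of `MM π` is `1` -/
theorem MM_det (π : Equiv.Perm (Fin 3)) : (MM π).val.det = 1 := by
  have h : (m0 π).det = 1 := by revert π; decide
  rw [S3M_map]
  have h2 := (RingHom.map_det (algebraMap (ZMod 2) FF) (m0 π))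
  rw [h, map_one] at h2
  exact h2.symm

/-- the trace of `MM π` is `1` if `π` has no fixed point. -/
theorem MM_trace (π : Equiv.Perm (Fin 3)) (h : ∀ i, π i ≠ i) : (MM π).val.trace = 1 := by
  have h1 : (m0 π).trace = 1 := by revert π; decide
  rw [S3M_map, Matrix.trace_fin_two, Matrix.map_apply, Matrix.map_apply, ← map_add,
    ← Matrix.trace_fin_two, h1, map_one]

private theorem S3M_rot : ∀ (k : Fin 3) (π : Equiv.Perm (Fin 3)), (∀ i, π i = i + k) →
    (k = 0 ∧ m0 π = !![1, 0; 0, 1]) ∨ (k = 1 ∧ m0 π = !![1, 1; 1, 0]) ∨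
      (k = 2 ∧ m0 π = !![0, 1; 1, 1]) := by decide

private theorem S3M_mv (a b c d : ZMod 2) (π : Equiv.Perm (Fin 3)) (h : m0 π = !![a, b; c, d])
    (v : Fin 2 → FF) : (MM π).val.mulVec v =
      ![algebraMap (ZMod 2) FF a * v 0 + algebraMap (ZMod 2) FF b * v 1,
        algebraMap (ZMod 2) FF c * v 0 + algebraMap (ZMod 2) FF d * v 1] := by
  rw [S3M_map, h]
  funext i
  fin_cases i <;> simp [Matrix.mulVec, dotProduct, Fin.sum_univ_two]

/-- the eigenvectors of the rotation `i ↦ i + k` : if `l² + l + 1 = 0` then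
`MM π v_l = l^k v_l`. -/
theorem MM_rot (π : Equiv.Perm (Fin 3)) (k : Fin 3) (h : ∀ i, π i = i + k) (l : FF)
    (hl : l ^ 2 + l + 1 = 0) : (MM π).val.mulVec (vec l) = l ^ (k : ℕ) • vec l := by
  have h2 := two_FF'
  rcases S3M_rot k π h with ⟨hk, hm⟩ | ⟨hk, hm⟩ | ⟨hk, hm⟩
  · subst hk
    rw [S3M_mv _ _ _ _ π hm]
    funext i
    fin_cases i <;> simp [vec]
  · subst hk
    rw [S3M_mv _ _ _ _ π hm]
    funext i
    fin_cases i
    · simp [vec]
      linear_combination -hl + (l + 1) * h2
    · simp [vec]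
  · subst hk
    rw [S3M_mv _ _ _ _ π hm]
    funext i
    fin_cases i
    · simp [vec]
      linear_combination -(l - 1) * hl
    · simp [vec]
      linear_combination -hl + (l + 1) * h2

private theorem S3M_rel : ∀ π τ : Equiv.Perm (Fin 3), (∀ i, π i ≠ i) →
    Equiv.Perm.sign τ = -1 → τ * τ = 1 ∧ τ * π * τ * π = 1 ∧
      m0 π * m0 π + m0 π + 1 = 0 := by decide

/-- no line is stable under a fixed point free element and an odd element. -/
theorem MM_irr (π τ : Equiv.Perm (Fin 3)) (h : ∀ i, π i ≠ i) (hτ : Equiv.Perm.sign τ = -1)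
    (v : Fin 2 → FF) (c d : FF) (h1 : (MM π).val.mulVec v = c • v)
    (h2 : (MM τ).val.mulVec v = d • v) : v = 0 := by
  obtain ⟨r1, r2, r3⟩ := S3M_rel π τ h hτ
  have e1 : (d * d) • v = v := by
    have h3 : ((MM τ).val * (MM τ).val).mulVec v = v := by
      have h4 : (MM τ).val * (MM τ).val = 1 := by
        have h5 : MM τ * MM τ = 1 := by rw [← map_mul, r1, map_one]
        exact congrArg Units.val h5
      rw [h4, Matrix.one_mulVec]
    rw [← Matrix.mulVec_mulVec, h2, Matrix.mulVec_smul, h2, smul_smul] at h3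
    exact h3
  have e2 : (d * c * d * c) • v = v := by
    have h3 : ((MM τ).val * (MM π).val * (MM τ).val * (MM π).val).mulVec v = v := by
      have h4 : (MM τ).val * (MM π).val * (MM τ).val * (MM π).val = 1 := by
        have h5 : MM τ * MM π * MM τ * MM π = 1 := by
          rw [← map_mul, ← map_mul, ← map_mul, r2, map_one]
        exact congrArg Units.val h5
      rw [h4, Matrix.one_mulVec]
    rw [← Matrix.mulVec_mulVec, ← Matrix.mulVec_mulVec, ← Matrix.mulVec_mulVec, h1,
      Matrix.mulVec_smul, h2, smul_smul, Matrix.mulVec_smul, h1, smul_smul, Matrix.mulVec_smul,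
      h2, smul_smul] at h3
    have h6 : d * c * d * c = c * d * c * d := by ring
    rw [h6]
    exact h3
  have e3 : (c * c + c + 1) • v = 0 := by
    have h3 : (MM π).val * (MM π).val + (MM π).val + 1 = 0 := by
      rw [S3M_map, ← Matrix.map_mul]
      have h4 := congrArg (fun m : Matrix (Fin 2) (Fin 2) (ZMod 2) =>
        m.map (algebraMap (ZMod 2) FF)) r3
      simp only [Matrix.map_add _ (fun a b => map_add (algebraMap (ZMod 2) FF) a b)] at h4
      rw [Matrix.map_one _ (map_zero _) (map_one _), Matrix.map_zero _ (map_zero _)] at h4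
      exact h4
    have h5 : ((MM π).val * (MM π).val + (MM π).val + 1).mulVec v = 0 := by
      rw [h3, Matrix.zero_mulVec]
    rw [Matrix.add_mulVec, Matrix.add_mulVec, ← Matrix.mulVec_mulVec, h1, Matrix.mulVec_smul, h1,
      Matrix.one_mulVec, smul_smul] at h5
    rw [add_smul, add_smul, one_smul]
    exact h5
  by_contra hv
  obtain ⟨i, hi⟩ : ∃ i, v i ≠ 0 := by
    by_contra hc
    push Not at hc
    exact hv (funext hc)
  have f1 : d * d = 1 := by
    have := congrFun e1 i
    simp only [Pi.smul_apply, smul_eq_mul] at this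
    exact mul_right_cancel₀ hi (by rw [this, one_mul])
  have f2 : d * c * d * c = 1 := by
    have := congrFun e2 i
    simp only [Pi.smul_apply, smul_eq_mul] at this
    exact mul_right_cancel₀ hi (by rw [this, one_mul])
  have f3 : c * c + c + 1 = 0 := by
    have := congrFun e3 i
    simp only [Pi.smul_apply, smul_eq_mul, Pi.zero_apply] at this
    rcases mul_eq_zero.1 this with h6 | h6
    · exact h6
    · exact absurd h6 hi
  have f4 : c * c = 1 := by linear_combination f2 - c * c * f1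
  have f5 : c = 0 := by linear_combination f3 - f4 - two_FF'
  rw [f5] at f4
  simp at f4

private theorem S3M_odd : ∀ τ : Equiv.Perm (Fin 3), Equiv.Perm.sign τ = -1 →
    m0 τ = !![0, 1; 1, 0] ∨ m0 τ = !![1, 1; 0, 1] ∨ m0 τ = !![1, 0; 1, 1] := by decide

/-- the vectors fixed by an odd element form a line. -/
theorem MM_odd (τ : Equiv.Perm (Fin 3)) (hτ : Equiv.Perm.sign τ = -1) :
    ∃ u : Fin 2 → FF, u ≠ 0 ∧ ∀ v, (MM τ).val.mulVec v = v ↔ ∃ c : FF, v = c • u := by
  have hn : ∀ w : Fin 2 → FF, (∃ i, w i ≠ 0) → w ≠ 0 := by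
    rintro w ⟨i, hi⟩ rfl
    exact hi rfl
  rcases S3M_odd τ hτ with h | h | h
  · refine ⟨![1, 1], hn _ ⟨0, by simp⟩, fun v => ?_⟩
    rw [S3M_mv _ _ _ _ τ h]
    constructor
    · intro hv
      have h0 := congrFun hv 0
      simp at h0
      refine ⟨v 0, ?_⟩
      funext i
      fin_cases i
      · simp
      · simp [h0]
    · rintro ⟨c, rfl⟩
      funext i
      fin_cases i <;> simp
  · refine ⟨![1, 0], hn _ ⟨0, by simp⟩, fun v => ?_⟩
    rw [S3M_mv _ _ _ _ τ h]
    constructor
    · intro hv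
      have h0 := congrFun hv 0
      simp at h0
      refine ⟨v 0, ?_⟩
      funext i
      fin_cases i
      · simp
      · simp [h0]
    · rintro ⟨c, rfl⟩
      funext i
      fin_cases i <;> simp
  · refine ⟨![0, 1], hn _ ⟨1, by simp⟩, fun v => ?_⟩
    rw [S3M_mv _ _ _ _ τ h]
    constructor
    · intro hv
      have h0 := congrFun hv 1
      simp at h0
      refine ⟨v 1, ?_⟩
      funext i
      fin_cases i
      · simp [h0]
      · simp
    · rintro ⟨c, rfl⟩
      funext i
      fin_cases i <;> simp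

/-- `v_ζ`, `v_{ζ²}` are a basis -/
theorem vec_basis : ∃ b : Module.Basis (Fin 2) FF (Fin 2 → FF), b 0 = vec ze ∧ b 1 = vec (ze ^ 2) := by
  have hli : LinearIndependent FF ![vec ze, vec (ze ^ 2)] := by
    rw [LinearIndependent.pair_iff]
    intro s t h
    have h0 := congrFun h 0
    have h1 := congrFun h 1
    simp [vec] at h0 h1
    have h2 : s * ze * (1 - ze) = 0 := by linear_combination h0 - ze ^ 2 * h1
    have h3 : s = 0 := by
      rcases mul_eq_zero.1 h2 with h4 | h4
      · rcases mul_eq_zero.1 h4 with h5 | h5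
        · exact h5
        · exact absurd h5 ze_ne_zero
      · exact absurd (sub_eq_zero.1 h4).symm ze_ne_one
    refine ⟨h3, ?_⟩
    rw [h3, zero_add] at h1
    exact h1
  refine ⟨basisOfLinearIndependentOfCardEqFinrank hli (by simp), ?_, ?_⟩
  · simp
  · simp

end Lit
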