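import Pool.Agent.Lit.S3M
import Pool.Agent.Lit.BaseO

/-!
# Setup: the roots of the two cubic polynomials and the representation

`f₁ = x³ - w x² + (w-1) x + 1` (discriminant `4`), `f₂ = x³ + (2w-4) x + (2w-2)`
(discriminant `-4N`).
-/

open Matrix
open scoped QuadraticAlgebra Pointwise

namespace Lit

open SerreK

/-- the roots `s i` of `f₁`, the roots `r i` of `f₂`, a primitive cube root of unity `z`, and the
halves of some expressions in these elements. -/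
structure Dat (S : Type) [CommRing S] [Algebra O S] where
  s : Fin 3 → S
  r : Fin 3 → S
  z : S
  hs1 : s 0 + s 1 + s 2 = algebraMap O S w
  hs2 : s 0 * s 1 + s 0 * s 2 + s 1 * s 2 = algebraMap O S (w - 1)
  hs3 : s 0 * s 1 * s 2 = -1
  hr1 : r 0 + r 1 + r 2 = 0
  hr2 : r 0 * r 1 + r 0 * r 2 + r 1 * r 2 = algebraMap O S (2 * w - 4)
  hr3 : r 0 * r 1 * r 2 = algebraMap O S (2 - 2 * w)
  hz : z ^ 2 + z + 1 = 0
  y : S
  hy : 2 * y = r 0 ^ 2 * r 1 + r 1 ^ 2 * r 2 + r 2 ^ 2 * r 0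
  u1 : S
  hu1 : 2 * u1 = (s 0 + z * s 1 + z ^ 2 * s 2) ^ 3
  u1' : S
  hu1' : 2 * u1' = (s 0 + z ^ 2 * s 1 + z * s 2) ^ 3
  u2 : S
  hu2 : 2 * u2 = (r 0 + z * r 1 + z ^ 2 * r 2) ^ 3
  u2' : S
  hu2' : 2 * u2' = (r 0 + z ^ 2 * r 1 + z * r 2) ^ 3

private theorem Setup_cube {S : Type} [CommRing S] (z a b c : S) (hz : z ^ 2 + z + 1 = 0) :
    (a + z * b + z ^ 2 * c) ^ 3 + (a + z ^ 2 * b + z * c) ^ 3
      = 2 * (a + b + c) ^ 3 - 9 * (a + b + c) * (a * b + a * c + b * c) + 27 * (a * b * c) := by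
  linear_combination (-2*c^3 + 3*b*c^2 + 3*b^2*c - 2*b^3 + 3*a*c^2 - 12*a*b*c + 3*a*b^2
    + 3*a^2*c + 3*a^2*b + 2*z*c^3 - 3*z*b*c^2 - 3*z*b^2*c + 2*z*b^3 - 3*z*a*c^2 + 12*z*a*b*c
    - 3*z*a*b^2 + 3*z^2*a*c^2 + 3*z^2*a*b^2 - 1*z^3*c^3 + 3*z^3*b*c^2 + 3*z^3*b^2*c
    - 1*z^3*b^3 + 1*z^4*c^3 + 1*z^4*b^3) * hz

private theorem Setup_mul {S : Type} [CommRing S] (z a b c : S) (hz : z ^ 2 + z + 1 = 0) :
    (a + z * b + z ^ 2 * c) * (a + z ^ 2 * b + z * c)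
      = (a + b + c) ^ 2 - 3 * (a * b + a * c + b * c) := by
  linear_combination (-1*c^2 + 1*b*c - 1*b^2 + 1*a*c + 1*a*b + 1*z*c^2 - 1*z*b*c + 1*z*b^2
    + 1*z^2*b*c) * hz

private theorem Setup_hW (S : Type) [CommRing S] [Algebra O S] :
    algebraMap O S w ^ 2 - algebraMap O S w + 3 = 0 := by
  rw [← map_pow, w_sq, map_sub, map_ofNat]
  ring

private theorem Setup_rot (π : Equiv.Perm (Fin 3)) : (∃ k : Fin 3, ∀ i, π i = i + k) ∨
    (π 0 = 0 ∧ π 1 = 2 ∧ π 2 = 1) ∨ (π 0 = 1 ∧ π 1 = 0 ∧ π 2 = 2) ∨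
    (π 0 = 2 ∧ π 1 = 1 ∧ π 2 = 0) := by
  revert π
  decide

section

variable {S : Type} [CommRing S] [Algebra O S] (D : Dat S)

/-- `∏_{i<j} (s i - s j)` -/
def Dat.ds : S := (D.s 0 - D.s 1) * (D.s 0 - D.s 2) * (D.s 1 - D.s 2)

/-- `∏_{i<j} (r i - r j)` -/
def Dat.dr : S := (D.r 0 - D.r 1) * (D.r 0 - D.r 2) * (D.r 1 - D.r 2)

/-- the discriminant of `f₁` is `4`. -/
theorem Dat.ds_sq : D.ds ^ 2 = 4 := by
  have key : D.ds ^ 2 = (D.s 0 + D.s 1 + D.s 2) ^ 2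
      * (D.s 0 * D.s 1 + D.s 0 * D.s 2 + D.s 1 * D.s 2) ^ 2
      - 4 * (D.s 0 * D.s 1 + D.s 0 * D.s 2 + D.s 1 * D.s 2) ^ 3
      - 4 * (D.s 0 + D.s 1 + D.s 2) ^ 3 * (D.s 0 * D.s 1 * D.s 2)
      + 18 * (D.s 0 + D.s 1 + D.s 2) * (D.s 0 * D.s 1 + D.s 0 * D.s 2 + D.s 1 * D.s 2)
        * (D.s 0 * D.s 1 * D.s 2) - 27 * (D.s 0 * D.s 1 * D.s 2) ^ 2 := by
    unfold Dat.ds
    ring
  rw [key, D.hs1, D.hs2, D.hs3, map_sub, map_one]
  linear_combination (algebraMap O S w ^ 2 - algebraMap O S w - 9) * Setup_hW S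

/-- the discriminant of `f₂` is `-4N`. -/
theorem Dat.dr_sq : D.dr ^ 2 = -4 * algebraMap O S N := by
  have key : D.dr ^ 2 = (D.r 0 + D.r 1 + D.r 2) ^ 2
      * (D.r 0 * D.r 1 + D.r 0 * D.r 2 + D.r 1 * D.r 2) ^ 2
      - 4 * (D.r 0 * D.r 1 + D.r 0 * D.r 2 + D.r 1 * D.r 2) ^ 3
      - 4 * (D.r 0 + D.r 1 + D.r 2) ^ 3 * (D.r 0 * D.r 1 * D.r 2)
      + 18 * (D.r 0 + D.r 1 + D.r 2) * (D.r 0 * D.r 1 + D.r 0 * D.r 2 + D.r 1 * D.r 2)
        * (D.r 0 * D.r 1 * D.r 2) - 27 * (D.r 0 * D.r 1 * D.r 2) ^ 2 := by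
    unfold Dat.dr
    ring
  rw [key, D.hr1, D.hr2, D.hr3, N_eq]
  simp only [map_sub, map_add, map_mul, map_ofNat]
  linear_combination (52 - 32 * algebraMap O S w) * Setup_hW S

/-- the resolvents `θ₁ = s₀ + z s₁ + z² s₂` etc. -/
def Dat.t1 : S := D.s 0 + D.z * D.s 1 + D.z ^ 2 * D.s 2
/-- the conjugate resolvent -/
def Dat.t1' : S := D.s 0 + D.z ^ 2 * D.s 1 + D.z * D.s 2
/-- the resolvent of `f₂` -/
def Dat.t2 : S := D.r 0 + D.z * D.r 1 + D.z ^ 2 * D.r 2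
/-- the conjugate resolvent -/
def Dat.t2' : S := D.r 0 + D.z ^ 2 * D.r 1 + D.z * D.r 2

theorem Dat.t1_mul : D.t1 * D.t1' = -2 * algebraMap O S w := by
  unfold Dat.t1 Dat.t1'
  rw [Setup_mul D.z _ _ _ D.hz, D.hs1, D.hs2, map_sub, map_one]
  linear_combination Setup_hW S

theorem Dat.t2_mul : D.t2 * D.t2' = -6 * algebraMap O S (w - 2) := by
  unfold Dat.t2 Dat.t2'
  rw [Setup_mul D.z _ _ _ D.hz, D.hr1, D.hr2]
  simp only [map_sub, map_mul, map_ofNat]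
  ring

/-- `θ₁³ + θ₁'³ = 2 e₁³ - 9 e₁ e₂ + 27 e₃ = -2 (2w + 3)` -/
theorem Dat.t1_add : D.t1 ^ 3 + D.t1' ^ 3 = -2 * algebraMap O S (2 * w + 3) := by
  unfold Dat.t1 Dat.t1'
  rw [Setup_cube D.z _ _ _ D.hz, D.hs1, D.hs2, D.hs3]
  simp only [map_sub, map_add, map_mul, map_ofNat, map_one]
  linear_combination (2 * algebraMap O S w - 7) * Setup_hW S

/-- `θ₂³ + θ₂'³ = 27 e₃ = -54 (w - 1)` -/
theorem Dat.t2_add : D.t2 ^ 3 + D.t2' ^ 3 = -54 * algebraMap O S (w - 1) := by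
  unfold Dat.t2 Dat.t2'
  rw [Setup_cube D.z _ _ _ D.hz, D.hr1, D.hr2, D.hr3]
  simp only [map_sub, map_mul, map_ofNat, map_one]
  ring

/-- the conjugate of `y` (`2y + 2y' = -3 e₃ = 6 (w - 1)`) -/
def Dat.y' : S := algebraMap O S (3 * (w - 1)) - D.y

theorem Dat.hy' : 2 * D.y' = D.r 0 ^ 2 * D.r 2 + D.r 2 ^ 2 * D.r 1 + D.r 1 ^ 2 * D.r 0 := by
  have key : (D.r 0 ^ 2 * D.r 1 + D.r 1 ^ 2 * D.r 2 + D.r 2 ^ 2 * D.r 0)
      + (D.r 0 ^ 2 * D.r 2 + D.r 2 ^ 2 * D.r 1 + D.r 1 ^ 2 * D.r 0)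
      = (D.r 0 + D.r 1 + D.r 2) * (D.r 0 * D.r 1 + D.r 0 * D.r 2 + D.r 1 * D.r 2)
        - 3 * (D.r 0 * D.r 1 * D.r 2) := by ring
  rw [D.hr1, D.hr3, ← D.hy] at key
  unfold Dat.y'
  simp only [map_sub, map_mul, map_ofNat, map_one] at key ⊢
  linear_combination -key

variable [IsDomain S] [FaithfulSMul O S]

theorem two_ne : (2 : S) ≠ 0 := by
  intro h
  have h2 : algebraMap O S 2 = algebraMap O S 0 := by
    rw [map_ofNat, map_zero]
    exact h
  have h3 : (2 : O) = 0 := FaithfulSMul.algebraMap_injective O S h2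
  have h4 := congrArg QuadraticAlgebra.re h3
  simp at h4

/-- `y² - 3(w-1) y - (w+4) = 0` -/
theorem Dat.y_eq : D.y ^ 2 - algebraMap O S (3 * (w - 1)) * D.y - algebraMap O S (w + 4) = 0 := by
  have h4 : (4 : S) ≠ 0 := by
    have h := mul_ne_zero (two_ne (S := S)) (two_ne (S := S))
    intro h'
    apply h
    linear_combination h'
  apply mul_left_cancel₀ h4
  have key : (D.r 0 ^ 2 * D.r 1 + D.r 1 ^ 2 * D.r 2 + D.r 2 ^ 2 * D.r 0)
      * (D.r 0 ^ 2 * D.r 2 + D.r 2 ^ 2 * D.r 1 + D.r 1 ^ 2 * D.r 0)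
      = (D.r 0 + D.r 1 + D.r 2) ^ 3 * (D.r 0 * D.r 1 * D.r 2)
        + (D.r 0 * D.r 1 + D.r 0 * D.r 2 + D.r 1 * D.r 2) ^ 3
        - 6 * (D.r 0 + D.r 1 + D.r 2) * (D.r 0 * D.r 1 + D.r 0 * D.r 2 + D.r 1 * D.r 2)
          * (D.r 0 * D.r 1 * D.r 2) + 9 * (D.r 0 * D.r 1 * D.r 2) ^ 2 := by ring
  rw [← D.hy, ← D.hy', D.hr1, D.hr2, D.hr3] at key
  unfold Dat.y' at key
  simp only [map_sub, map_mul, map_ofNat, map_one, map_add] at key ⊢
  linear_combination -key - (8 * algebraMap O S w - 4) * Setup_hW S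

/-- `u₁ + u₁' = -(2w+3)` -/
theorem Dat.u1_add : D.u1 + D.u1' = -algebraMap O S (2 * w + 3) := by
  apply mul_left_cancel₀ (two_ne (S := S))
  have h := D.t1_add
  unfold Dat.t1 Dat.t1' at h
  rw [← D.hu1, ← D.hu1'] at h
  linear_combination h

/-- `u₁ u₁' = 2 (2w+3)` -/
theorem Dat.u1_mul : D.u1 * D.u1' = 2 * algebraMap O S (2 * w + 3) := by
  apply mul_left_cancel₀ (mul_ne_zero (two_ne (S := S)) (two_ne (S := S)))
  have h := congrArg (fun x => x ^ 3) D.t1_mul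
  simp only [mul_pow] at h
  unfold Dat.t1 Dat.t1' at h
  rw [← D.hu1, ← D.hu1'] at h
  simp only [map_add, map_mul, map_ofNat]
  linear_combination h + (-8 - 8 * algebraMap O S w) * Setup_hW S

/-- `u₂ + u₂' = -27 (w-1)` -/
theorem Dat.u2_add : D.u2 + D.u2' = -27 * algebraMap O S (w - 1) := by
  apply mul_left_cancel₀ (two_ne (S := S))
  have h := D.t2_add
  unfold Dat.t2 Dat.t2' at h
  rw [← D.hu2, ← D.hu2'] at h
  linear_combination h

/-- `u₂ u₂' = -54 (4w+7)` -/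
theorem Dat.u2_mul : D.u2 * D.u2' = -54 * algebraMap O S (4 * w + 7) := by
  apply mul_left_cancel₀ (mul_ne_zero (two_ne (S := S)) (two_ne (S := S)))
  have h := congrArg (fun x => x ^ 3) D.t2_mul
  simp only [mul_pow] at h
  unfold Dat.t2 Dat.t2' at h
  rw [← D.hu2, ← D.hu2'] at h
  simp only [map_add, map_mul, map_sub, map_ofNat] at h ⊢
  linear_combination h + (1080 - 216 * algebraMap O S w) * Setup_hW S

private theorem Setup_inj {t : Fin 3 → S}
    (h : (t 0 - t 1) * (t 0 - t 2) * (t 1 - t 2) ≠ 0) : Function.Injective t := by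
  have h12 : t 1 - t 2 ≠ 0 := right_ne_zero_of_mul h
  have h01 : t 0 - t 1 ≠ 0 := left_ne_zero_of_mul (left_ne_zero_of_mul h)
  have h02 : t 0 - t 2 ≠ 0 := right_ne_zero_of_mul (left_ne_zero_of_mul h)
  have k12 : t 1 ≠ t 2 := sub_ne_zero.1 h12
  have k01 : t 0 ≠ t 1 := sub_ne_zero.1 h01
  have k02 : t 0 ≠ t 2 := sub_ne_zero.1 h02
  intro i j hij
  fin_cases i <;> fin_cases j <;>
    first
      | rfl
      | exact absurd hij k12
      | exact absurd hij k01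
      | exact absurd hij k02
      | exact absurd hij.symm k12
      | exact absurd hij.symm k01
      | exact absurd hij.symm k02

theorem Dat.s_inj : Function.Injective D.s := by
  apply Setup_inj
  intro h
  have h2 := D.ds_sq
  unfold Dat.ds at h2
  rw [h] at h2
  have h4 := mul_ne_zero (two_ne (S := S)) (two_ne (S := S))
  apply h4
  linear_combination -h2

theorem Dat.r_inj : Function.Injective D.r := by
  apply Setup_inj
  intro h
  have h2 := D.dr_sq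
  unfold Dat.dr at h2
  rw [h] at h2
  have h4 := mul_ne_zero (two_ne (S := S)) (two_ne (S := S))
  have hN : algebraMap O S N ≠ 0 := by
    intro h0
    have h5 : N = 0 := FaithfulSMul.algebraMap_injective O S (by rw [h0, map_zero])
    have h6 := congrArg QuadraticAlgebra.re h5
    simp [N] at h6
  apply mul_ne_zero h4 hN
  linear_combination h2

variable {G : Type} [Group G] [MulSemiringAction G S] [SMulCommClass G O S]

/-- the action of a group on the roots, and the representation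
`ρ(σ) = ζ^{k(σ)} MM(π(σ))`, where `σ s_i = s_{i + k(σ)}` and `σ r_i = r_{π(σ) i}`. -/
structure Act (G : Type) [Group G] [MulSemiringAction G S] (ρ : G →* GL (Fin 2) FF) where
  k : G → Fin 3
  π : G → Equiv.Perm (Fin 3)
  hk : ∀ σ i, σ • D.s i = D.s (i + k σ)
  hπ : ∀ σ i, σ • D.r i = D.r (π σ i)
  hρ : ∀ σ, (ρ σ).val = ze ^ (k σ : ℕ) • (MM (π σ)).val

omit [Algebra O S] [FaithfulSMul O S] [SMulCommClass G O S] in
private theorem Setup_perm (t : Fin 3 → S) (ht : Function.Injective t)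
    (h1 : ∀ σ : G, σ • (t 0 + t 1 + t 2) = t 0 + t 1 + t 2)
    (h2 : ∀ σ : G, σ • (t 0 * t 1 + t 0 * t 2 + t 1 * t 2) = t 0 * t 1 + t 0 * t 2 + t 1 * t 2)
    (h3 : ∀ σ : G, σ • (t 0 * t 1 * t 2) = t 0 * t 1 * t 2) :
    ∃ π : G → Equiv.Perm (Fin 3), ∀ σ i, σ • t i = t (π σ i) := by
  have hroot : ∀ i, t i ^ 3 - (t 0 + t 1 + t 2) * t i ^ 2
      + (t 0 * t 1 + t 0 * t 2 + t 1 * t 2) * t i - t 0 * t 1 * t 2 = 0 := by
    intro i
    fin_cases i
    · show t 0 ^ 3 - (t 0 + t 1 + t 2) * t 0 ^ 2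
        + (t 0 * t 1 + t 0 * t 2 + t 1 * t 2) * t 0 - t 0 * t 1 * t 2 = 0
      ring
    · show t 1 ^ 3 - (t 0 + t 1 + t 2) * t 1 ^ 2
        + (t 0 * t 1 + t 0 * t 2 + t 1 * t 2) * t 1 - t 0 * t 1 * t 2 = 0
      ring
    · show t 2 ^ 3 - (t 0 + t 1 + t 2) * t 2 ^ 2
        + (t 0 * t 1 + t 0 * t 2 + t 1 * t 2) * t 2 - t 0 * t 1 * t 2 = 0
      ring
  have hex : ∀ (σ : G) (i : Fin 3), ∃ j, σ • t i = t j := by
    intro σ i
    have h := congrArg (fun x => σ • x) (hroot i)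
    simp only [smul_sub, smul_add, smul_mul', smul_pow', smul_zero] at h
    have e1 := h1 σ
    have e2 := h2 σ
    have e3 := h3 σ
    simp only [smul_add, smul_mul'] at e1 e2 e3
    rw [e1, e2, e3] at h
    have h' : (σ • t i - t 0) * (σ • t i - t 1) * (σ • t i - t 2) = 0 := by
      linear_combination h
    rcases mul_eq_zero.1 h' with h' | h'
    · rcases mul_eq_zero.1 h' with h' | h'
      · exact ⟨0, sub_eq_zero.1 h'⟩
      · exact ⟨1, sub_eq_zero.1 h'⟩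
    · exact ⟨2, sub_eq_zero.1 h'⟩
  choose f hf using hex
  have hinj : ∀ σ, Function.Injective (f σ) := by
    intro σ i j hij
    apply ht
    apply MulAction.injective σ
    show σ • t i = σ • t j
    rw [hf, hf, hij]
  exact ⟨fun σ => Equiv.ofBijective (f σ) (Finite.injective_iff_bijective.1 (hinj σ)),
    fun σ i => hf σ i⟩

private theorem Setup_k : ∃ k : G → Fin 3, ∀ σ i, σ • D.s i = D.s (i + k σ) := by
  have hal : ∀ (σ : G) (x : O), σ • algebraMap O S x = algebraMap O S x := fun σ x =>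
    smul_algebraMap σ x
  obtain ⟨π, hπ⟩ := Setup_perm (G := G) D.s D.s_inj
    (fun σ => by rw [D.hs1, hal]) (fun σ => by rw [D.hs2, hal])
    (fun σ => by rw [D.hs3, smul_neg, smul_one])
  have key : ∀ σ, ∃ k : Fin 3, ∀ i, π σ i = i + k := by
    intro σ
    rcases Setup_rot (π σ) with h | h
    · exact h
    · exfalso
      have hfix : σ • D.ds = D.ds := by
        have h2 : (D.ds - algebraMap O S 2) * (D.ds + algebraMap O S 2) = 0 := by
          rw [map_ofNat]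
          linear_combination D.ds_sq
        rcases mul_eq_zero.1 h2 with h2 | h2
        · rw [sub_eq_zero.1 h2, hal]
        · rw [eq_neg_of_add_eq_zero_left h2, smul_neg, hal]
      have hneg : σ • D.ds = -D.ds := by
        unfold Dat.ds
        simp only [smul_mul', smul_sub, hπ]
        rcases h with ⟨a, b, c⟩ | ⟨a, b, c⟩ | ⟨a, b, c⟩ <;> rw [a, b, c] <;> ring
      have h0 : 2 * D.ds = 0 := by
        rw [hfix] at hneg
        linear_combination hneg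
      have h5 : D.ds = 0 := (mul_eq_zero.1 h0).resolve_left two_ne
      have h6 := D.ds_sq
      rw [h5] at h6
      apply mul_ne_zero (two_ne (S := S)) (two_ne (S := S))
      linear_combination -h6
  choose k hk using key
  exact ⟨k, fun σ i => by rw [hπ, hk]⟩

private theorem Setup_pow (a b : Fin 3) : ze ^ ((a + b : Fin 3) : ℕ) = ze ^ (a : ℕ) * ze ^ (b : ℕ) := by
  rw [← pow_add, Fin.val_add]
  conv_rhs => rw [← Nat.div_add_mod ((a : ℕ) + b) 3]
  rw [pow_add, pow_mul, ze_cube, one_pow, one_mul]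

/-- the representation exists. -/
theorem exists_act : ∃ ρ : G →* GL (Fin 2) FF, Nonempty (Act D G ρ) := by
  have hal : ∀ (σ : G) (x : O), σ • algebraMap O S x = algebraMap O S x := fun σ x =>
    smul_algebraMap σ x
  obtain ⟨k, hk⟩ := Setup_k (G := G) D
  obtain ⟨π, hπ⟩ := Setup_perm (G := G) D.r D.r_inj
    (fun σ => by rw [D.hr1, smul_zero]) (fun σ => by rw [D.hr2, hal])
    (fun σ => by rw [D.hr3, hal])
  have k1 : k 1 = 0 := by
    have h := hk 1 0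
    rw [one_smul] at h
    have h' := D.s_inj h
    rw [zero_add] at h'
    exact h'.symm
  have kmul : ∀ σ τ, k (σ * τ) = k σ + k τ := by
    intro σ τ
    have h := hk (σ * τ) 0
    rw [mul_smul, hk, hk] at h
    have h' := D.s_inj h
    rw [zero_add, zero_add] at h'
    rw [← h', add_comm]
  have π1 : π 1 = 1 := by
    ext1 i
    have h := hπ 1 i
    rw [one_smul] at h
    exact (D.r_inj h).symm
  have πmul : ∀ σ τ, π (σ * τ) = π σ * π τ := by
    intro σ τ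
    ext1 i
    have h := hπ (σ * τ) i
    rw [mul_smul, hπ, hπ] at h
    exact (D.r_inj h).symm
  let f : G →* Matrix (Fin 2) (Fin 2) FF :=
    { toFun := fun σ => ze ^ (k σ : ℕ) • (MM (π σ)).val
      map_one' := by
        rw [k1, π1, map_one]
        simp
      map_mul' := by
        intro σ τ
        rw [kmul, πmul, map_mul, Setup_pow, Units.val_mul, Matrix.smul_mul, Matrix.mul_smul,
          smul_smul] }
  exact ⟨f.toHomUnits, ⟨⟨k, π, hk, hπ, fun σ => rfl⟩⟩⟩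

end

end Lit
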