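import Pool.Agent.Lit.Main

/-!
# Statement-level definitions
(types are kept as named definitions so that statements stay short)

`ZW = ℤ[w]`, `w² = w - 3`, is the ring of integers of `QK = ℚ(√-11)`.  `Ext` is a finite Galois
extension `M` of `QK`, with Galois group `Gal E` and ring of integers `Int E`.
-/

open Matrix
open scoped QuadraticAlgebra Pointwise TensorProduct

namespace LitS

open SerreK

/-- the ring of integers `ℤ[w]`, `w² = w - 3`, of `ℚ(√-11)` -/
def ZW : Type := OK 2

noncomputable instance : CommRing ZW := (inferInstance : CommRing (OK 2))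
instance : IsDomain ZW := (inferInstance : IsDomain (OK 2))
instance : FinQuot ZW := (inferInstance : FinQuot (OK 2))

/-- `x + y w` -/
def elt (x y : ℤ) : ZW := (⟨x, y⟩ : OK 2)

/-- `ℚ(√-11)` -/
def QK : Type := FractionRing ZW

noncomputable instance : Field QK := (inferInstance : Field (FractionRing ZW))
noncomputable instance : Algebra ZW QK := (inferInstance : Algebra ZW (FractionRing ZW))

/-- a finite Galois extension of `QK` -/
structure Ext where
  M : Type
  fld : Field M
  alg : Algebra QK M
  algO : Algebra ZW M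
  tow : IsScalarTower ZW QK M
  fin : FiniteDimensional QK M
  gal : IsGalois QK M

variable (E : Ext)

instance : Field E.M := E.fld
instance : Algebra QK E.M := E.alg
instance : Algebra ZW E.M := E.algO
instance : IsScalarTower ZW QK E.M := E.tow

/-- the Galois group -/
def Ga : Type := E.M ≃ₐ[QK] E.M

noncomputable instance : Group (Ga E) := (inferInstance : Group (E.M ≃ₐ[QK] E.M))

/-- the ring of integers of `M` -/
def In : Type := integralClosure ZW E.M

noncomputable instance : CommRing (In E) := (inferInstance : CommRing (integralClosure ZW E.M))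
noncomputable instance : Algebra ZW (In E) :=
  (inferInstance : Algebra ZW (integralClosure ZW E.M))
noncomputable instance : MulSemiringAction (Ga E) (In E) :=
  (inferInstance : MulSemiringAction (E.M ≃ₐ[QK] E.M) (integralClosure ZW E.M))

variable {E}

/-- an integer of `M` as an element of `M` -/
def In.val (x : In E) : E.M := Subtype.val (p := fun x => x ∈ integralClosure ZW E.M) x

/-- the action of the Galois group on `M` -/
noncomputable def Ga.app (σ : Ga E) (x : E.M) : E.M := DFunLike.coe (F := E.M ≃ₐ[QK] E.M) σ x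

/-- `𝔽̄₂²` -/
def V : Type := Fin 2 → FF

noncomputable instance : AddCommGroup V := (inferInstance : AddCommGroup (Fin 2 → FF))
noncomputable instance : Module FF V := (inferInstance : Module FF (Fin 2 → FF))

/-- `GL₂(𝔽̄₂)` -/
def GLF : Type := GL (Fin 2) FF

noncomputable instance : Group GLF := (inferInstance : Group (GL (Fin 2) FF))

/-- the matrix of an element of `GL₂(𝔽̄₂)` -/
def GLF.mat (g : GLF) : Matrix (Fin 2) (Fin 2) FF :=
  Units.val (α := Matrix (Fin 2) (Fin 2) FF) g

variable (E) in
/-- the representations `Gal(M/K) → GL₂(𝔽̄₂)` -/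
def Rep : Type := Ga E →* GLF

/-- `ρ(σ)` -/
noncomputable def Rep.at (ρ : Rep E) (σ : Ga E) : GLF := DFunLike.coe (F := Ga E →* GLF) ρ σ

/-- `ρ(σ) v` -/
noncomputable def Rep.app (ρ : Rep E) (σ : Ga E) (v : V) : V := (ρ.at σ).mat.mulVec v

/-- the trace of `ρ(σ)` -/
noncomputable def Rep.tr (ρ : Rep E) (σ : Ga E) : FF := (ρ.at σ).mat.trace

/-- the determinant of `ρ(σ)` -/
noncomputable def Rep.det (ρ : Rep E) (σ : Ga E) : FF := (ρ.at σ).mat.det

/-- `ρ` is irreducible: no line is invariant. -/
def Irred (ρ : Rep E) : Prop := ∀ v : V, v ≠ 0 → ¬ ∀ σ, ∃ c : FF, ρ.app σ v = c • v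

/-- the subspace of vectors fixed by a subgroup -/
def fixedSpace (ρ : Rep E) (H : Subgroup (Ga E)) : Submodule FF V where
  carrier := {v | ∀ σ ∈ H, ρ.app σ v = v}
  add_mem' := fun ha hb σ hσ => (Matrix.mulVec_add _ _ _).trans
    (congrArg₂ (· + ·) (ha σ hσ) (hb σ hσ))
  zero_mem' := fun _ _ => Matrix.mulVec_zero _
  smul_mem' := fun c _ hv σ hσ => (Matrix.mulVec_smul _ _ _).trans (congrArg (c • ·) (hv σ hσ))

/-- the `i`-th ramification group (lower numbering) at the prime `P` of `M`:
all `σ` with `σ x ≡ x mod P^(i+1)` for all integers `x` of `M`. -/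
noncomputable def ramGroup (P : Ideal (In E)) (i : ℕ) : Subgroup (Ga E) := (P ^ (i + 1)).inertia (Ga E)

/-- the decomposition group -/
noncomputable def decGroup (P : Ideal (In E)) : Subgroup (Ga E) := MulAction.stabilizer (Ga E) P

/-- the exponent of the Artin conductor of `ρ` at the prime of `K` below `P`:
`∑ᵢ |Gᵢ| / |G₀| · codim V^{Gᵢ}`. -/
noncomputable def artinExp (ρ : Rep E) (P : Ideal (In E)) : ℚ :=
  ∑ᶠ i : ℕ, (Nat.card (ramGroup P i) : ℚ) / Nat.card (ramGroup P 0) *
    (2 - Module.finrank FF (fixedSpace ρ (ramGroup P i)))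

/-- the Serre conductor of `ρ`, the prime-to-`2` part of the Artin conductor, is `(n)`. -/
def SerreConductor (ρ : Rep E) (n : ZW) : Prop :=
  ∀ P : Ideal (In E), P.IsPrime → P ≠ ⊥ → (2 : In E) ∉ P →
    artinExp ρ P = multiplicity (P.under ZW) (Ideal.span {n})

/-- the prime-to-`2` part of `det ρ` is trivial: `det ρ` is unramified at all primes which do not
divide `2`. -/
def TrivialCharacter (ρ : Rep E) : Prop :=
  ∀ P : Ideal (In E), P.IsPrime → P ≠ ⊥ → (2 : In E) ∉ P → ∀ σ ∈ ramGroup P 0, ρ.det σ = 1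

/-- `x` is fixed by the decomposition group of `P` and integral at `P`. -/
def IsDec (P : Ideal (In E)) (x : E.M) : Prop :=
  (∀ σ ∈ decGroup P, σ.app x = x) ∧ ∃ s t : In E, s ∉ P ∧ s.val * x = t.val

theorem isDec_mul (P : Ideal (In E)) (hP : P.IsPrime) {a b : E.M} (ha : IsDec P a)
    (hb : IsDec P b) : IsDec P (a * b) := by
  obtain ⟨ha, s, t, hs, hst⟩ := ha
  obtain ⟨hb, s', t', hs', hst'⟩ := hb
  refine ⟨fun σ hσ => ?_, s * s', t * t', fun h => (hP.mem_or_mem h).elim hs hs', ?_⟩
  · have h1 : Ga.app σ (a * b) = Ga.app σ a * Ga.app σ b := map_mul (F := E.M ≃ₐ[QK] E.M) σ a b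
    rw [h1, ha σ hσ, hb σ hσ]
  · change s.val * s'.val * (a * b) = t.val * t'.val
    rw [← hst, ← hst']; ring

theorem isDec_add (P : Ideal (In E)) (hP : P.IsPrime) {a b : E.M} (ha : IsDec P a)
    (hb : IsDec P b) : IsDec P (a + b) := by
  obtain ⟨ha, s, t, hs, hst⟩ := ha
  obtain ⟨hb, s', t', hs', hst'⟩ := hb
  refine ⟨fun σ hσ => ?_, s * s', s' * t + s * t', fun h => (hP.mem_or_mem h).elim hs hs', ?_⟩
  · have h1 : Ga.app σ (a + b) = Ga.app σ a + Ga.app σ b := map_add (F := E.M ≃ₐ[QK] E.M) σ a b
    rw [h1, ha σ hσ, hb σ hσ]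
  · change s.val * s'.val * (a + b) = s'.val * t.val + s.val * t'.val
    rw [← hst, ← hst']; ring

theorem isDec_neg (P : Ideal (In E)) {a : E.M} (ha : IsDec P a) : IsDec P (-a) := by
  obtain ⟨ha, s, t, hs, hst⟩ := ha
  refine ⟨fun σ hσ => ?_, s, -t, hs, ?_⟩
  · have h1 : Ga.app σ (-a) = -Ga.app σ a := map_neg (F := E.M ≃ₐ[QK] E.M) σ a
    rw [h1, ha σ hσ]
  · change s.val * (-a) = -t.val
    rw [← hst]; ring

theorem isDec_one (P : Ideal (In E)) (hP : P.IsPrime) : IsDec P (1 : E.M) := by
  refine ⟨fun σ _ => map_one (F := E.M ≃ₐ[QK] E.M) σ, 1, 1,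
    fun h => hP.ne_top ((Ideal.eq_top_iff_one P).2 h), ?_⟩
  change (1 : E.M) * 1 = 1
  rw [mul_one]

theorem isDec_zero (P : Ideal (In E)) (hP : P.IsPrime) : IsDec P (0 : E.M) := by
  refine ⟨fun σ _ => map_zero (F := E.M ≃ₐ[QK] E.M) σ, 1, 0,
    fun h => hP.ne_top ((Ideal.eq_top_iff_one P).2 h), ?_⟩
  change (1 : E.M) * 0 = 0
  rw [mul_zero]

/-- the valuation ring at `P` of the decomposition field of `P`; its completion is the ring of
integers of the completion of `K` at the prime below `P`. -/
def decRing (P : Ideal (In E)) (hP : P.IsPrime) : Subring E.M where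
  carrier := {x | IsDec P x}
  mul_mem' := isDec_mul P hP
  one_mem' := isDec_one P hP
  add_mem' := isDec_add P hP
  zero_mem' := isDec_zero P hP
  neg_mem' := isDec_neg P

/-- `decRing P hP` as a type -/
def DR (P : Ideal (In E)) (hP : P.IsPrime) : Type := decRing P hP

noncomputable instance (P : Ideal (In E)) (hP : P.IsPrime) : CommRing (DR P hP) :=
  (inferInstance : CommRing (decRing P hP))
noncomputable instance (P : Ideal (In E)) (hP : P.IsPrime) : Algebra (DR P hP) E.M :=
  (inferInstance : Algebra (decRing P hP) E.M)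

/-- a finite flat commutative group scheme `Spec A` over a local ring `R` -/
structure FFG (R : Type) [CommRing R] where
  A : Type
  cr : CommRing A
  hopf : HopfAlgebra R A
  cocomm : Coalgebra.IsCocomm R A
  fin : Module.Finite R A
  free : Module.Free R A

section pts

variable {R : Type} [CommRing R]

instance (S : FFG R) : CommRing S.A := S.cr
instance (S : FFG R) : HopfAlgebra R S.A := S.hopf

/-- the order of the group scheme -/
noncomputable def FFG.order (S : FFG R) : ℕ := Module.finrank R S.A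

variable (M : Type) [Field M] [Algebra R M]

/-- the `M`-valued points -/
def FFG.Pt (S : FFG R) : Type := S.A →ₐ[R] M

variable {M}

/-- the value of a function at a point -/
def FFG.Pt.ev {S : FFG R} (φ : S.Pt M) (a : S.A) : M := DFunLike.coe (F := S.A →ₐ[R] M) φ a

/-- the sum of two points -/
noncomputable def FFG.Pt.add {S : FFG R} (φ ψ : S.Pt M) : S.Pt M :=
  AlgHom.comp (Algebra.TensorProduct.lift (R := R) (A := S.A) (B := S.A) (C := M) φ ψ
    (fun _ _ => Commute.all _ _)) (Bialgebra.comulAlgHom R S.A)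

end pts

/-- `U` is the `k`-span of a basis of `V` -/
def IsForm (k : Subfield FF) (U : Set V) : Prop :=
  ∃ b : Module.Basis (Fin 2) FF V, ∀ v : V, v ∈ U ↔ ∃ c ∈ k, ∃ d ∈ k, v = c • b 0 + d • b 1

/-- `ρ` is finite flat at the prime below `P`: the restriction of `ρ` to the decomposition group of
`P` is defined over a finite field `k`, and this `k`-form is the group of `M`-valued points of a
finite flat commutative group scheme over `decRing P` all of whose geometric points are defined
over `M`. -/
def FiniteFlatAt (ρ : Rep E) (P : Ideal (In E)) (hP : P.IsPrime) : Prop :=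
  ∃ (S : FFG (DR P hP)) (k : Subfield FF) (ι : S.Pt E.M → V),
    S.order = Nat.card (S.Pt E.M) ∧ Finite k ∧ IsForm k (Set.range ι) ∧ Function.Injective ι ∧
    (∀ φ ψ, ι (φ.add ψ) = ι φ + ι ψ) ∧
    ∀ σ ∈ decGroup P, ∀ φ ψ : S.Pt E.M, (∀ a, ψ.ev a = σ.app (φ.ev a)) → ι ψ = ρ.app σ (ι φ)

/-- `σ` is a Frobenius element at `P`: `σ x ≡ x^q mod P`, `q` the order of the residue field of the
prime of `K` below `P`. -/
def IsFrob (P : Ideal (In E)) (σ : Ga E) : Prop :=
  ∀ x : In E, σ • x - x ^ Nat.card (ZW ⧸ P.under ZW) ∈ P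

/-- the ring generated by the Hecke operators `T_π` (`π` a prime not dividing `2n`) on
`H¹(Y₀(n), 𝔽̄₂)` -/
noncomputable def heckeRing (n : ZW) : Subring (EndH n) := Subring.closure (Set.range (TE n))

/-- the Hecke ring as a type -/
def HR (n : ZW) : Type := heckeRing n

noncomputable instance (n : ZW) : Ring (HR n) := (inferInstance : Ring (heckeRing n))

/-- `T_π` as an element of the Hecke ring -/
noncomputable def heckeOp {n : ZW} (π : GP n) : HR n :=
  Subtype.mk (p := fun x => x ∈ heckeRing n) (TE n π) (Subring.subset_closure ⟨π, rfl⟩)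

/-- the trace identity: `Tr ρ(Frob_π) = Φ(T_π)` for all primes `π` not dividing `2n` (and all
Frobenius elements at all primes of `M` above `π`), where `Φ` is a ring homomorphism from the Hecke
ring to `𝔽̄₂`. -/
def Attached {n : ZW} (ρ : Rep E) (Φ : HR n →+* FF) : Prop :=
  ∀ (π : GP n) (P : Ideal (In E)), P.IsPrime → algebraMap ZW (In E) π.el ∈ P →
    ∀ σ : Ga E, IsFrob P σ → ρ.tr σ = Φ (heckeOp π)

end LitS
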