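import Pool.Agent.Lit.Unr
import Pool.Agent.Lit.BaseM

/-!
# TameA: the inertia group at a prime above `N`

PROOFS. Let `I = P.inertia`, `N ∈ P`, `2 ∉ P`, `S = RI M`.  By `unr_k`, `unr_pair`, `unr_z` and the
hypothesis `hgen` (an element which fixes all roots is `1`), `I` has at most two elements (`σ ↦ π σ`
is injective on `I`: `σ τ⁻¹` has `π = 1`, `k = 0` and fixes `z`).
`tame_two`: `|I| = e` by `Ideal.card_inertia_eq_ramificationIdxIn` (with `p = (N)`,
`P.LiesOver p` by `under_N`), `Ideal.ramificationIdxIn_eq_ramificationIdx`.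
`dr² = -4N ∈ P`, so `dr ∈ P`, so `4N ∈ P²`, so `N ∈ P²` (`mem_pow_of_four`), so `e ≥ 2`.  So `e = 2` and
`N ∉ P³`.
`tame_G1`: if `σ ∈ (P²).inertia`, `σ ≠ 1` then `σ ∈ I`, `π σ ≠ 1` has a fixed point (`unr_not3`), so it is
odd and `-2 dr = σ dr - dr ∈ P²`, so `2 dr ∈ P²`, `4 dr² = -16 N ∈ P⁴`, `N ∈ P⁴ ⊆ P³`, contradiction.
-/

open Matrix
open scoped QuadraticAlgebra Pointwise

namespace Lit

open SerreK

variable {M : Type} [Field M] [Algebra K M] [Algebra O M] [IsScalarTower O K M]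
  [FiniteDimensional K M] [IsGalois K M] {D : Dat (RI M)} {ρ : Gal(M/K) →* GL (Fin 2) FF}

/-- no element except `1` fixes all the roots -/
def Gen (D : Dat (RI M)) : Prop :=
  ∀ σ : Gal(M/K), (∀ i, σ • D.s i = D.s i) → (∀ i, σ • D.r i = D.r i) → σ • D.z = D.z → σ = 1

/-- if `P` is a nonzero prime with `2 ∉ P` and `4 x ∈ P^n` then `x ∈ P^n`. -/
theorem mem_pow_of_four (P : Ideal (RI M)) [P.IsPrime] (hP : P ≠ ⊥) (h2 : (2 : RI M) ∉ P) (n : ℕ)
    (x : RI M) (h : 4 * x ∈ P ^ n) : x ∈ P ^ n := by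
  rcases Ideal.IsPrime.mul_mem_pow P h with h4 | hx
  · exfalso
    have h5 : (2 : RI M) * 2 ∈ P := by
      have : (2 : RI M) * 2 = 4 := by norm_num
      rw [this]; exact h4
    rcases (inferInstance : P.IsPrime).mem_or_mem h5 with h6 | h6 <;> exact h2 h6
  · exact hx

private theorem TameA_pi_one (A : Act D Gal(M/K) ρ) : A.π 1 = 1 := by
  have h := act_mul A 1 1
  rw [mul_one] at h
  exact (mul_eq_left.1 h.symm)

private theorem TameA_eq_one (A : Act D Gal(M/K) ρ) (hg : Gen D) (P : Ideal (RI M)) [P.IsPrime]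
    (h2 : (2 : RI M) ∉ P) (hN : algebraMap O (RI M) N ∈ P) (σ : Gal(M/K))
    (hσ : σ ∈ P.inertia Gal(M/K)) (hπ : A.π σ = 1) : σ = 1 := by
  refine hg σ (fun i => ?_) (fun i => ?_) (unr_z D P hN σ hσ)
  · rw [A.hk, unr_k A P h2 σ hσ, add_zero]
  · rw [A.hπ, hπ]; rfl

private theorem TameA_unique (A : Act D Gal(M/K) ρ) (hg : Gen D) (P : Ideal (RI M)) [P.IsPrime]
    (h2 : (2 : RI M) ∉ P) (hN : algebraMap O (RI M) N ∈ P) (σ τ : Gal(M/K))
    (hσ : σ ∈ P.inertia Gal(M/K)) (hτ : τ ∈ P.inertia Gal(M/K)) (h1 : σ ≠ 1) (h1' : τ ≠ 1) :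
    σ = τ := by
  have hπσ : A.π σ ≠ 1 := fun h => h1 (TameA_eq_one A hg P h2 hN σ hσ h)
  have hπτ : A.π τ ≠ 1 := fun h => h1' (TameA_eq_one A hg P h2 hN τ hτ h)
  have hp := unr_pair A P hN σ τ hσ hτ hπσ hπτ
  have h3 : A.π (σ * τ⁻¹) = 1 := by
    rw [act_mul, hp, ← act_mul, mul_inv_cancel, TameA_pi_one]
  have h4 := TameA_eq_one A hg P h2 hN (σ * τ⁻¹)
    (Subgroup.mul_mem _ hσ (Subgroup.inv_mem _ hτ)) h3
  exact mul_inv_eq_one.1 h4

theorem tame_le_two (A : Act D Gal(M/K) ρ) (hg : Gen D) (P : Ideal (RI M)) [P.IsPrime]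
    (h2 : (2 : RI M) ∉ P) (hN : algebraMap O (RI M) N ∈ P) :
    Nat.card (P.inertia Gal(M/K)) ≤ 2 := by
  classical
  have hinj : Function.Injective (fun σ : P.inertia Gal(M/K) => decide (σ = 1)) := by
    intro σ τ h
    simp only [decide_eq_decide] at h
    by_cases h1 : σ = 1
    · rw [h1, h.1 h1]
    · have h1' : τ ≠ 1 := fun h' => h1 (h.2 h')
      have hs : (σ : Gal(M/K)) ≠ 1 := fun h' => h1 (Subtype.ext h')
      have ht : (τ : Gal(M/K)) ≠ 1 := fun h' => h1' (Subtype.ext h')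
      exact Subtype.ext (TameA_unique A hg P h2 hN σ τ σ.2 τ.2 hs ht)
  have h := Nat.card_le_card_of_injective _ hinj
  simpa using h

private theorem TameA_ne_bot (P : Ideal (RI M)) (hN : algebraMap O (RI M) N ∈ P) : P ≠ ⊥ := by
  rintro rfl
  rw [Ideal.mem_bot] at hN
  have h := (FaithfulSMul.algebraMap_eq_zero_iff O (RI M)).1 hN
  exact N_prime.ne_zero h

private theorem TameA_le_card (P : Ideal (RI M)) [P.IsPrime]
    (hN : algebraMap O (RI M) N ∈ P) (n : ℕ) (hn : algebraMap O (RI M) N ∈ P ^ n) :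
    n ≤ Nat.card (P.inertia Gal(M/K)) := by
  have hPb := TameA_ne_bot P hN
  have hu : P.under O = Ideal.span {N} := under_N _ inferInstance hN
  have hlie : P.LiesOver (Ideal.span {N}) := ⟨hu.symm⟩
  have hpr : (Ideal.span {N}).IsPrime := by
    rw [← hu]; infer_instance
  have hp0 : Ideal.span {N} ≠ ⊥ := by
    intro h
    exact N_prime.ne_zero (Ideal.span_singleton_eq_bot.1 h)
  have : PerfectField (Ideal.span {N}).ResidueField := perfect_residue _ hp0
  have h1 : Nat.card (P.inertia Gal(M/K)) = Ideal.ramificationIdxIn (Ideal.span {N}) (RI M) :=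
    Ideal.card_inertia_eq_ramificationIdxIn (G := Gal(M/K)) (Ideal.span {N}) P
  have h2 : Ideal.ramificationIdxIn (Ideal.span {N}) (RI M) = P.ramificationIdx O :=
    Ideal.ramificationIdxIn_eq_ramificationIdx (Ideal.span {N}) P Gal(M/K)
  have hmap : (Ideal.span {N}).map (algebraMap O (RI M)) =
      Ideal.span {algebraMap O (RI M) N} := by
    rw [Ideal.map_span, Set.image_singleton]
  have hmap0 : (Ideal.span {N}).map (algebraMap O (RI M)) ≠ ⊥ := by
    rw [hmap]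
    intro h
    exact N_prime.ne_zero ((FaithfulSMul.algebraMap_eq_zero_iff O (RI M)).1
      (Ideal.span_singleton_eq_bot.1 h))
  have h3 : P.ramificationIdx O = multiplicity P ((Ideal.span {N}).map (algebraMap O (RI M))) :=
    Ideal.IsDedekindDomain.ramificationIdx_eq_multiplicity (Ideal.span {N}) P hmap0
  rw [h1, h2, h3]
  have hfin : FiniteMultiplicity P ((Ideal.span {N}).map (algebraMap O (RI M))) :=
    FiniteMultiplicity.of_prime_left (Ideal.prime_of_isPrime hPb inferInstance) hmap0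
  refine hfin.le_multiplicity_of_pow_dvd ?_
  rw [Ideal.dvd_iff_le, hmap, Ideal.span_le, Set.singleton_subset_iff]
  exact hn

private theorem TameA_sq (D : Dat (RI M)) (P : Ideal (RI M)) [P.IsPrime]
    (h2 : (2 : RI M) ∉ P) (hN : algebraMap O (RI M) N ∈ P) (n : ℕ) (h : D.dr ∈ P ^ n) :
    algebraMap O (RI M) N ∈ P ^ (2 * n) := by
  refine mem_pow_of_four P (TameA_ne_bot P hN) h2 _ _ ?_
  have h1 : D.dr * D.dr ∈ P ^ (2 * n) := by
    rw [two_mul, pow_add]
    exact Ideal.mul_mem_mul h h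
  have h3 : (4 : RI M) * algebraMap O (RI M) N = -(D.dr * D.dr) := by
    rw [← pow_two, D.dr_sq]; ring
  rw [h3]
  exact neg_mem h1

theorem tame_two (A : Act D Gal(M/K) ρ) (hg : Gen D) (P : Ideal (RI M)) [P.IsPrime]
    (h2 : (2 : RI M) ∉ P) (hN : algebraMap O (RI M) N ∈ P) :
    Nat.card (P.inertia Gal(M/K)) = 2 ∧ algebraMap O (RI M) N ∉ P ^ 3 := by
  have hle := tame_le_two A hg P h2 hN
  have hdr : D.dr ∈ P := by
    have h1 : D.dr ^ 2 ∈ P := by
      rw [D.dr_sq]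
      exact P.mul_mem_left _ hN
    exact (inferInstance : P.IsPrime).mem_of_pow_mem 2 h1
  have hN2 : algebraMap O (RI M) N ∈ P ^ 2 := by
    have := TameA_sq D P h2 hN 1 (by rwa [pow_one])
    simpa using this
  have hge := TameA_le_card P hN 2 hN2
  refine ⟨le_antisymm hle hge, fun h3 => ?_⟩
  have := TameA_le_card P hN 3 h3
  omega

private theorem TameA_sign : ∀ π : Equiv.Perm (Fin 3), π ≠ 1 → (∃ i, π i = i) →
    Equiv.Perm.sign π = -1 := by
  decide

theorem tame_G1 (A : Act D Gal(M/K) ρ) (hg : Gen D) (P : Ideal (RI M)) [P.IsPrime]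
    (h2 : (2 : RI M) ∉ P) (hN : algebraMap O (RI M) N ∈ P) (σ : Gal(M/K))
    (hσ : σ ∈ (P ^ 2).inertia Gal(M/K)) : σ = 1 := by
  by_contra hne
  have hσP : σ ∈ P.inertia Gal(M/K) := fun x => Ideal.pow_le_self two_ne_zero (hσ x)
  have hπ : A.π σ ≠ 1 := fun h => hne (TameA_eq_one A hg P h2 hN σ hσP h)
  have hs := TameA_sign (A.π σ) hπ (unr_not3 A P hN σ hσP)
  have hdr := act_dr A σ
  rw [hs] at hdr
  have h3 : σ • D.dr - D.dr ∈ P ^ 2 := hσ D.dr
  rw [hdr] at h3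
  have h4 : (2 : RI M) * D.dr ∈ P ^ 2 := by
    have h5 : (2 : RI M) * D.dr = -(((-1 : ℤˣ) : ℤ) • D.dr - D.dr) := by
      simp; ring
    rw [h5]
    exact neg_mem h3
  have h5 : D.dr ∈ P ^ 2 := (Ideal.IsPrime.mul_mem_pow P h4).resolve_left h2
  have h6 := TameA_sq D P h2 hN 2 h5
  exact (tame_two A hg P h2 hN).2 (Ideal.pow_le_pow_right (by norm_num) h6)

end Lit
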