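import Pool.Agent.Lit.Setup

/-!
# Unr: inertia groups at primes which do not divide `2`

PROOFS. `σ ∈ I_P` means `σ x - x ∈ P` for all `x ∈ S`.
`unr_k`: if `k σ ≠ 0` then `σ s_i = s_{i + k}`, so `s_{i+k} - s_i ∈ P` for all `i`, one of these
differences is a factor of `ds` (up to sign), so `ds ∈ P`, `4 = ds² ∈ P`, `2 ∈ P`, contradiction.
`unr_pi`: the same with `r` and `dr² = -4N`.
`unr_not3`: if `π σ` has no fixed point, `σ ∈ I_P`, then all `r_i` are congruent mod `P`, so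
`3 r_0 ∈ P` (sum `0`), `27 r_0 r_1 r_2 ≡ (3 r_0)³`, so `27 (2 - 2w) ∈ P`; norm `27² · 4 · 3`, and `N ∈ P`
has norm `89` (use `nrm_mem`, `int_coprime`).
-/

open Matrix
open scoped QuadraticAlgebra Pointwise

namespace Lit

open SerreK

variable {S : Type} [CommRing S] [Algebra O S] {D : Dat S} [IsDomain S] [FaithfulSMul O S]
  {G : Type} [Group G] [MulSemiringAction G S] [SMulCommClass G O S] {ρ : G →* GL (Fin 2) FF}

private theorem unr_smul_sub {P : Ideal S} {σ : G} (hσ : σ ∈ P.inertia G) (x : S) :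
    σ • x - x ∈ P := hσ x

private theorem unr_two (P : Ideal S) [hP : P.IsPrime] (h2 : (2 : S) ∉ P) (x y : S)
    (h : x ^ 2 = 4 * y) (hx : x ∈ P) : y ∈ P := by
  have h1 : (4 : S) * y ∈ P := by
    rw [← h, pow_two]
    exact P.mul_mem_left _ hx
  rcases hP.mem_or_mem h1 with h3 | h3
  · have h4 : (2 : S) * 2 ∈ P := by
      have : (2 : S) * 2 = 4 := by norm_num
      rwa [this]
    rcases hP.mem_or_mem h4 with h5 | h5 <;> exact absurd h5 h2
  · exact h3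

private theorem unr_ds {P : Ideal S} (i j : Fin 3) (hij : i ≠ j) (h : D.s i - D.s j ∈ P) :
    D.ds ∈ P := by
  unfold Dat.ds
  have key : ∀ a b c : S, (a ∈ P ∨ b ∈ P ∨ c ∈ P) → a * b * c ∈ P := by
    rintro a b c (h | h | h)
    · exact P.mul_mem_right _ (P.mul_mem_right _ h)
    · exact P.mul_mem_right _ (P.mul_mem_left _ h)
    · exact P.mul_mem_left _ h
  have hneg : D.s j - D.s i ∈ P := by
    have := P.neg_mem h
    rwa [neg_sub] at this
  apply key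
  fin_cases i <;> fin_cases j <;> first
    | exact absurd rfl hij
    | exact Or.inl h
    | exact Or.inr (Or.inl h)
    | exact Or.inr (Or.inr h)
    | exact Or.inl hneg
    | exact Or.inr (Or.inl hneg)
    | exact Or.inr (Or.inr hneg)

private theorem unr_dr {P : Ideal S} (i j : Fin 3) (hij : i ≠ j) (h : D.r i - D.r j ∈ P) :
    D.dr ∈ P := by
  unfold Dat.dr
  have key : ∀ a b c : S, (a ∈ P ∨ b ∈ P ∨ c ∈ P) → a * b * c ∈ P := by
    rintro a b c (h | h | h)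
    · exact P.mul_mem_right _ (P.mul_mem_right _ h)
    · exact P.mul_mem_right _ (P.mul_mem_left _ h)
    · exact P.mul_mem_left _ h
  have hneg : D.r j - D.r i ∈ P := by
    have := P.neg_mem h
    rwa [neg_sub] at this
  apply key
  fin_cases i <;> fin_cases j <;> first
    | exact absurd rfl hij
    | exact Or.inl h
    | exact Or.inr (Or.inl h)
    | exact Or.inr (Or.inr h)
    | exact Or.inl hneg
    | exact Or.inr (Or.inl hneg)
    | exact Or.inr (Or.inr hneg)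

private theorem unr_fin (p : Equiv.Perm (Fin 3)) :
    (p 0 = 0 ∧ p 1 = 1 ∧ p 2 = 2 ∧ Equiv.Perm.sign p = 1) ∨
    (p 0 = 1 ∧ p 1 = 2 ∧ p 2 = 0 ∧ Equiv.Perm.sign p = 1) ∨
    (p 0 = 2 ∧ p 1 = 0 ∧ p 2 = 1 ∧ Equiv.Perm.sign p = 1) ∨
    (p 0 = 1 ∧ p 1 = 0 ∧ p 2 = 2 ∧ Equiv.Perm.sign p = -1) ∨
    (p 0 = 0 ∧ p 1 = 2 ∧ p 2 = 1 ∧ Equiv.Perm.sign p = -1) ∨
    (p 0 = 2 ∧ p 1 = 1 ∧ p 2 = 0 ∧ Equiv.Perm.sign p = -1) := by
  revert p; decide

private theorem unr_N89 (P : Ideal S) (hN : algebraMap O S N ∈ P) : ((89 : ℤ) : S) ∈ P := by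
  have h := nrm_mem P N hN
  have e : nrm N = 89 := by simp [nrm, N]
  rwa [e] at h

theorem unr_k (A : Act D G ρ) (P : Ideal S) [P.IsPrime] (h2 : (2 : S) ∉ P) (σ : G)
    (hσ : σ ∈ P.inertia G) : A.k σ = 0 := by
  by_contra hk
  have h1 := unr_smul_sub hσ (D.s 0)
  rw [A.hk σ 0, zero_add] at h1
  have h3 := unr_two P h2 D.ds 1 (by rw [D.ds_sq, mul_one]) (unr_ds _ _ hk h1)
  exact (inferInstance : P.IsPrime).ne_top ((Ideal.eq_top_iff_one P).2 h3)

theorem unr_pi (A : Act D G ρ) (P : Ideal S) [P.IsPrime] (h2 : (2 : S) ∉ P)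
    (hN : algebraMap O S N ∉ P) (σ : G) (hσ : σ ∈ P.inertia G) : A.π σ = 1 := by
  by_contra hk
  have h0 : ∃ i, A.π σ i ≠ i := by
    by_contra h
    push Not at h
    exact hk (Equiv.ext h)
  obtain ⟨i, hi⟩ := h0
  have h1 := unr_smul_sub hσ (D.r i)
  rw [A.hπ σ i] at h1
  have h3 := unr_two P h2 D.dr (-algebraMap O S N) (by rw [D.dr_sq]; ring) (unr_dr _ _ hi h1)
  exact hN (by simpa using h3)

/-- `ρ` is unramified outside `2N`. -/
theorem unr_rho (A : Act D G ρ) (P : Ideal S) [P.IsPrime] (h2 : (2 : S) ∉ P)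
    (hN : algebraMap O S N ∉ P) (σ : G) (hσ : σ ∈ P.inertia G) : ρ σ = 1 := by
  apply Units.ext
  rw [A.hρ σ, unr_k A P h2 σ hσ, unr_pi A P h2 hN σ hσ]
  simp

/-- `det ρ` is unramified outside `2`. -/
theorem unr_det (A : Act D G ρ) (P : Ideal S) [P.IsPrime] (h2 : (2 : S) ∉ P) (σ : G)
    (hσ : σ ∈ P.inertia G) : (ρ σ).val.det = 1 := by
  rw [A.hρ σ, unr_k A P h2 σ hσ]
  simp [MM_det]

/-- inertia at `N` contains no element of order three. -/
theorem unr_not3 (A : Act D G ρ) (P : Ideal S) [P.IsPrime]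
    (hN : algebraMap O S N ∈ P) (σ : G) (hσ : σ ∈ P.inertia G) : ∃ i, A.π σ i = i := by
  by_contra hfix
  push Not at hfix
  have hd : ∀ i, D.r (A.π σ i) - D.r i ∈ P := fun i => by
    have h1 := unr_smul_sub hσ (D.r i)
    rwa [A.hπ σ i] at h1
  have hab : D.r 0 - D.r 1 ∈ P ∧ D.r 0 - D.r 2 ∈ P := by
    have d0 := hd 0
    have d1 := hd 1
    have d2 := hd 2
    have f0 := hfix 0
    have f1 := hfix 1
    have f2 := hfix 2
    rcases unr_fin (A.π σ) with ⟨e0, e1, e2, -⟩ | ⟨e0, e1, e2, -⟩ | ⟨e0, e1, e2, -⟩ |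
      ⟨e0, e1, e2, -⟩ | ⟨e0, e1, e2, -⟩ | ⟨e0, e1, e2, -⟩
    · exact absurd e0 f0
    · rw [e0] at d0
      rw [e2] at d2
      refine ⟨?_, d2⟩
      have := P.neg_mem d0
      rwa [neg_sub] at this
    · rw [e0] at d0
      rw [e1] at d1
      refine ⟨d1, ?_⟩
      have := P.neg_mem d0
      rwa [neg_sub] at this
    · exact absurd e2 f2
    · exact absurd e0 f0
    · exact absurd e1 f1
  obtain ⟨ha, hb⟩ := hab
  have h3 : 3 * D.r 0 ∈ P := by
    have e : 3 * D.r 0 = (D.r 0 - D.r 1) + (D.r 0 - D.r 2) := by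
      linear_combination D.hr1
    rw [e]
    exact P.add_mem ha hb
  have h27 : algebraMap O S (27 * (2 - 2 * w)) ∈ P := by
    have e : algebraMap O S (27 * (2 - 2 * w)) = (9 * D.r 0 ^ 2) * (3 * D.r 0) -
        (27 * D.r 0 ^ 2) * (D.r 0 - D.r 1) - (27 * D.r 0 * D.r 1) * (D.r 0 - D.r 2) := by
      rw [map_mul, ← D.hr3]
      have : algebraMap O S 27 = 27 := map_ofNat _ _
      rw [this]
      ring
    rw [e]
    exact P.sub_mem (P.sub_mem (P.mul_mem_left _ h3) (P.mul_mem_left _ ha)) (P.mul_mem_left _ hb)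
  have h4 := nrm_mem P _ h27
  have e : nrm (27 * (2 - 2 * w)) = 8748 := by
    have : (27 * (2 - 2 * w) : O) = ⟨54, -54⟩ := by
      ext <;> simp [w] <;> norm_num
    rw [this]
    simp [nrm]
  rw [e] at h4
  exact int_coprime P 8748 89 (by norm_num) h4 (unr_N89 P hN)

/-- `σ ↦ π σ` is multiplicative -/
theorem act_mul (A : Act D G ρ) (σ τ : G) : A.π (σ * τ) = A.π σ * A.π τ := by
  refine Equiv.ext fun i => D.r_inj ?_
  rw [← A.hπ, mul_smul, A.hπ τ i, A.hπ σ, Equiv.Perm.mul_apply]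

/-- inertia at `N` acts through a group of order at most two. -/
theorem unr_pair (A : Act D G ρ) (P : Ideal S) [P.IsPrime]
    (hN : algebraMap O S N ∈ P) (σ τ : G) (hσ : σ ∈ P.inertia G) (hτ : τ ∈ P.inertia G)
    (h1 : A.π σ ≠ 1) (h2 : A.π τ ≠ 1) : A.π σ = A.π τ := by
  by_contra hne
  have h3 := unr_not3 A P hN σ hσ
  have h4 := unr_not3 A P hN τ hτ
  have h5 := unr_not3 A P hN (σ * τ) (mul_mem hσ hτ)
  rw [act_mul] at h5
  have key : ∀ p q : Equiv.Perm (Fin 3), (∃ i, p i = i) → (∃ i, q i = i) → (∃ i, (p * q) i = i) →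
      p ≠ 1 → q ≠ 1 → p = q := by decide
  exact hne (key _ _ h3 h4 h5 h1 h2)

/-- inertia at `N` fixes `z`. -/
theorem unr_z (D : Dat S) (P : Ideal S) [P.IsPrime] (hN : algebraMap O S N ∈ P)
    (σ : G) (hσ : σ ∈ P.inertia G) : σ • D.z = D.z := by
  have h1 : (σ • D.z) ^ 2 + σ • D.z + 1 = 0 := by
    have h := congrArg (fun x => σ • x) D.hz
    simpa only [smul_add, smul_pow', smul_one, smul_zero] using h
  have h2 : (σ • D.z - D.z) * (σ • D.z + D.z + 1) = 0 := by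
    linear_combination h1 - D.hz
  rcases mul_eq_zero.1 h2 with h | h
  · exact sub_eq_zero.1 h
  · exfalso
    have h3 := unr_smul_sub hσ D.z
    have h4 : ((-3 : ℤ) : S) ∈ P := by
      have e : ((-3 : ℤ) : S) = (σ • D.z - D.z) * (σ • D.z - D.z) := by
        have e1 : σ • D.z = -1 - D.z := by linear_combination h
        rw [e1]
        push_cast
        linear_combination (-4 : S) * D.hz
      rw [e]
      exact P.mul_mem_left _ h3
    exact int_coprime P (-3) 89 (by norm_num) h4 (unr_N89 P hN)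

/-- an odd `σ` maps `dr` to `-dr`. -/
theorem act_dr (A : Act D G ρ) (σ : G) : σ • D.dr = (Equiv.Perm.sign (A.π σ) : ℤ) • D.dr := by
  have h : σ • D.dr = (D.r (A.π σ 0) - D.r (A.π σ 1)) * (D.r (A.π σ 0) - D.r (A.π σ 2)) *
      (D.r (A.π σ 1) - D.r (A.π σ 2)) := by
    unfold Dat.dr
    rw [smul_mul', smul_mul', smul_sub, smul_sub, smul_sub, A.hπ, A.hπ, A.hπ]
  rw [h]
  unfold Dat.dr
  rcases unr_fin (A.π σ) with ⟨e0, e1, e2, e3⟩ | ⟨e0, e1, e2, e3⟩ | ⟨e0, e1, e2, e3⟩ |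
    ⟨e0, e1, e2, e3⟩ | ⟨e0, e1, e2, e3⟩ | ⟨e0, e1, e2, e3⟩ <;>
  · rw [e0, e1, e2, e3]
    simp
    try ring

end Lit
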