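import Pool.Agent.Lit.BaseO

/-!
# Words: words in the generators of `GL₂(O)`, the projective line over `𝔽₈₉`, paths

Letters: `0 = A = [[1,1],[0,1]]`, `1 = U = [[1,w],[0,1]]`, `2 = B = [[0,1],[-1,0]]`, `3 = D = diag(-1,1)`,
`4 = A⁻¹`, `5 = U⁻¹`.  The point `t < 89` of `ℙ¹(𝔽₈₉)` is the class of the bottom rows `(c, d)` with
`c = t d mod N` (`w ↦ 53`), the point `89` the class with `d = 0 mod N`.  `nxt l t` is the point
`t · letter l` (from tables).  The edges are numbered `90 s + t`, `s < 4`, `t < 90`.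
-/

open Matrix
open scoped QuadraticAlgebra

namespace Lit

open SerreE SerreK

/-- `B` -/
def gB : GL (Fin 2) O := mk2 0 1 (-1) 0 1 (by simp)

/-- `D` -/
def gD : GL (Fin 2) O := mk2 (-1) 0 0 1 (-1) (by simp)

/-- the letters -/
def lt : ℕ → GL (Fin 2) O
  | 0 => up 1
  | 1 => up w
  | 2 => gB
  | 3 => gD
  | 4 => (up 1)⁻¹
  | 5 => (up w)⁻¹
  | _ => 1

/-- the value of a word -/
def evW (W : List ℕ) : GL (Fin 2) O := (W.map lt).prod

theorem evW_cons (l : ℕ) (W : List ℕ) : evW (l :: W) = lt l * evW W := by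
  simp [evW]

theorem evW_append (W W' : List ℕ) : evW (W ++ W') = evW W * evW W' := by
  simp [evW]

/-- the tables of the action of the letters on the points (8 bits for each point) -/
def TT : ℕ → ℕ
  | 0 => 0x159022e1f441310344f0b0a52353147072816064c321256201b3a1922242c0418411c381d304e5311464d361e58033d250e154a080d2b3e233f1a43572f37394221403b0549290f55453354142a260951500c274b48173c2d00
  | 1 => 0x2a0c4e1f131c522d201d57360112442446400d04432f195521162b310509490308182c390f3f2e4d323a591a22072615451b283c4c510b4b4f23293e33583b25115047140e301042531e5637342702384135064854174a0a3d00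
  | 2 => 0x12d1e43120f334e0a0951343046062715054b3111551f1a391821232b0317401b371c2f4d5210454c351d57023c240d1449070c2a3d223e1942562e363841203f3a0448280e5444325313292508504f0b264a47163b2c5859
  | 3 => 0x590102030405060708090a0b0c0d0e0f101112131415161718191a1b1c1d1e1f202122232425262728292a2b2c2d2e2f303132333435363738393a3b3c3d3e3f404142434445464748494a4b4c4d4e4f50515253545556575800
  | 4 => 0x582c1d42110e324d090850332f45052614044a3010541e19381720222a02163f1a361b2e4c510f444b341c56013b230c1348060b293c213d1841552d3537401f3e390347270d53433152122824074f4e0a254946153a2b575900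
  | _ => 0x2f1c4f0f4205115324182157322522033b061749294b45120948341e01261b30360a0e4e080d1d313e14443352373f591f270c2b1a4a202d415156105054282e433804402a16554c19133515475823023c392c073d463a0b4d00

/-- the point `t · letter l` -/
def nxt (l t : ℕ) : ℕ := (TT l >>> (8 * t)) % 256

/-- the edge crossed by the letter `l` at the point `t` -/
def edg (l t : ℕ) : ℕ := if l < 4 then 90 * l + t else 90 * (l - 4) + nxt l t

/-- the end point and the set of edges (mod 2, as a bit mask, added to `m`) of the path `W` starting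
at `t`. -/
def pm : List ℕ → ℕ → ℕ → ℕ × ℕ
  | [], t, m => (t, m)
  | l :: W, t, m => pm W (nxt l t) (m ^^^ (1 <<< edg l t))

/-- the sum of the values of `E` over the bits of `m` -/
noncomputable def evm (E : ℕ → FF) (m : ℕ) : FF :=
  ∑ i ∈ Finset.range 360, if m.testBit i then E i else 0

/-- the words of the representatives: the point `t` is the base point `0` times `tw t`. -/
def twL : List (List ℕ) := [
  [],
  [2, 0],
  [2, 4, 4, 2],
  [2, 4, 4, 4, 2],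
  [2, 1, 1, 2, 4],
  [2, 0, 1, 1],
  [2, 4, 4, 1, 1],
  [2, 4, 4, 1],
  [2, 5, 2, 5],
  [2, 1, 2, 4, 1],
  [2, 4, 4, 2, 1],
  [2, 0, 1, 2, 1],
  [2, 4, 1],
  [2, 1, 2, 0],
  [2, 1, 1, 1],
  [2, 5, 2, 1],
  [2, 0, 0, 0, 5],
  [2, 5, 5, 2],
  [2, 4, 5, 5, 2],
  [2, 1, 1, 1, 2],
  [2, 1, 2, 0, 0],
  [2, 1, 1],
  [2, 4, 4, 4, 4],
  [2, 0, 1, 1, 2, 5],
  [2, 0, 1, 2, 4, 4],
  [2, 5, 5, 2, 5],
  [2, 4, 1, 2, 5],
  [2, 4, 4, 4, 5],
  [2, 4, 5],
  [2, 5, 2, 0],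
  [2, 0, 0, 0],
  [2, 0, 0, 0, 2, 1],
  [2, 0, 1, 2, 5],
  [2, 0, 1, 2, 4],
  [2, 0, 0, 1],
  [2, 0, 1, 2],
  [2, 1, 2],
  [2, 4, 1, 2],
  [2, 4, 4, 1, 2],
  [2, 4, 1, 1],
  [2, 4, 1, 1, 1],
  [2, 4, 1, 2, 4],
  [2, 1],
  [2, 0, 1, 2, 0],
  [2, 4, 4],
  [2, 0, 0],
  [2, 4, 5, 2, 4],
  [2, 5],
  [2, 0, 5, 2, 0],
  [2, 0, 5, 5, 5],
  [2, 0, 5, 5],
  [2, 0, 0, 5, 2],
  [2, 0, 5, 2],
  [2, 5, 2],
  [2, 4, 5, 2],
  [2, 4, 4, 5],
  [2, 4, 5, 2, 0],
  [2, 4, 5, 2, 1],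
  [2, 0, 5, 2, 0, 1],
  [2, 4, 4, 4],
  [2, 1, 2, 4],
  [2, 0, 1],
  [2, 0, 0, 0, 1],
  [2, 0, 5, 2, 1],
  [2, 1, 1, 2, 1],
  [2, 0, 1, 2, 4, 5],
  [2, 0, 0, 0, 2, 4],
  [2, 0, 0, 0, 0],
  [2, 5, 5],
  [2, 5, 2, 4, 4],
  [2, 5, 5, 5, 2],
  [2, 0, 1, 1, 2],
  [2, 1, 1, 2],
  [2, 4, 4, 4, 1],
  [2, 1, 2, 5],
  [2, 5, 5, 5],
  [2, 5, 2, 4],
  [2, 0, 5],
  [2, 0, 0, 2, 1],
  [2, 0, 0, 2, 5],
  [2, 5, 2, 0, 5],
  [2, 1, 2, 1],
  [2, 0, 0, 5],
  [2, 0, 0, 5, 5],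
  [2, 4, 5, 5],
  [2, 5, 5, 2, 0],
  [2, 0, 0, 0, 2],
  [2, 0, 0, 2],
  [2, 4],
  [2]]

/-- the word of the representative of the point `t` -/
def tw (t : ℕ) : List ℕ := twL.getD t []

/-- the edges `(p, l)` of the tree: `tw (nxt l p) = tw p ++ [l]`. -/
def treeL : List (ℕ × ℕ) := [
  (0, 2), (89, 0), (89, 4), (89, 1), (89, 5), (1, 0), (1, 1), (1, 5), (88, 4), (88, 1),
  (88, 5), (42, 1), (42, 2), (47, 5), (47, 2), (45, 0), (45, 1), (45, 5), (45, 2), (61, 1),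
  (61, 2), (77, 5), (77, 2), (44, 4), (44, 1), (44, 5), (44, 2), (12, 1), (12, 2), (28, 5),
  (28, 2), (21, 1), (21, 2), (36, 0), (36, 4), (36, 1), (36, 5), (68, 5), (68, 2), (53, 0),
  (53, 4), (53, 1), (53, 5), (30, 0), (30, 1), (30, 5), (30, 2), (82, 5), (82, 2), (87, 1),
  (87, 5), (5, 2), (35, 0), (35, 4), (35, 1), (35, 5), (50, 5), (52, 0), (52, 1), (59, 4),
  (59, 1), (59, 5), (59, 2), (7, 1), (7, 2), (2, 1), (39, 1), (37, 4), (37, 5), (84, 2),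
  (54, 0), (54, 4), (54, 1), (14, 2), (72, 4), (72, 1), (13, 0), (60, 1), (75, 2), (17, 0),
  (17, 5), (29, 5), (76, 4), (86, 4), (86, 1), (71, 5), (33, 4), (33, 5), (48, 1)]

end Lit
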